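import Pool.Agent.Work.MP_87c52b_gt.OpenProd

/-!
A compact group with a faithful finite-dimensional representation is a Lie group: exponential
coordinates.
-/

open scoped Topology Manifold ContDiff
open Filter Set NormedSpace Topology

universe u

set_option linter.unusedSectionVars false
set_option linter.unusedSimpArgs false
set_option linter.style.haveILetI false

namespace Pool.Agent.Work.MP_87c52b_gt

section ExpLog

variable {A : Type u} [NormedRing A] [NormedAlgebra ℝ A] [FiniteDimensional ℝ A]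

theorem contDiff_expA : ContDiff ℝ ω (exp : A → A) := by
  rw [contDiff_iff_contDiffAt]
  intro x
  exact (exp_analytic (𝕂 := ℝ) x).contDiffAt

theorem contDiffAt_logA : ContDiffAt ℝ ω (logA : A → A) 1 := by
  have h1 : ContDiffAt ℝ ω (exp : A → A) 0 := contDiff_expA.contDiffAt
  have h2 : HasFDerivAt (exp : A → A)
      ((ContinuousLinearEquiv.refl ℝ A : A ≃L[ℝ] A) : A →L[ℝ] A) 0 := hexp0.hasFDerivAt
  have h3 := h1.to_localInverse h2 (by simp)
  rw [exp_zero] at h3
  exact h3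

end ExpLog

/-- Data for exponential coordinates on a group `L` embedded in the algebra `A`. -/
structure ChartData (L : Type u) [Group L] [TopologicalSpace L] (A : Type u) [NormedRing A]
    [NormedAlgebra ℝ A] where
  /-- the dimension -/
  n : ℕ
  /-- the representation -/
  ρ : L →* A
  emb : IsEmbedding ρ
  /-- inclusion of the Lie algebra -/
  e : EuclideanSpace ℝ (Fin n) →L[ℝ] A
  /-- projection to the Lie algebra -/
  P : A →L[ℝ] EuclideanSpace ℝ (Fin n)
  P_e : ∀ v, P (e v) = v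
  /-- the exponential map of the group -/
  ψ : EuclideanSpace ℝ (Fin n) → L
  ρ_ψ : ∀ v, ρ (ψ v) = exp (e v)
  /-- a neighbourhood of `1` -/
  D : Set A
  D_open : IsOpen D
  D_one : (1 : A) ∈ D
  /-- the logarithm -/
  lg : A → A
  lg_one : lg 1 = 0
  logD : ContDiffOn ℝ ω lg D
  exp_log : ∀ g : L, ρ g ∈ D → exp (e (P (lg (ρ g)))) = ρ g
  /-- the radius -/
  r : ℝ
  r_pos : 0 < r
  mem_D : ∀ v, ‖v‖ < r → exp (e v) ∈ D
  log_exp : ∀ v, ‖v‖ < r → lg (exp (e v)) = e v

namespace ChartData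

variable {L : Type u} [Group L] [TopologicalSpace L] [IsTopologicalGroup L]
  {A : Type u} [NormedRing A] [NormedAlgebra ℝ A] [FiniteDimensional ℝ A]
  (d : ChartData L A)

theorem continuous_ψ : Continuous d.ψ := by
  rw [d.emb.isInducing.continuous_iff]
  have : (d.ρ ∘ d.ψ) = fun v => exp (d.e v) := funext d.ρ_ψ
  rw [this]
  exact exp_cont'.comp d.e.continuous

theorem continuous_ρ : Continuous d.ρ := d.emb.continuous

/-- The chart at `x`. -/
noncomputable def chart (x : L) : OpenPartialHomeomorph L (EuclideanSpace ℝ (Fin d.n)) where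
  toFun y := d.P (d.lg (d.ρ (x⁻¹ * y)))
  invFun v := x * d.ψ v
  source := {y | d.ρ (x⁻¹ * y) ∈ d.D} ∩
    (fun y => d.P (d.lg (d.ρ (x⁻¹ * y)))) ⁻¹' Metric.ball 0 d.r
  target := Metric.ball 0 d.r
  map_source' := fun y hy => hy.2
  map_target' := by
    intro v hv
    rw [mem_ball_zero_iff] at hv
    refine ⟨?_, ?_⟩
    · show d.ρ (x⁻¹ * (x * d.ψ v)) ∈ d.D
      rw [inv_mul_cancel_left, d.ρ_ψ]
      exact d.mem_D v hv
    · show d.P (d.lg (d.ρ (x⁻¹ * (x * d.ψ v)))) ∈ Metric.ball 0 d.r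
      rw [inv_mul_cancel_left, d.ρ_ψ, d.log_exp v hv, d.P_e, mem_ball_zero_iff]
      exact hv
  left_inv' := by
    intro y hy
    have h1 : d.ψ (d.P (d.lg (d.ρ (x⁻¹ * y)))) = x⁻¹ * y := by
      apply d.emb.injective
      rw [d.ρ_ψ]
      exact d.exp_log _ hy.1
    rw [h1, mul_inv_cancel_left]
  right_inv' := by
    intro v hv
    rw [mem_ball_zero_iff] at hv
    rw [inv_mul_cancel_left, d.ρ_ψ, d.log_exp v hv, d.P_e]
  open_source := by
    have hc : Continuous fun y : L => d.ρ (x⁻¹ * y) :=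
      d.continuous_ρ.comp (continuous_const.mul continuous_id)
    refine ContinuousOn.isOpen_inter_preimage ?_ (d.D_open.preimage hc) Metric.isOpen_ball
    exact d.P.continuous.comp_continuousOn
      (d.logD.continuousOn.comp hc.continuousOn fun y hy => hy)
  open_target := Metric.isOpen_ball
  continuousOn_toFun := by
    have hc : Continuous fun y : L => d.ρ (x⁻¹ * y) :=
      d.continuous_ρ.comp (continuous_const.mul continuous_id)
    exact d.P.continuous.comp_continuousOn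
      (d.logD.continuousOn.comp hc.continuousOn fun y hy => hy.1)
  continuousOn_invFun := (continuous_const.mul d.continuous_ψ).continuousOn

/-- The charted space structure. -/
@[instance_reducible]
noncomputable def chartedSpace : ChartedSpace (EuclideanSpace ℝ (Fin d.n)) L where
  atlas := range d.chart
  chartAt := d.chart
  mem_chart_source := by
    intro x
    refine ⟨?_, ?_⟩
    · show d.ρ (x⁻¹ * x) ∈ d.D
      rw [inv_mul_cancel, map_one]
      exact d.D_one
    · show d.P (d.lg (d.ρ (x⁻¹ * x))) ∈ Metric.ball 0 d.r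
      rw [inv_mul_cancel, map_one, d.lg_one, map_zero]
      exact Metric.mem_ball_self d.r_pos
  chart_mem_atlas := fun x => mem_range_self x

theorem isManifold :
    letI := d.chartedSpace
    IsManifold (𝓡 d.n) ω L := by
  letI := d.chartedSpace
  apply isManifold_of_contDiffOn
  rintro _ _ ⟨x, rfl⟩ ⟨y, rfl⟩
  have heq : ((𝓡 d.n) ∘ ((d.chart x).symm ≫ₕ (d.chart y)) ∘ (𝓡 d.n).symm) =
      fun v => d.P (d.lg (d.ρ (y⁻¹ * x) * exp (d.e v))) := by
    funext v
    show d.P (d.lg (d.ρ (y⁻¹ * (x * d.ψ v)))) = _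
    rw [← mul_assoc, map_mul, d.ρ_ψ]
  rw [heq]
  intro v hv
  have hvD : d.ρ (y⁻¹ * x) * exp (d.e v) ∈ d.D := by
    have h1 : d.ρ (y⁻¹ * (x * d.ψ v)) ∈ d.D := hv.1.2.1
    rwa [← mul_assoc, map_mul, d.ρ_ψ] at h1
  have h1 : ContDiffAt ℝ ω d.lg (d.ρ (y⁻¹ * x) * exp (d.e v)) :=
    (d.logD _ hvD).contDiffAt (d.D_open.mem_nhds hvD)
  have h2 : ContDiff ℝ ω fun v => d.ρ (y⁻¹ * x) * exp (d.e v) :=
    contDiff_const.mul (contDiff_expA.comp d.e.contDiff)
  exact (d.P.contDiff.contDiffAt.comp v (h1.comp v h2.contDiffAt)).contDiffWithinAt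

theorem contMDiff_ρ :
    letI := d.chartedSpace
    ContMDiff (𝓡 d.n) 𝓘(ℝ, A) ω d.ρ := by
  letI := d.chartedSpace
  intro x
  rw [contMDiffAt_iff]
  refine ⟨d.continuous_ρ.continuousAt, ?_⟩
  have heq : (extChartAt 𝓘(ℝ, A) (d.ρ x) ∘ d.ρ ∘ (extChartAt (𝓡 d.n) x).symm) =
      fun v => d.ρ x * exp (d.e v) := by
    funext v
    show d.ρ (x * d.ψ v) = _
    rw [map_mul, d.ρ_ψ]
  rw [heq]
  exact (contDiff_const.mul (contDiff_expA.comp d.e.contDiff)).contDiffAt.contDiffWithinAt

/-- The lifting property of the embedding. -/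
theorem contMDiff_lift {E' : Type*} [NormedAddCommGroup E'] [NormedSpace ℝ E'] {H' : Type*}
    [TopologicalSpace H'] {I' : ModelWithCorners ℝ E' H'} {M : Type*} [TopologicalSpace M]
    [ChartedSpace H' M] {f : M → L} (hf : Continuous f)
    (h : ContMDiff I' 𝓘(ℝ, A) ω (d.ρ ∘ f)) :
    letI := d.chartedSpace
    ContMDiff I' (𝓡 d.n) ω f := by
  letI := d.chartedSpace
  intro m
  rw [contMDiffAt_iff_target]
  refine ⟨hf.continuousAt, ?_⟩
  have heq : (extChartAt (𝓡 d.n) (f m) ∘ f) =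
      (fun a : A => d.P (d.lg (d.ρ (f m)⁻¹ * a))) ∘ (d.ρ ∘ f) := by
    funext m'
    show d.P (d.lg (d.ρ ((f m)⁻¹ * f m'))) = _
    rw [map_mul]
    rfl
  rw [heq]
  have hD : d.ρ (f m)⁻¹ * (d.ρ ∘ f) m = 1 := by
    rw [Function.comp_apply, ← map_mul, inv_mul_cancel, map_one]
  have hD' : d.ρ (f m)⁻¹ * (d.ρ ∘ f) m ∈ d.D := by rw [hD]; exact d.D_one
  have h1 : ContDiffAt ℝ ω d.lg (d.ρ (f m)⁻¹ * (d.ρ ∘ f) m) :=
    (d.logD _ hD').contDiffAt (d.D_open.mem_nhds hD')
  have h2 : ContDiff ℝ ω fun a : A => d.ρ (f m)⁻¹ * a := contDiff_const.mul contDiff_id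
  have h3 : ContDiffAt ℝ ω (fun a : A => d.P (d.lg (d.ρ (f m)⁻¹ * a))) ((d.ρ ∘ f) m) :=
    d.P.contDiff.contDiffAt.comp _ (h1.comp _ h2.contDiffAt)
  exact h3.contMDiffAt.comp m (h m)

theorem lieGroup :
    letI := d.chartedSpace
    LieGroup (𝓡 d.n) ω L := by
  letI := d.chartedSpace
  haveI := d.isManifold
  have hmul : ContMDiff ((𝓡 d.n).prod (𝓡 d.n)) (𝓡 d.n) ω fun p : L × L => p.1 * p.2 := by
    apply d.contMDiff_lift continuous_mul
    have heq : (d.ρ ∘ fun p : L × L => p.1 * p.2) =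
        (fun q : A × A => q.1 * q.2) ∘ fun p : L × L => (d.ρ p.1, d.ρ p.2) := by
      funext p
      exact map_mul d.ρ _ _
    rw [heq]
    have h1 : ContMDiff ((𝓡 d.n).prod (𝓡 d.n)) 𝓘(ℝ, A × A) ω
        fun p : L × L => (d.ρ p.1, d.ρ p.2) :=
      (d.contMDiff_ρ.comp contMDiff_fst).prodMk_space (d.contMDiff_ρ.comp contMDiff_snd)
    exact (contDiff_mul.contMDiff).comp h1
  have hinv : ContMDiff (𝓡 d.n) (𝓡 d.n) ω fun p : L => p⁻¹ := by
    apply d.contMDiff_lift continuous_inv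
    have heq : (d.ρ ∘ fun p : L => p⁻¹) = Ring.inverse ∘ d.ρ := by
      funext p
      let u : Aˣ := ⟨d.ρ p, d.ρ p⁻¹, by rw [← map_mul, mul_inv_cancel, map_one],
        by rw [← map_mul, inv_mul_cancel, map_one]⟩
      have : Ring.inverse (u : A) = ((u⁻¹ : Aˣ) : A) := Ring.inverse_unit u
      exact this.symm
    rw [heq]
    intro p
    let u : Aˣ := ⟨d.ρ p, d.ρ p⁻¹, by rw [← map_mul, mul_inv_cancel, map_one],
      by rw [← map_mul, inv_mul_cancel, map_one]⟩
    haveI : CompleteSpace A := FiniteDimensional.complete ℝ A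
    have h1 : ContDiffAt ℝ ω Ring.inverse (u : A) := contDiffAt_ringInverse ℝ u
    exact (h1.contMDiffAt).comp p (d.contMDiff_ρ p)
  exact { contMDiff_mul := hmul, contMDiff_inv := hinv }

end ChartData

/-- Existence of exponential coordinates. -/
theorem exists_chartData (L : Type u) [Group L] [TopologicalSpace L] [IsTopologicalGroup L]
    [CompactSpace L] [T2Space L] {A : Type u} [NormedRing A] [NormedAlgebra ℝ A]
    [FiniteDimensional ℝ A] (ρ : L →* A) (hρ : Continuous ρ) (hinj : Function.Injective ρ) :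
    Nonempty (ChartData L A) := by
  let S : Set A := range ρ
  have hS : CG S :=
    { compact := isCompact_range hρ
      one_mem := ⟨1, map_one ρ⟩
      mul_mem := by
        rintro _ _ ⟨a, rfl⟩ ⟨b, rfl⟩
        exact ⟨a * b, map_mul ρ a b⟩
      inv_mem := by
        rintro _ ⟨a, rfl⟩
        exact ⟨ρ a⁻¹, ⟨a⁻¹, rfl⟩, by rw [← map_mul, mul_inv_cancel, map_one],
          by rw [← map_mul, inv_mul_cancel, map_one]⟩ }
  let n := Module.finrank ℝ hS.lie
  let e₀ : EuclideanSpace ℝ (Fin n) ≃L[ℝ] hS.lie :=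
    ContinuousLinearEquiv.ofFinrankEq (by simp [n])
  let e : EuclideanSpace ℝ (Fin n) →L[ℝ] A := hS.lie.subtypeL ∘L (e₀ : _ →L[ℝ] hS.lie)
  have he : ∀ v, e v = (e₀ v : A) := fun v => rfl
  have heinj : Function.Injective e := fun v w h => e₀.injective (Subtype.ext h)
  obtain ⟨P₀, hP₀⟩ := LinearMap.exists_leftInverse_of_injective
    (e : EuclideanSpace ℝ (Fin n) →ₗ[ℝ] A)
    ((LinearMap.ker_eq_bot (f := (e : EuclideanSpace ℝ (Fin n) →ₗ[ℝ] A))).2 heinj)
  let P : A →L[ℝ] EuclideanSpace ℝ (Fin n) := LinearMap.toContinuousLinearMap P₀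
  have hPe : ∀ v, P (e v) = v := fun v => LinearMap.congr_fun hP₀ v
  have hψ : ∀ v, ∃ g : L, ρ g = exp (e v) := fun v => hS.exp_mem_of_mem_lie (e₀ v).2
  choose ψ hψ using hψ
  have hN : {X : hS.lie | logA (exp (X : A)) = X} ∈ 𝓝 (0 : hS.lie) := by
    have hc : Continuous fun X : hS.lie => (X : A) := continuous_subtype_val
    have h1 := hc.tendsto 0
    simp only [ZeroMemClass.coe_zero] at h1
    exact h1.eventually logA_exp
  obtain ⟨O, hO, hOS⟩ := hS.exp_surj hN
  have hlog : ∀ᶠ y in 𝓝 (1 : A), ContDiffAt ℝ ω (logA : A → A) y :=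
    contDiffAt_logA.eventually (by simp)
  let D : Set A := interior (O ∩ {y | ContDiffAt ℝ ω (logA : A → A) y})
  have hD1 : (1 : A) ∈ D := mem_interior_iff_mem_nhds.2 (inter_mem hO hlog)
  have hexp : Tendsto (fun v => exp (e v)) (𝓝 0) (𝓝 (1 : A)) := by
    have h1 : Continuous fun v => exp (e v) := exp_cont'.comp e.continuous
    have h2 := h1.tendsto 0
    rwa [map_zero, exp_zero] at h2
  have he0 : Tendsto (fun v => e v) (𝓝 0) (𝓝 (0 : A)) := by
    have h2 := e.continuous.tendsto 0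
    rwa [map_zero] at h2
  have hr : ∀ᶠ v in 𝓝 (0 : EuclideanSpace ℝ (Fin n)),
      exp (e v) ∈ D ∧ logA (exp (e v)) = e v :=
    (hexp.eventually (isOpen_interior.mem_nhds hD1)).and (he0.eventually logA_exp)
  obtain ⟨r, hr0, hr⟩ := Metric.eventually_nhds_iff_ball.1 hr
  refine ⟨{ n := n, ρ := ρ, emb := (hρ.isClosedEmbedding hinj).isEmbedding, e := e, P := P,
            P_e := hPe, ψ := ψ, ρ_ψ := hψ, D := D, D_open := isOpen_interior, D_one := hD1,
            lg := logA, lg_one := logA_one, logD := ?_, exp_log := ?_, r := r, r_pos := hr0,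
            mem_D := ?_, log_exp := ?_ }⟩
  · intro y hy
    have h1 : ContDiffAt ℝ ω (logA : A → A) y := (interior_subset hy).2
    exact h1.contDiffWithinAt
  · intro g hg
    obtain ⟨X, hX, hXg⟩ := hOS (ρ g) (interior_subset hg).1 ⟨g, rfl⟩
    have h1 : logA (ρ g) = (X : A) := by rw [← hXg]; exact hX
    have h2 : (X : A) = e (e₀.symm X) := by rw [he, e₀.apply_symm_apply]
    rw [h1, h2, hPe, ← h2, hXg]
  · intro v hv
    exact (hr v (by simpa using hv)).1
  · intro v hv
    exact (hr v (by simpa using hv)).2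

/-- A compact group with a faithful finite-dimensional representation is a Lie group. -/
theorem isLie_of_linear (L : Type u) [Group L] [TopologicalSpace L] [IsTopologicalGroup L]
    [CompactSpace L] [T2Space L] (h : IsRepKernel (⊥ : Subgroup L)) : IsLie L := by
  obtain ⟨A, _, _, _, ρ, hρ, hρ1⟩ := h
  have hinj : Function.Injective ρ := by
    rw [injective_iff_map_eq_one]
    intro a ha
    exact Subgroup.mem_bot.1 ((hρ1 a).1 ha)
  obtain ⟨d⟩ := exists_chartData L ρ hρ hinj
  exact ⟨d.n, d.chartedSpace, d.lieGroup⟩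

end Pool.Agent.Work.MP_87c52b_gt
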