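import Pool.Agent.Work.MP_87c52b_gt.Alg

open Set

universe u v

set_option linter.unusedSectionVars false
set_option linter.unusedSimpArgs false
set_option linter.style.haveILetI false

namespace Pool.Agent.Work.MP_87c52b_gt

/-- A finitely generated abelian group in which every element is twice an element plus torsion is
torsion. -/
theorem torsion_of_two_divisible {M : Type u} [AddCommGroup M] [Module.Finite ℤ M]
    (h : ∀ z : M, ∃ w t : M, z = 2 • w + t ∧ ∃ n : ℕ, 0 < n ∧ n • t = 0) (x : M) :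
    ∃ n : ℕ, 0 < n ∧ n • x = 0 := by
  let T := Submodule.torsion ℤ M
  have hT : ∀ t : M, (∃ n : ℕ, 0 < n ∧ n • t = 0) → t ∈ T := by
    rintro t ⟨n, hn, hnt⟩
    rw [Submodule.mem_torsion_iff]
    refine ⟨⟨(n : ℤ), mem_nonZeroDivisors_of_ne_zero (by exact_mod_cast hn.ne')⟩, ?_⟩
    show (n : ℤ) • t = 0
    rw [natCast_zsmul]; exact hnt
  have hT' : ∀ t : M, t ∈ T → (∃ n : ℕ, 0 < n ∧ n • t = 0) := by
    intro t ht
    rw [Submodule.mem_torsion_iff] at ht
    obtain ⟨⟨a, ha⟩, hat⟩ := ht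
    have ha0 : a ≠ 0 := nonZeroDivisors.ne_zero ha
    have hat' : a • t = 0 := hat
    refine ⟨a.natAbs, Int.natAbs_pos.2 ha0, ?_⟩
    rw [← natCast_zsmul]
    rcases Int.natAbs_eq a with h1 | h1
    · rw [← h1]; exact hat'
    · have : ((a.natAbs : ℕ) : ℤ) = -a := by omega
      rw [this, neg_smul, hat', neg_zero]
  apply hT'
  rw [← Submodule.Quotient.mk_eq_zero]
  let Q := M ⧸ T
  haveI : Module.Free ℤ Q := Module.free_of_finite_type_torsion_free'
  let b := Module.Free.chooseBasis ℤ Q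
  by_contra hne
  have hnt : Nontrivial Q := ⟨_, _, hne⟩
  obtain ⟨i⟩ : Nonempty (Module.Free.ChooseBasisIndex ℤ Q) := by
    by_contra hemp
    rw [not_nonempty_iff] at hemp
    exact hne (b.repr.injective (Subsingleton.elim _ _))
  obtain ⟨z, hz⟩ := Submodule.Quotient.mk_surjective T (b i)
  obtain ⟨w, t, hzwt, ht⟩ := h z
  have h1 : (b i : Q) = 2 • (Submodule.Quotient.mk w : Q) := by
    rw [← hz, hzwt, Submodule.Quotient.mk_add, (Submodule.Quotient.mk_eq_zero T).2 (hT t ht),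
      add_zero]
    rfl
  have h2 := congrArg (fun q => b.repr q i) h1
  simp only [Module.Basis.repr_self, Finsupp.single_eq_same, map_nsmul, Finsupp.smul_apply] at h2
  rw [nsmul_eq_mul] at h2
  push_cast at h2
  omega

/-- The subgroup of doubles. -/
def dbl {X : Type v} [AddCommGroup X] (Z : AddSubgroup X) : AddSubgroup X where
  carrier := {x | ∃ z ∈ Z, x = 2 • z}
  zero_mem' := ⟨0, Z.zero_mem, by simp⟩
  add_mem' := by
    rintro _ _ ⟨a, ha, rfl⟩ ⟨b, hb, rfl⟩
    exact ⟨a + b, Z.add_mem ha hb, by rw [smul_add]⟩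
  neg_mem' := by
    rintro _ ⟨a, ha, rfl⟩
    exact ⟨-a, Z.neg_mem ha, by rw [smul_neg]⟩

theorem exists_notMem_sup_dbl {X : Type v} [AddCommGroup X] {Y Z : AddSubgroup X} (hZ : Z.FG)
    (hYZ : ∀ y ∈ Y, y ∈ Z → ∃ n : ℕ, 0 < n ∧ n • y = 0) {x₀ : X} (hx₀ : x₀ ∈ Z)
    (hord : ∀ n : ℕ, 0 < n → n • x₀ ≠ 0) : ∃ z ∈ Z, z ∉ Y ⊔ dbl Z := by
  by_contra hcon
  push Not at hcon
  haveI : Module.Finite ℤ Z := by
    rw [Module.Finite.iff_addGroup_fg]
    exact (AddGroup.fg_iff_addSubgroup_fg Z).2 hZ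
  have key := torsion_of_two_divisible (M := Z) (fun z => by
    obtain ⟨y, hy, w', ⟨w, hw, rfl⟩, hyw⟩ := AddSubgroup.mem_sup.1 (hcon z z.2)
    have hyZ : y ∈ Z := by
      have : y = (z : X) - 2 • w := by rw [← hyw]; abel
      rw [this]
      exact Z.sub_mem z.2 (Z.nsmul_mem hw 2)
    obtain ⟨n, hn, hny⟩ := hYZ y hy hyZ
    refine ⟨⟨w, hw⟩, ⟨y, hyZ⟩, ?_, n, hn, ?_⟩
    · apply Subtype.ext
      show (z : X) = 2 • w + y
      rw [← hyw]; abel
    · apply Subtype.ext
      exact hny) ⟨x₀, hx₀⟩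
  obtain ⟨n, hn, hnx⟩ := key
  exact hord n hn (congrArg Subtype.val hnx)

/-- The subgroup generated by a finite orbit is invariant and finitely generated. -/
theorem orbit_closure {Γ : Type u} {X : Type v} [Group Γ] [AddCommGroup X] [DistribMulAction Γ X]
    (x : X) (hx : (MulAction.orbit Γ x).Finite) :
    Inv Γ (AddSubgroup.closure (MulAction.orbit Γ x)) ∧
      (AddSubgroup.closure (MulAction.orbit Γ x)).FG := by
  refine ⟨?_, ⟨hx.toFinset, by simp⟩⟩
  intro g y hy
  induction hy using AddSubgroup.closure_induction with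
  | mem y hy =>
    apply AddSubgroup.subset_closure
    obtain ⟨k, rfl⟩ := hy
    exact ⟨g * k, mul_smul g k x⟩
  | zero => rw [smul_zero]; exact AddSubgroup.zero_mem _
  | add a b _ _ iha ihb => rw [smul_add]; exact AddSubgroup.add_mem _ iha ihb
  | neg a _ iha => rw [smul_neg]; exact AddSubgroup.neg_mem _ iha

end Pool.Agent.Work.MP_87c52b_gt
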