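import Mathlib

/-!
Duality: a subgroup of the character group of a compact group is its own double annihilator.
-/

open scoped Topology
open Filter Set MeasureTheory

universe u v

set_option linter.unusedSectionVars false
set_option linter.unusedSimpArgs false
set_option linter.style.haveILetI false

namespace Pool.Agent.Work.MP_87c52b_gt

variable {C : Type u} [Group C] [TopologicalSpace C] [IsTopologicalGroup C] [CompactSpace C]

theorem circle_continuous_coe : Continuous (fun z : Circle => (z : ℂ)) :=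
  continuous_subtype_val

theorem char_map_inv (χ : C →ₜ* Circle) (c : C) : χ c⁻¹ = (χ c)⁻¹ := by
  rw [eq_inv_iff_mul_eq_one, ← map_mul, inv_mul_cancel, map_one]

/-- The integral of a nontrivial character is zero. -/
theorem integral_char_eq_zero [MeasurableSpace C] [BorelSpace C] (θ : C →ₜ* Circle) {c₀ : C}
    (h : θ c₀ ≠ 1) (μ : Measure C) [μ.IsMulLeftInvariant] : ∫ c, (θ c : ℂ) ∂μ = 0 := by
  have h1 : ∫ c, (θ c : ℂ) ∂μ = (θ c₀ : ℂ) * ∫ c, (θ c : ℂ) ∂μ := by
    calc ∫ c, (θ c : ℂ) ∂μ = ∫ c, (θ (c₀ * c) : ℂ) ∂μ :=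
          (integral_mul_left_eq_self (μ := μ) (fun c => (θ c : ℂ)) c₀).symm
      _ = ∫ c, (θ c₀ : ℂ) * (θ c : ℂ) ∂μ := by simp only [map_mul, Circle.coe_mul]
      _ = (θ c₀ : ℂ) * ∫ c, (θ c : ℂ) ∂μ := integral_const_mul _ _
  have h2 : ((θ c₀ : ℂ) - 1) * ∫ c, (θ c : ℂ) ∂μ = 0 := by
    rw [sub_mul, one_mul, ← h1, sub_self]
  rcases mul_eq_zero.1 h2 with h3 | h3
  · exfalso
    apply h
    rw [sub_eq_zero] at h3
    exact Circle.ext h3
  · exact h3

/-- The annihilator of a subgroup of characters. -/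
def ann (Y : Subgroup (C →ₜ* Circle)) : Subgroup C where
  carrier := {c | ∀ ψ ∈ Y, ψ c = 1}
  one_mem' := fun ψ _ => map_one ψ
  mul_mem' := by
    intro a b ha hb ψ hψ
    rw [map_mul, ha ψ hψ, hb ψ hψ, mul_one]
  inv_mem' := by
    intro a ha ψ hψ
    rw [char_map_inv, ha ψ hψ, inv_one]

theorem mem_ann {Y : Subgroup (C →ₜ* Circle)} {c : C} : c ∈ ann Y ↔ ∀ ψ ∈ Y, ψ c = 1 := Iff.rfl

theorem ann_normal (Y : Subgroup (C →ₜ* Circle)) : (ann Y).Normal := by
  refine ⟨fun n hn g ψ hψ => ?_⟩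
  rw [map_mul, map_mul, hn ψ hψ, mul_one, char_map_inv, mul_inv_cancel]

theorem isClosed_ann (Y : Subgroup (C →ₜ* Circle)) : IsClosed (ann Y : Set C) := by
  have : (ann Y : Set C) = ⋂ ψ ∈ Y, {c | ψ c = 1} := by
    ext c; simp [ann]
  rw [this]
  exact isClosed_biInter fun ψ _ => isClosed_eq (map_continuous ψ) continuous_const

/-- The descended function on the quotient. -/
noncomputable def desc {N : Subgroup C} (θ : C →ₜ* Circle) (h : ∀ n ∈ N, θ n = 1) :
    C(C ⧸ N, ℂ) where
  toFun := Quotient.lift (s := QuotientGroup.leftRel N) (fun c => (θ c : ℂ)) (by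
    intro a b hab
    have h1 : a⁻¹ * b ∈ N := QuotientGroup.leftRel_apply.1 hab
    have h2 := h _ h1
    rw [map_mul, char_map_inv, inv_mul_eq_one] at h2
    rw [h2])
  continuous_toFun := by
    apply Continuous.quotient_lift
    exact circle_continuous_coe.comp (map_continuous θ)

theorem desc_mk {N : Subgroup C} (θ : C →ₜ* Circle) (h : ∀ n ∈ N, θ n = 1) (c : C) :
    desc θ h (QuotientGroup.mk c) = (θ c : ℂ) := rfl

theorem exists_ann_ne (Y : Subgroup (C →ₜ* Circle)) (χ : C →ₜ* Circle) (hχ : χ ∉ Y) :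
    ∃ c ∈ ann Y, χ c ≠ 1 := by
  by_contra hcon
  push Not at hcon
  haveI := ann_normal Y
  haveI : IsClosed (ann Y : Set C) := isClosed_ann Y
  let Q := C ⧸ ann Y
  -- the descended characters
  let M : Set C(Q, ℂ) := {f | ∃ ψ : C →ₜ* Circle, ∃ h : ψ ∈ Y,
    f = desc (N := ann Y) ψ (fun n hn => hn ψ h)}
  let V : Submodule ℂ C(Q, ℂ) := Submodule.span ℂ M
  have hM1 : (1 : C(Q, ℂ)) ∈ M := by
    refine ⟨1, Y.one_mem, ?_⟩
    ext q
    obtain ⟨c, rfl⟩ := QuotientGroup.mk_surjective q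
    rw [desc_mk]; simp
  have hMmul : ∀ f ∈ M, ∀ g ∈ M, f * g ∈ M := by
    rintro _ ⟨ψ, hψ, rfl⟩ _ ⟨φ, hφ, rfl⟩
    refine ⟨ψ * φ, Y.mul_mem hψ hφ, ?_⟩
    ext q
    obtain ⟨c, rfl⟩ := QuotientGroup.mk_surjective q
    rw [desc_mk, ContinuousMap.mul_apply, desc_mk, desc_mk]; simp
  have hMstar : ∀ f ∈ M, star f ∈ M := by
    rintro _ ⟨ψ, hψ, rfl⟩
    refine ⟨ψ⁻¹, Y.inv_mem hψ, ?_⟩
    ext q
    obtain ⟨c, rfl⟩ := QuotientGroup.mk_surjective q
    rw [desc_mk, ContinuousMap.star_apply, desc_mk]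
    have : (ψ⁻¹ : C →ₜ* Circle) c = (ψ c)⁻¹ := rfl
    rw [this, Circle.coe_inv_eq_conj]; rfl
  have hVmul : ∀ f ∈ V, ∀ g ∈ V, f * g ∈ V := by
    intro f hf g hg
    have h1 : f * g ∈ V * V := Submodule.mul_mem_mul hf hg
    rw [Submodule.span_mul_span] at h1
    refine Submodule.span_mono ?_ h1
    rintro _ ⟨a, ha, b, hb, rfl⟩
    exact hMmul a ha b hb
  have hVstar : ∀ f ∈ V, star f ∈ V := by
    intro f hf
    induction hf using Submodule.span_induction with
    | mem x hx => exact Submodule.subset_span (hMstar x hx)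
    | zero => simp
    | add x y _ _ hx hy => rw [star_add]; exact V.add_mem hx hy
    | smul a x _ hx => rw [star_smul]; exact V.smul_mem _ hx
  let S : StarSubalgebra ℂ C(Q, ℂ) :=
    { carrier := V
      mul_mem' := fun {a b} ha hb => hVmul a ha b hb
      one_mem' := Submodule.subset_span hM1
      add_mem' := fun {a b} ha hb => V.add_mem ha hb
      zero_mem' := V.zero_mem
      algebraMap_mem' := by
        intro r
        have : algebraMap ℂ C(Q, ℂ) r = r • (1 : C(Q, ℂ)) := Algebra.algebraMap_eq_smul_one r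
        rw [this]
        exact V.smul_mem _ (Submodule.subset_span hM1)
      star_mem' := fun {a} ha => hVstar a ha }
  have hsep : S.toSubalgebra.SeparatesPoints := by
    intro p q hpq
    obtain ⟨a, rfl⟩ := QuotientGroup.mk_surjective p
    obtain ⟨b, rfl⟩ := QuotientGroup.mk_surjective q
    have h1 : a⁻¹ * b ∉ ann Y := fun h => hpq (QuotientGroup.eq.2 h)
    rw [mem_ann] at h1
    push Not at h1
    obtain ⟨ψ, hψ, hne⟩ := h1
    refine ⟨desc (N := ann Y) ψ (fun n hn => hn ψ hψ), ⟨_, Submodule.subset_span ⟨ψ, hψ, rfl⟩,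
      rfl⟩, ?_⟩
    rw [desc_mk, desc_mk]
    intro h2
    apply hne
    have h3 : ψ a = ψ b := Circle.ext h2
    rw [map_mul, char_map_inv, h3, inv_mul_cancel]
  have htop := ContinuousMap.starSubalgebra_topologicalClosure_eq_top_of_separatesPoints S hsep
  let fχ : C(Q, ℂ) := desc (N := ann Y) χ (fun n hn => hcon n hn)
  have hmem : fχ ∈ S.topologicalClosure := by rw [htop]; trivial
  have hcl : fχ ∈ closure (S : Set C(Q, ℂ)) := hmem
  obtain ⟨f, hfS, hdist⟩ := Metric.mem_closure_iff.1 hcl (1 / 2) (by norm_num)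
  have hfV : f ∈ V := hfS
  -- integration
  letI : MeasurableSpace C := borel C
  haveI : BorelSpace C := ⟨rfl⟩
  let K₀ : TopologicalSpace.PositiveCompacts C :=
    { carrier := univ, isCompact' := isCompact_univ, interior_nonempty' := by simp }
  let μ : Measure C := Measure.haarMeasure K₀
  have hμ : μ univ = 1 := Measure.haarMeasure_self
  haveI : IsProbabilityMeasure μ := ⟨hμ⟩
  have hint : ∀ g : C(Q, ℂ), Integrable (fun c : C => g (QuotientGroup.mk c) *
      (starRingEnd ℂ) (χ c : ℂ)) μ := by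
    intro g
    apply Continuous.integrable_of_hasCompactSupport _ (HasCompactSupport.of_compactSpace _)
    refine (g.continuous.comp QuotientGroup.continuous_mk).mul ?_
    exact Complex.continuous_conj.comp (circle_continuous_coe.comp (map_continuous χ))
  have hzero : ∀ g ∈ V, ∫ c : C, g (QuotientGroup.mk c) * (starRingEnd ℂ) (χ c : ℂ) ∂μ = 0 := by
    intro g hg
    induction hg using Submodule.span_induction with
    | mem x hx =>
      obtain ⟨ψ, hψ, rfl⟩ := hx
      have hne : ψ * χ⁻¹ ≠ 1 := by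
        intro h1
        apply hχ
        rw [mul_inv_eq_one] at h1
        rw [← h1]; exact hψ
      obtain ⟨c₀, hc₀⟩ : ∃ c₀, (ψ * χ⁻¹ : C →ₜ* Circle) c₀ ≠ 1 := by
        by_contra hall
        push Not at hall
        exact hne (ContinuousMonoidHom.ext hall)
      have h2 := integral_char_eq_zero (ψ * χ⁻¹) hc₀ μ
      rw [← h2]
      congr 1
      ext c
      rw [desc_mk]
      have : (ψ * χ⁻¹ : C →ₜ* Circle) c = ψ c * (χ c)⁻¹ := rfl
      rw [this, Circle.coe_mul, Circle.coe_inv_eq_conj]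
    | zero => simp
    | add x y _ _ hx hy =>
      simp only [ContinuousMap.add_apply, add_mul]
      rw [integral_add (hint x) (hint y), hx, hy, add_zero]
    | smul a x _ hx =>
      simp only [ContinuousMap.smul_apply, smul_eq_mul, mul_assoc]
      rw [integral_const_mul, hx, mul_zero]
  have h1 : ∫ c : C, fχ (QuotientGroup.mk c) * (starRingEnd ℂ) (χ c : ℂ) ∂μ = 1 := by
    have : ∀ c : C, fχ (QuotientGroup.mk c) * (starRingEnd ℂ) (χ c : ℂ) = 1 := by
      intro c
      have h2 : fχ (QuotientGroup.mk c) = (χ c : ℂ) := rfl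
      rw [h2, ← Circle.coe_inv_eq_conj, ← Circle.coe_mul, mul_inv_cancel, Circle.coe_one]
    simp_rw [this]
    simp [hμ]
  have h2 : ‖∫ c : C, (fχ (QuotientGroup.mk c) * (starRingEnd ℂ) (χ c : ℂ) -
      f (QuotientGroup.mk c) * (starRingEnd ℂ) (χ c : ℂ)) ∂μ‖ ≤ 1 / 2 := by
    refine (norm_integral_le_of_norm_le_const (C := 1 / 2) ?_).trans ?_
    · refine Eventually.of_forall fun c => ?_
      rw [← sub_mul, norm_mul, RCLike.norm_conj, Circle.norm_coe, mul_one]
      have := ContinuousMap.dist_apply_le_dist (f := fχ) (g := f) (QuotientGroup.mk c)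
      rw [dist_eq_norm] at this
      exact this.trans hdist.le
    · simp [hμ]
  rw [integral_sub (hint fχ) (hint f), h1, hzero f hfV, sub_zero, norm_one] at h2
  norm_num at h2

end Pool.Agent.Work.MP_87c52b_gt
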