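import Pool.Agent.Work.MP_87c52b_gt.Ctx
import Pool.Agent.Work.MP_87c52b_gt.Alg2
import Pool.Agent.Work.MP_87c52b_gt.Duality

/-!
Closed abelian normal subgroups.
-/

open scoped Topology
open Filter Set

universe u v

set_option linter.unusedSectionVars false
set_option linter.unusedSimpArgs false
set_option linter.style.haveILetI false

namespace Pool.Agent.Work.MP_87c52b_gt

section TD

variable {C : Type u} [Group C] [TopologicalSpace C] [IsTopologicalGroup C] [CompactSpace C]

theorem finite_roots (n : ℕ) (hn : 0 < n) : {z : ℂ | z ^ n = 1}.Finite := by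
  classical
  have : {z : ℂ | z ^ n = 1} ⊆ ((Polynomial.nthRoots n (1 : ℂ)).toFinset : Set ℂ) := by
    intro z hz
    simp only [Finset.mem_coe, Multiset.mem_toFinset]
    exact (Polynomial.mem_nthRoots hn).2 hz
  exact (Finset.finite_toSet _).subset this

/-- If characters separate points and `Y` is a subgroup of the character group with torsion
quotient then the annihilator of `Y` is totally disconnected. -/
theorem ann_td (hsep : ∀ c : C, c ≠ 1 → ∃ χ : C →ₜ* Circle, χ c ≠ 1)
    {Y : Subgroup (C →ₜ* Circle)} (hY : ∀ χ : C →ₜ* Circle, ∃ n : ℕ, 0 < n ∧ χ ^ n ∈ Y) :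
    IsTotallyDisconnected (ann Y : Set C) := by
  intro t htY ht a ha b hb
  by_contra hne
  have hne' : a⁻¹ * b ≠ 1 := fun h1 => hne (inv_mul_eq_one.1 h1)
  obtain ⟨χ, hχ⟩ := hsep _ hne'
  obtain ⟨n, hn, hχn⟩ := hY χ
  let f : C → ℂ := fun p => (χ (a⁻¹ * p) : ℂ)
  have hf : Continuous f :=
    circle_continuous_coe.comp ((map_continuous χ).comp (by fun_prop))
  have himg : IsPreconnected (f '' t) := ht.image f hf.continuousOn
  have hsub : f '' t ⊆ {z : ℂ | z ^ n = 1} := by
    rintro _ ⟨p, hp, rfl⟩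
    have h1 : a⁻¹ * p ∈ ann Y := (ann Y).mul_mem ((ann Y).inv_mem (htY ha)) (htY hp)
    have h2 := h1 _ hχn
    rw [ContinuousMonoidHom.pow_apply] at h2
    show (χ (a⁻¹ * p) : ℂ) ^ n = 1
    rw [← Circle.coe_pow, h2, Circle.coe_one]
  have htd := (finite_roots n hn).countable.isTotallyDisconnected
  have hss := htd _ hsub himg
  have h3 := hss (mem_image_of_mem f ha) (mem_image_of_mem f hb)
  simp only [f, inv_mul_cancel, map_one, Circle.coe_one] at h3
  exact hχ (Circle.ext h3.symm)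

end TD

variable {K : Type u} [Group K] [TopologicalSpace K] [IsTopologicalGroup K] [CompactSpace K]
  [T2Space K] {G : Subgroup K}

/-- A subgroup of exponent two of a compact group is totally disconnected. -/
theorem Ctx.td_of_exponent_two (h : Ctx G) {P : Subgroup K} (hPsq : ∀ a ∈ P, a * a = 1) :
    IsTotallyDisconnected (P : Set K) := by
  intro t htP ht a ha b hb
  by_contra hne
  have hne' : a⁻¹ * b ≠ 1 := by
    intro h1; exact hne (inv_mul_eq_one.1 h1)
  obtain ⟨V, hV, hVO⟩ := h.pw {a⁻¹ * b}ᶜ (isOpen_compl_singleton.mem_nhds hne'.symm)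
  obtain ⟨A, _, _, _, ρ, hρ, hρV⟩ := hV
  have hρne : ρ (a⁻¹ * b) ≠ 1 := fun h1 => hVO ((hρV _).1 h1) rfl
  let f : K → ℝ := fun p => ‖ρ (a⁻¹ * p) - 1‖
  have hf : Continuous f := by fun_prop
  have hfa : f a = 0 := by simp only [f, inv_mul_cancel, map_one, sub_self, norm_zero]
  have hval : ∀ p ∈ t, f p = 0 ∨ 1 / 2 < f p := by
    intro p hp
    by_contra hcon2
    push Not at hcon2
    have hsq := hPsq _ (P.mul_mem (P.inv_mem (htP ha)) (htP hp))
    have h1 := sq_sub_one_ge hcon2.2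
    rw [← map_mul, hsq, map_one, sub_self, norm_zero] at h1
    have h2 : 0 ≤ f p := norm_nonneg _
    exact hcon2.1 (le_antisymm (by linarith) h2)
  have hfb : 1 / 2 < f b := by
    rcases hval b hb with h1 | h1
    · exact absurd (sub_eq_zero.1 (norm_eq_zero.1 h1)) hρne
    · exact h1
  have himg := ht.image f hf.continuousOn
  have h14 : (1 / 4 : ℝ) ∈ f '' t := by
    apply himg.ordConnected.out (mem_image_of_mem f ha) (mem_image_of_mem f hb)
    rw [hfa]
    exact ⟨by norm_num, by linarith⟩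
  obtain ⟨p, hp, hp4⟩ := h14
  rcases hval p hp with h1 | h1
  · rw [hp4] at h1; norm_num at h1
  · rw [hp4] at h1; norm_num at h1

section Action

variable (C : Subgroup K) [C.Normal]

/-- Conjugation by `k⁻¹` on a normal subgroup. -/
def cj (k : K) : C →ₜ* C where
  toFun c := ⟨k⁻¹ * c * k, by
    have := ‹C.Normal›.conj_mem c c.2 k⁻¹
    rwa [inv_inv] at this⟩
  map_one' := by ext; simp
  map_mul' a b := by ext; simp [mul_assoc]
  continuous_toFun := by fun_prop

theorem cj_coe (k : K) (c : C) : ((cj C k c : C) : K) = k⁻¹ * c * k := rfl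

/-- The action on characters. -/
@[reducible] noncomputable def charAction : DistribMulAction K (Additive (C →ₜ* Circle)) where
  smul k x := Additive.ofMul (x.toMul.comp (cj C k))
  one_smul x := by
    apply Additive.toMul.injective
    apply ContinuousMonoidHom.ext
    intro c
    show x.toMul (cj C 1 c) = x.toMul c
    congr 1; ext; simp [cj_coe]
  mul_smul g k x := by
    apply Additive.toMul.injective
    apply ContinuousMonoidHom.ext
    intro c
    show x.toMul (cj C (g * k) c) = x.toMul (cj C k (cj C g c))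
    congr 1; ext; simp [cj_coe, mul_assoc]
  smul_zero k := by
    apply Additive.toMul.injective
    apply ContinuousMonoidHom.ext
    intro c
    rfl
  smul_add k x y := by
    apply Additive.toMul.injective
    apply ContinuousMonoidHom.ext
    intro c
    rfl

theorem charAction_apply (k : K) (x : Additive (C →ₜ* Circle)) (c : C) :
    letI := charAction C
    (k • x).toMul c = x.toMul (cj C k c) := rfl

theorem finite_orbit (hC : IsClosed (C : Set K)) (x : Additive (C →ₜ* Circle)) :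
    letI := charAction C
    (MulAction.orbit K x).Finite := by
  letI := charAction C
  haveI : CompactSpace C := isCompact_iff_compactSpace.1 hC.isCompact
  let χ : C →ₜ* Circle := x.toMul
  have hev : ∀ᶠ k in 𝓝 (1 : K), ∀ c ∈ (univ : Set C),
      ‖(χ (cj C k c) : ℂ) - (χ c : ℂ)‖ < 1 / 2 := by
    apply isCompact_univ.eventually_forall_of_forall_eventually
    intro c _
    have hcont : Continuous fun p : K × C => ‖(χ (cj C p.1 p.2) : ℂ) - (χ p.2 : ℂ)‖ := by
      have h1 : Continuous fun p : K × C => cj C p.1 p.2 := by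
        apply Continuous.subtype_mk
        fun_prop
      have h2 : Continuous fun p : K × C => (χ (cj C p.1 p.2) : ℂ) :=
        circle_continuous_coe.comp ((map_continuous χ).comp h1)
      have h3 : Continuous fun p : K × C => (χ p.2 : ℂ) :=
        circle_continuous_coe.comp ((map_continuous χ).comp continuous_snd)
      exact (h2.sub h3).norm
    have h0 : ‖(χ (cj C (1 : K) c) : ℂ) - (χ c : ℂ)‖ = 0 := by
      have : cj C (1 : K) c = c := by ext; simp [cj_coe]
      rw [this, sub_self, norm_zero]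
    have := hcont.continuousAt (x := ((1 : K), c))
    exact this.eventually_lt continuousAt_const (by
      show ‖(χ (cj C (1 : K) c) : ℂ) - (χ c : ℂ)‖ < 1 / 2
      rw [h0]; norm_num)
  have hfix : ∀ k : K, (∀ c ∈ (univ : Set C), ‖(χ (cj C k c) : ℂ) - (χ c : ℂ)‖ < 1 / 2) →
      k ∈ MulAction.stabilizer K x := by
    intro k hk
    rw [MulAction.mem_stabilizer_iff]
    apply Additive.toMul.injective
    apply ContinuousMonoidHom.ext
    intro c
    rw [charAction_apply]
    show χ (cj C k c) = χ c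
    have h1 : ((χ (cj C k c) * (χ c)⁻¹ : Circle) : ℂ) = 1 := by
      apply nss (A := ℂ)
      intro n
      have h2 := (hk (c ^ n) (mem_univ _)).le
      have h3 : ((χ (cj C k c) * (χ c)⁻¹ : Circle) : ℂ) ^ n - 1 =
          ((χ (cj C k (c ^ n)) : ℂ) - (χ (c ^ n) : ℂ)) * ((χ (c ^ n))⁻¹ : Circle) := by
        rw [sub_mul, ← Circle.coe_mul, ← Circle.coe_mul, mul_inv_cancel, Circle.coe_one,
          ← Circle.coe_pow, map_pow, map_pow, map_pow, mul_pow, inv_pow]
      rw [h3, norm_mul, Circle.norm_coe, mul_one]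
      exact h2
    have h2 : χ (cj C k c) * (χ c)⁻¹ = 1 := Circle.ext h1
    exact mul_inv_eq_one.1 h2
  have hopen : IsOpen (MulAction.stabilizer K x : Set K) := by
    apply Subgroup.isOpen_of_mem_nhds (g := 1)
    filter_upwards [hev] with k hk
    exact hfix k hk
  haveI : Finite (K ⧸ MulAction.stabilizer K x) := Subgroup.quotient_finite_of_isOpen _ hopen
  haveI : Finite (MulAction.orbit K x) :=
    Finite.of_equiv _ (MulAction.orbitEquivQuotientStabilizer K x).symm
  exact Set.toFinite _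

end Action

theorem Ctx.exists_involution_of_infinite_abelian (h : Ctx G) {C : Subgroup K}
    (hC : IsClosed (C : Set K)) (hCn : C.Normal)
    (hsep : ∀ c : C, c ≠ 1 → ∃ χ : C →ₜ* Circle, χ c ≠ 1) (hinf : Infinite C) :
    ∃ x ∈ C, x ≠ 1 ∧ x * x = 1 := by
  letI := charAction C
  haveI : CompactSpace C := isCompact_iff_compactSpace.1 hC.isCompact
  have horb : ∀ x : Additive (C →ₜ* Circle), (MulAction.orbit K x).Finite :=
    fun x => finite_orbit C hC x
  -- the annihilator of a subgroup with torsion quotient, as a subgroup of K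
  have hfin : ∀ Y : Subgroup (C →ₜ* Circle), (∀ χ : C →ₜ* Circle, ∃ n : ℕ, 0 < n ∧ χ ^ n ∈ Y) →
      (∀ k : K, ∀ χ ∈ Y, χ.comp (cj C k) ∈ Y) → Finite (ann Y) := by
    intro Y hY hYinv
    let N : Subgroup K := (ann Y).map C.subtype
    have hNcoe : (N : Set K) = (Subtype.val : C → K) '' (ann Y : Set C) := rfl
    have hNc : IsClosed (N : Set K) := by
      rw [hNcoe]
      exact (hC.isClosedEmbedding_subtypeVal.isClosedMap) _ (isClosed_ann Y)
    have hNtd : IsTotallyDisconnected (N : Set K) := by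
      rw [hNcoe, Topology.IsEmbedding.subtypeVal.isTotallyDisconnected_image]
      exact ann_td hsep hY
    have hNn : N.Normal := by
      refine ⟨?_⟩
      rintro _ ⟨c, hc, rfl⟩ k
      refine ⟨⟨k * c * k⁻¹, hCn.conj_mem c c.2 k⟩, ?_, rfl⟩
      intro ψ hψ
      have h1 := hc _ (hYinv k⁻¹ ψ hψ)
      have h2 : (ψ.comp (cj C k⁻¹)) c = ψ ⟨k * c * k⁻¹, hCn.conj_mem c c.2 k⟩ := by
        show ψ (cj C k⁻¹ c) = _
        congr 1; ext; simp [cj_coe]
      rw [← h2]; exact h1
    haveI : Finite N := h.finite_of_td hNc hNn hNtd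
    exact Finite.of_injective (fun c : ann Y => (⟨(c : C), ⟨c, c.2, rfl⟩⟩ : N)) (by
      intro a b hab
      have : ((a : C) : K) = ((b : C) : K) := congrArg (fun q : N => (q : K)) hab
      exact Subtype.ext (Subtype.ext this))
  -- a character of infinite order
  obtain ⟨χ₀, hχ₀⟩ : ∃ χ₀ : C →ₜ* Circle, ∀ n : ℕ, 0 < n → χ₀ ^ n ≠ 1 := by
    by_contra hcon
    push Not at hcon
    have h1 : Finite (ann (⊥ : Subgroup (C →ₜ* Circle))) := by
      apply hfin
      · intro χ
        obtain ⟨n, hn, hn'⟩ := hcon χ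
        exact ⟨n, hn, by rw [hn']; exact Subgroup.one_mem _⟩
      · intro k χ hχ
        rw [Subgroup.mem_bot] at hχ ⊢
        rw [hχ]
        rfl
    have h2 : ∀ c : C, c ∈ ann (⊥ : Subgroup (C →ₜ* Circle)) := by
      intro c ψ hψ
      rw [Subgroup.mem_bot] at hψ
      rw [hψ]; rfl
    have h3 : Finite C := Finite.of_injective (fun c : C =>
      (⟨c, h2 c⟩ : ann (⊥ : Subgroup (C →ₜ* Circle)))) (by
        intro a b hab
        exact congrArg Subtype.val hab)
    exact not_finite C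
  let x₀ : Additive (C →ₜ* Circle) := Additive.ofMul χ₀
  have hx₀ : ∀ n : ℕ, 0 < n → n • x₀ ≠ 0 := by
    intro n hn h0
    apply hχ₀ n hn
    exact h0
  obtain ⟨hZinv, hZfg⟩ := orbit_closure (Γ := K) x₀ (horb x₀)
  set Z := AddSubgroup.closure (MulAction.orbit K x₀) with hZdef
  have hx₀Z : x₀ ∈ Z := AddSubgroup.subset_closure (MulAction.mem_orbit_self x₀)
  obtain ⟨Y, hYinv, hYtor, hYZ⟩ := exists_almost_compl (Γ := K) horb Z hZinv
  obtain ⟨z, hzZ, hz⟩ := exists_notMem_sup_dbl hZfg hYtor hx₀Z hx₀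
  have hdblinv : Inv K (dbl Z) := by
    rintro g _ ⟨w, hw, rfl⟩
    exact ⟨g • w, hZinv g w hw, by rw [smul_comm]⟩
  let Y' : Subgroup (C →ₜ* Circle) :=
    { carrier := {χ | Additive.ofMul χ ∈ Y ⊔ dbl Z}
      one_mem' := (Y ⊔ dbl Z).zero_mem
      mul_mem' := fun ha hb => (Y ⊔ dbl Z).add_mem ha hb
      inv_mem' := fun ha => (Y ⊔ dbl Z).neg_mem ha }
  have hY'mem : ∀ χ, χ ∈ Y' ↔ Additive.ofMul χ ∈ Y ⊔ dbl Z := fun χ => Iff.rfl
  have hY'tor : ∀ χ : C →ₜ* Circle, ∃ n : ℕ, 0 < n ∧ χ ^ n ∈ Y' := by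
    intro χ
    obtain ⟨n, hn, hmem⟩ := hYZ (Additive.ofMul χ)
    refine ⟨2 * n, by positivity, ?_⟩
    rw [hY'mem]
    have h1 : Additive.ofMul (χ ^ (2 * n)) = 2 • (n • Additive.ofMul χ) := by
      rw [ofMul_pow, mul_nsmul']
    rw [h1]
    obtain ⟨y, hy, w, hw, hyw⟩ := AddSubgroup.mem_sup.1 hmem
    rw [← hyw, smul_add]
    exact AddSubgroup.add_mem_sup (Y.nsmul_mem hy 2) ⟨w, hw, rfl⟩
  have hY'inv : ∀ k : K, ∀ χ ∈ Y', χ.comp (cj C k) ∈ Y' := by
    intro k χ hχ
    exact (hYinv.sup hdblinv) k _ hχ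
  haveI : Finite (ann Y') := hfin Y' hY'tor hY'inv
  obtain ⟨c, hc, hzc⟩ := exists_ann_ne Y' z.toMul (fun hmem => hz hmem)
  have hz2 : (z.toMul c) ^ 2 = 1 := by
    have h1 : (z.toMul ^ 2 : C →ₜ* Circle) ∈ Y' := by
      rw [hY'mem]
      exact (le_sup_right : dbl Z ≤ Y ⊔ dbl Z) ⟨z, hzZ, rfl⟩
    have h2 := hc _ h1
    rwa [ContinuousMonoidHom.pow_apply] at h2
  -- order of c is even
  let c' : ann Y' := ⟨c, hc⟩
  have hord : 0 < orderOf c' := orderOf_pos c'
  have hcord : orderOf c' = orderOf c := by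
    exact (orderOf_injective (ann Y').subtype (Subgroup.subtype_injective _) c').symm
  have heven : Even (orderOf c) := by
    by_contra hodd
    rw [Nat.not_even_iff_odd] at hodd
    obtain ⟨m, hm⟩ := hodd
    apply hzc
    have h1 : (z.toMul c) ^ (orderOf c) = 1 := by
      rw [← map_pow, pow_orderOf_eq_one, map_one]
    rw [hm, pow_succ, pow_mul, hz2, one_pow, one_mul] at h1
    exact h1
  obtain ⟨m, hm⟩ := heven
  have hmpos : 0 < m := by omega
  refine ⟨((c ^ m : C) : K), (c ^ m).2, ?_, ?_⟩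
  · intro h1
    have h2 : c ^ m = 1 := Subtype.ext h1
    have h3 := Nat.le_of_dvd hmpos (orderOf_dvd_of_pow_eq_one h2)
    omega
  · rw [← Subgroup.coe_mul, ← pow_add, ← hm, pow_orderOf_eq_one]
    rfl

theorem Ctx.exists_kernel_abelian (h : Ctx G)
    (hsep : ∀ C : Subgroup K, IsClosed (C : Set K) → (∀ a ∈ C, ∀ b ∈ C, a * b = b * a) →
      ∀ c : C, c ≠ 1 → ∃ χ : C →ₜ* Circle, χ c ≠ 1)
    {B : Subgroup K} (hBn : B.Normal) (hBc : IsClosed (B : Set K))
    (hBab : ∀ a ∈ B, ∀ b ∈ B, a * b = b * a) : ∃ W : Subgroup K, IsRepKernel W ∧ W ⊓ B = ⊥ := by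
  let B2 : Subgroup K :=
    { carrier := {b | b ∈ B ∧ b * b = 1}
      one_mem' := ⟨B.one_mem, by simp⟩
      mul_mem' := by
        rintro a b ⟨ha, ha2⟩ ⟨hb, hb2⟩
        refine ⟨B.mul_mem ha hb, ?_⟩
        calc a * b * (a * b) = a * (b * a) * b := by group
          _ = a * (a * b) * b := by rw [hBab a ha b hb]
          _ = (a * a) * (b * b) := by group
          _ = 1 := by rw [ha2, hb2, one_mul]
      inv_mem' := by
        rintro a ⟨ha, ha2⟩
        exact ⟨B.inv_mem ha, by rw [← mul_inv_rev, ha2, inv_one]⟩ }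
  have hB2c : IsClosed (B2 : Set K) :=
    hBc.inter (isClosed_eq (by fun_prop : Continuous fun b : K => b * b) continuous_const)
  have hB2n : B2.Normal := by
    refine ⟨?_⟩
    rintro b ⟨hb, hb2⟩ k
    refine ⟨hBn.conj_mem b hb k, ?_⟩
    calc k * b * k⁻¹ * (k * b * k⁻¹) = k * (b * b) * k⁻¹ := by group
      _ = 1 := by rw [hb2]; group
  haveI : Finite B2 := h.finite_of_td hB2c hB2n (h.td_of_exponent_two fun a ha => ha.2)
  obtain ⟨U, hU, hUB2⟩ := h.exists_kernel_avoiding (F := (B2 : Set K)) (Set.toFinite _)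
  have hUn := hU.normal
  have hBU : Finite (B ⊓ U : Subgroup K) := by
    by_contra hinf
    rw [not_finite_iff_infinite] at hinf
    have hcl : IsClosed ((B ⊓ U : Subgroup K) : Set K) := hBc.inter hU.isClosed
    have hn : (B ⊓ U).Normal := inferInstance
    obtain ⟨x, ⟨hxB, hxU⟩, hx1, hxx⟩ := h.exists_involution_of_infinite_abelian hcl hn
      (hsep _ hcl (fun a ha b hb => hBab a ha.1 b hb.1)) hinf
    exact hx1 (hUB2 x hxU ⟨hxB, hxx⟩)
  obtain ⟨V, hV, hVB⟩ := h.exists_kernel_avoiding (F := ((B ⊓ U : Subgroup K) : Set K))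
    (Set.toFinite _)
  refine ⟨U ⊓ V, hU.inf hV, ?_⟩
  rw [eq_bot_iff]
  rintro x ⟨⟨hxU, hxV⟩, hxB⟩
  exact hVB x hxV ⟨hxB, hxU⟩

end Pool.Agent.Work.MP_87c52b_gt
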