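import Mathlib

/-!
Algebraic lemma: invariant almost complements in abelian groups with a group action with finite
orbits.
-/

open Set

universe u v

set_option linter.unusedSectionVars false
set_option linter.unusedSimpArgs false
set_option linter.style.haveILetI false

namespace Pool.Agent.Work.MP_87c52b_gt

section Lattice

variable {O : Type u} [Fintype O] [DecidableEq O]

/-- If a subgroup of `ℤ^O` does not have full rank there is a nonzero integer vector orthogonal
to it. -/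
theorem exists_orth_vector (R : AddSubgroup (O → ℤ)) (v : O → ℤ)
    (hv : ∀ n : ℕ, 0 < n → n • v ∉ R) :
    ∃ e : O → ℤ, e ≠ 0 ∧ ∀ d ∈ R, ∑ i, d i * e i = 0 := by
  let cst : (O → ℤ) → (O → ℚ) := fun d i => (d i : ℚ)
  let RQ : Submodule ℚ (O → ℚ) := Submodule.span ℚ (cst '' (R : Set (O → ℤ)))
  have hRQ : ∀ x ∈ RQ, ∃ n : ℕ, 0 < n ∧ ∃ d ∈ R, cst d = (n : ℚ) • x := by
    intro x hx
    induction hx using Submodule.span_induction with
    | mem x hx =>
      obtain ⟨d, hd, rfl⟩ := hx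
      exact ⟨1, one_pos, d, hd, by simp⟩
    | zero => exact ⟨1, one_pos, 0, R.zero_mem, by ext i; simp [cst]⟩
    | add x y _ _ ihx ihy =>
      obtain ⟨n, hn, d, hd, hdx⟩ := ihx
      obtain ⟨m, hm, e, he, hey⟩ := ihy
      refine ⟨n * m, Nat.mul_pos hn hm, m • d + n • e,
        R.add_mem (R.nsmul_mem hd m) (R.nsmul_mem he n), ?_⟩
      ext i
      have h1 : (d i : ℚ) = n * x i := congrFun hdx i
      have h2 : (e i : ℚ) = m * y i := congrFun hey i
      have h3 : (m • d + n • e) i = (m : ℤ) * d i + (n : ℤ) * e i := by simp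
      show (((m • d + n • e) i : ℤ) : ℚ) = ((n * m : ℕ) : ℚ) * (x i + y i)
      rw [h3]
      push_cast
      rw [h1, h2]; ring
    | smul a x _ ihx =>
      obtain ⟨n, hn, d, hd, hdx⟩ := ihx
      refine ⟨n * a.den, Nat.mul_pos hn a.den_pos, a.num • d, R.zsmul_mem hd _, ?_⟩
      ext i
      have h1 : (d i : ℚ) = n * x i := congrFun hdx i
      have h3 : (a.num • d) i = a.num * d i := by simp
      show (((a.num • d) i : ℤ) : ℚ) = ((n * a.den : ℕ) : ℚ) * (a * x i)
      rw [h3]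
      push_cast
      rw [h1]
      have h2 : (a.den : ℚ) * a = a.num := by
        rw [mul_comm]; exact Rat.mul_den_eq_num a
      rw [← h2]; ring
  have hne : RQ ≠ ⊤ := by
    intro htop
    obtain ⟨n, hn, d, hd, hdv⟩ := hRQ (cst v) (by rw [htop]; trivial)
    apply hv n hn
    have : n • v = d := by
      ext i
      have h1 : (d i : ℚ) = n * (v i : ℚ) := congrFun hdv i
      have h2 : (d i : ℤ) = n * v i := by exact_mod_cast h1
      simp [h2]
    rw [this]; exact hd
  obtain ⟨f, hf0, hf⟩ := Submodule.exists_le_ker_of_lt_top RQ (lt_top_iff_ne_top.2 hne)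
  -- clear denominators
  let q : O → ℚ := fun i => f (Pi.single i 1)
  have hfq : ∀ x : O → ℚ, f x = ∑ i, x i * q i := by
    intro x
    have hx : x = ∑ i, x i • (Pi.single i (1 : ℚ) : O → ℚ) := by
      ext j
      simp [Finset.sum_apply, Pi.single_apply]
    conv_lhs => rw [hx]
    simp [map_sum, q]
  let D : ℕ := ∏ i, (q i).den
  have hD : 0 < D := Finset.prod_pos fun i _ => (q i).den_pos
  have hint : ∀ i, ∃ z : ℤ, (z : ℚ) = D * q i := by
    intro i
    obtain ⟨c, hc⟩ : (q i).den ∣ D := Finset.dvd_prod_of_mem _ (Finset.mem_univ i)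
    refine ⟨c * (q i).num, ?_⟩
    rw [hc]; push_cast
    have h2 : ((q i).den : ℚ) * q i = (q i).num := by
      rw [mul_comm]; exact Rat.mul_den_eq_num _
    rw [← h2]; ring
  choose e he using hint
  refine ⟨e, ?_, ?_⟩
  · intro he0
    apply hf0
    ext x
    rw [LinearMap.comp_apply, LinearMap.single_apply, LinearMap.zero_comp, LinearMap.zero_apply]
    have h1 : (D : ℚ) * q x = 0 := by rw [← he, he0]; simp
    rcases mul_eq_zero.1 h1 with h | h
    · exact absurd h (by exact_mod_cast hD.ne')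
    · exact h
  · intro d hd
    have h1 : f (cst d) = 0 := hf (Submodule.subset_span ⟨d, hd, rfl⟩)
    rw [hfq] at h1
    have h2 : ((∑ i, d i * e i : ℤ) : ℚ) = D * ∑ i, (d i : ℚ) * q i := by
      push_cast
      rw [Finset.mul_sum]
      refine Finset.sum_congr rfl fun i _ => ?_
      rw [he]; ring
    have h3 : ((∑ i, d i * e i : ℤ) : ℚ) = 0 := by rw [h2]; simp only [cst] at h1; rw [h1, mul_zero]
    exact_mod_cast h3

end Lattice

variable {Γ : Type u} {X : Type v} [Group Γ] [AddCommGroup X] [DistribMulAction Γ X]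

/-- An invariant subgroup. -/
def Inv (Γ : Type u) [Group Γ] [DistribMulAction Γ X] (Y : AddSubgroup X) : Prop :=
  ∀ g : Γ, ∀ y ∈ Y, g • y ∈ Y

theorem Inv.sup {Y Z : AddSubgroup X} (hY : Inv Γ Y) (hZ : Inv Γ Z) : Inv Γ (Y ⊔ Z) := by
  intro g x hx
  obtain ⟨y, hy, z, hz, rfl⟩ := AddSubgroup.mem_sup.1 hx
  rw [smul_add]
  exact AddSubgroup.add_mem_sup (hY g y hy) (hZ g z hz)

theorem exists_almost_compl (horb : ∀ x : X, (MulAction.orbit Γ x).Finite) (Z : AddSubgroup X)
    (hZ : Inv Γ Z) :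
    ∃ Y : AddSubgroup X, Inv Γ Y ∧ (∀ y ∈ Y, y ∈ Z → ∃ n : ℕ, 0 < n ∧ n • y = 0) ∧
      ∀ x : X, ∃ n : ℕ, 0 < n ∧ n • x ∈ Y ⊔ Z := by
  let S : Set (AddSubgroup X) := {Y | Inv Γ Y ∧ ∀ y ∈ Y, y ∈ Z → ∃ n : ℕ, 0 < n ∧ n • y = 0}
  have hzorn : ∃ Y, Maximal (fun Y => Y ∈ S) Y := by
    apply zorn_le₀
    intro c hcS hc
    rcases c.eq_empty_or_nonempty with rfl | hne
    · refine ⟨⊥, ⟨?_, ?_⟩, by simp⟩
      · intro g y hy
        rw [AddSubgroup.mem_bot] at hy ⊢
        rw [hy, smul_zero]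
      · intro y hy _
        rw [AddSubgroup.mem_bot] at hy
        exact ⟨1, one_pos, by rw [hy, smul_zero]⟩
    · have hmem : ∀ x, x ∈ sSup c ↔ ∃ B ∈ c, x ∈ B :=
        fun x => AddSubgroup.mem_sSup_of_directedOn hne hc.directedOn
      refine ⟨sSup c, ⟨?_, ?_⟩, fun B hB => le_sSup hB⟩
      · intro g y hy
        obtain ⟨B, hB, hyB⟩ := (hmem y).1 hy
        exact (hmem _).2 ⟨B, hB, (hcS hB).1 g y hyB⟩
      · intro y hy hyZ
        obtain ⟨B, hB, hyB⟩ := (hmem y).1 hy
        exact (hcS hB).2 y hyB hyZ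
  obtain ⟨Y, ⟨hYinv, hYtor⟩, hYmax⟩ := hzorn
  refine ⟨Y, hYinv, hYtor, fun x => ?_⟩
  by_contra hcon
  push Not at hcon
  classical
  haveI : Fintype (MulAction.orbit Γ x) := (horb x).fintype
  set O := MulAction.orbit Γ x with hO
  let φ : (O → ℤ) →+ X :=
    { toFun := fun d => ∑ y, d y • (y : X)
      map_zero' := by simp
      map_add' := by intro d e; simp [add_smul, Finset.sum_add_distrib] }
  have hφ : ∀ d, φ d = ∑ y, d y • (y : X) := fun d => rfl
  -- the permutation action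
  let perm : Γ → (O → ℤ) → (O → ℤ) := fun g d y => d (g⁻¹ • y)
  have hperm : ∀ g d, g • φ d = φ (perm g d) := by
    intro g d
    rw [hφ, hφ, Finset.smul_sum]
    refine Fintype.sum_equiv (MulAction.toPerm g : Equiv.Perm O) _ _ fun y => ?_
    simp only [perm, MulAction.toPerm_apply, inv_smul_smul]
    rw [smul_comm]
    rfl
  let R : AddSubgroup (O → ℤ) := (Y ⊔ Z).comap φ
  have hR : ∀ d, d ∈ R ↔ φ d ∈ Y ⊔ Z := fun d => Iff.rfl
  have hRperm : ∀ g, ∀ d ∈ R, perm g d ∈ R := by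
    intro g d hd
    rw [hR, ← hperm]
    exact (hYinv.sup hZ) g _ hd
  let x₀ : O := ⟨x, MulAction.mem_orbit_self x⟩
  have hφsingle : φ (Pi.single x₀ 1) = x := by
    rw [hφ, Finset.sum_eq_single x₀]
    · simp [x₀]
    · intro b _ hb; simp [Pi.single_eq_of_ne hb]
    · simp
  have hfull : ∀ n : ℕ, 0 < n → n • (Pi.single x₀ 1 : O → ℤ) ∉ R := by
    intro n hn h
    rw [hR, map_nsmul, hφsingle] at h
    exact hcon n hn h
  obtain ⟨e, he0, he⟩ := exists_orth_vector R _ hfull
  let E : AddSubgroup (O → ℤ) :=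
    { carrier := {e | ∀ d ∈ R, ∑ i, d i * e i = 0}
      zero_mem' := by intro d _; simp
      add_mem' := by
        intro a b ha hb d hd
        simp only [Pi.add_apply, mul_add, Finset.sum_add_distrib, ha d hd, hb d hd, add_zero]
      neg_mem' := by
        intro a ha d hd
        simp only [Pi.neg_apply, mul_neg, Finset.sum_neg_distrib, ha d hd, neg_zero] }
  have hEperm : ∀ g, ∀ e ∈ E, perm g e ∈ E := by
    intro g e he d hd
    have h1 := he (perm g⁻¹ d) (hRperm g⁻¹ d hd)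
    rw [← h1]
    refine Fintype.sum_equiv (MulAction.toPerm g⁻¹ : Equiv.Perm O) _ _ fun y => ?_
    simp [perm]
  have hER : ∀ e ∈ E, e ∈ R → e = 0 := by
    intro e he heR
    have h1 := he e heR
    ext i
    have h2 : ∀ i ∈ Finset.univ, 0 ≤ e i * e i := fun i _ => mul_self_nonneg _
    have h3 := (Finset.sum_eq_zero_iff_of_nonneg h2).1 h1 i (Finset.mem_univ i)
    simpa using h3
  let W : AddSubgroup X := E.map φ
  have hWinv : Inv Γ W := by
    rintro g _ ⟨d, hd, rfl⟩
    exact ⟨perm g d, hEperm g d hd, (hperm g d).symm⟩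
  have hYW : Y ⊔ W ∈ S := by
    refine ⟨hYinv.sup hWinv, ?_⟩
    intro z hz hzZ
    obtain ⟨y, hy, w, ⟨d, hd, rfl⟩, rfl⟩ := AddSubgroup.mem_sup.1 hz
    have h1 : φ d ∈ Y ⊔ Z := by
      have : φ d = -y + (y + φ d) := by abel
      rw [this]
      exact AddSubgroup.add_mem_sup (Y.neg_mem hy) hzZ
    have h2 : d = 0 := hER d hd h1
    rw [h2, map_zero, add_zero] at hzZ ⊢
    exact hYtor y hy hzZ
  have hWY : W ≤ Y := le_sup_right.trans (hYmax hYW le_sup_left)
  apply he0
  apply hER e he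
  rw [hR]
  exact (le_sup_left : Y ≤ Y ⊔ Z) (hWY ⟨e, he, rfl⟩)

end Pool.Agent.Work.MP_87c52b_gt
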