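import Pool.Agent.Work.MP_87c52b_gt.Ctx

/-!
The chain argument.
-/

open scoped Topology
open Filter Set NormedSpace

universe u v w

set_option linter.unusedSectionVars false
set_option linter.unusedSimpArgs false
set_option linter.style.haveILetI false

namespace Pool.Agent.Work.MP_87c52b_gt

variable {K : Type u} [Group K] [TopologicalSpace K] [IsTopologicalGroup K] [CompactSpace K]
  [T2Space K] {G : Subgroup K}

/-- No nontrivial closed abelian normal subgroup of `K` is contained in `W`. -/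
def NoAb (W : Subgroup K) : Prop :=
  ∀ B : Subgroup K, B.Normal → IsClosed (B : Set K) →
    (∀ a ∈ B, ∀ b ∈ B, a * b = b * a) → B ≤ W → B = ⊥

theorem NoAb.centralizer_inf {W U : Subgroup K} (hW : NoAb W) (hUW : U ≤ W) (hU : U.Normal)
    (hUc : IsClosed (U : Set K)) : Subgroup.centralizer (U : Set K) ⊓ U = ⊥ := by
  haveI := hU
  apply hW
  · infer_instance
  · exact (isClosed_subgroup_centralizer _).inter hUc
  · rintro a ⟨_, ha⟩ b ⟨hb, _⟩
    exact Subgroup.mem_centralizer_iff.1 hb a ha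
  · exact inf_le_right.trans hUW

theorem Ctx.infinite_piece (h : Ctx G) {W U V : Subgroup K} (hW : NoAb W) (hUW : U ≤ W)
    (hV : IsRepKernel V) (hVU : V ≤ U) (hidx : V.relIndex U = 0) :
    Infinite (Subgroup.centralizer (V : Set K) ⊓ U : Subgroup K) := by
  have hVn := hV.normal
  by_contra hfin
  rw [not_infinite_iff_finite] at hfin
  set M : Subgroup K := Subgroup.centralizer (V : Set K) ⊓ U with hM
  obtain ⟨O, hO, hprod⟩ := exists_centralizer_prod h.pw hV
  let J : Subgroup K := V ⊔ Subgroup.centralizer (V : Set K)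
  have hJopen : IsOpen (J : Set K) := by
    apply Subgroup.isOpen_of_mem_nhds (g := 1)
    refine mem_of_superset hO ?_
    intro x hx
    obtain ⟨u, hu, c, hc, rfl⟩ := hprod x hx
    exact Subgroup.mul_mem_sup hu hc
  have hJfin : Finite (K ⧸ J) := J.quotient_finite_of_isOpen hJopen
  have hJfi : J.FiniteIndex := Subgroup.finiteIndex_of_finite_quotient
  have hJidx : J.relIndex U ≠ 0 := by
    intro h0
    exact hJfi.index_ne_zero (J.relIndex_top_right.symm.trans
      (Subgroup.relIndex_eq_zero_of_le_right le_top h0))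
  have hJU : J ⊓ U = V ⊔ M := by
    apply le_antisymm
    · rintro x ⟨hxJ, hxU⟩
      have h2 : x ∈ ((V ⊔ Subgroup.centralizer (V : Set K) : Subgroup K) : Set K) := hxJ
      rw [Subgroup.normal_mul] at h2
      obtain ⟨v, hv, c, hc, rfl⟩ := h2
      refine Subgroup.mul_mem_sup hv ⟨hc, ?_⟩
      have : c = v⁻¹ * (v * c) := by group
      rw [this]
      exact U.mul_mem (U.inv_mem (hVU hv)) hxU
    · rw [sup_le_iff]
      exact ⟨le_inf le_sup_left hVU, le_inf (inf_le_left.trans le_sup_right) inf_le_right⟩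
  have h1 : V.relIndex (J ⊓ U) ≠ 0 := by
    rw [hJU, Subgroup.relIndex_sup_left, ← Subgroup.inf_relIndex_right]
    have hbot : V ⊓ M = ⊥ := by
      rw [eq_bot_iff, ← hW.centralizer_inf (hVU.trans hUW) hVn hV.isClosed]
      rintro x ⟨hxV, hxC, _⟩
      exact ⟨hxC, hxV⟩
    rw [hbot, Subgroup.relIndex_bot_left]
    exact Nat.card_pos.ne'
  have h2 : V.relIndex (J ⊓ U) * (J ⊓ U).relIndex U = V.relIndex U :=
    Subgroup.relIndex_mul_relIndex _ _ _ (by rw [hJU]; exact le_sup_left) inf_le_right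
  rw [Subgroup.inf_relIndex_right, hidx] at h2
  exact (mul_ne_zero h1 hJidx) h2

theorem Ctx.exists_stable (h : Ctx G) {W : Subgroup K} (hWk : IsRepKernel W) (hW : NoAb W) :
    ∃ U : Subgroup K, IsRepKernel U ∧ U ≤ W ∧
      ∀ V : Subgroup K, IsRepKernel V → V ≤ U → V.relIndex U ≠ 0 := by
  by_contra hcon
  push Not at hcon
  -- the chain
  let T := {U : Subgroup K // IsRepKernel U ∧ U ≤ W}
  have hstep : ∀ U : T, ∃ V : T, V.1 ≤ U.1 ∧ V.1.relIndex U.1 = 0 := by
    rintro ⟨U, hU, hUW⟩
    obtain ⟨V, hV, hVU, hidx⟩ := hcon U hU hUW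
    exact ⟨⟨V, hV, hVU.trans hUW⟩, hVU, hidx⟩
  choose next hnext1 hnext2 using hstep
  let U : ℕ → T := fun n => Nat.rec ⟨W, hWk, le_rfl⟩ (fun _ U => next U) n
  have hUsucc : ∀ n, U (n + 1) = next (U n) := fun n => rfl
  have hUle : ∀ n, (U (n + 1)).1 ≤ (U n).1 := fun n => by rw [hUsucc]; exact hnext1 _
  have hUidx : ∀ n, (U (n + 1)).1.relIndex (U n).1 = 0 := fun n => by
    rw [hUsucc]; exact hnext2 _
  have hanti : ∀ m n, m ≤ n → (U n).1 ≤ (U m).1 := by
    intro m n hmn
    induction n, hmn using Nat.le_induction with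
    | base => exact le_rfl
    | succ n _ ih => exact (hUle n).trans ih
  let M : ℕ → Subgroup K := fun n => Subgroup.centralizer ((U (n + 1)).1 : Set K) ⊓ (U n).1
  have hMU : ∀ n, M n ⊓ (U (n + 1)).1 = ⊥ := by
    intro n
    rw [eq_bot_iff, ← hW.centralizer_inf (U (n + 1)).2.2 (U (n + 1)).2.1.normal
      (U (n + 1)).2.1.isClosed]
    rintro x ⟨⟨hx1, _⟩, hx2⟩
    exact ⟨hx1, hx2⟩
  have hx : ∀ n, ∃ x ∈ M n, x ∈ G ∧ x ≠ 1 ∧ x * x = 1 := by
    intro n
    have hn1 := (U (n + 1)).2.1.normal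
    have hn2 := (U n).2.1.normal
    refine h.exists_involution_in (M := M n) (U := (U (n + 1)).1) ?_ ?_ (U (n + 1)).2.1 (hMU n)
      (h.infinite_piece hW (U n).2.2 (U (n + 1)).2.1 (hUle n) (hUidx n)) ?_
    · exact (isClosed_subgroup_centralizer _).inter (U n).2.1.isClosed
    · show (Subgroup.centralizer ((U (n + 1)).1 : Set K) ⊓ (U n).1).Normal
      infer_instance
    · intro B hBn hBc hBab hBM
      exact hW B hBn hBc hBab (hBM.trans (inf_le_right.trans (U n).2.2))
  choose x hxM hxG hx1 hxx using hx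
  have hxcomm' : ∀ m n, m < n → x m * x n = x n * x m := by
    intro m n hmn
    have h1 : x n ∈ (U (m + 1)).1 := hanti (m + 1) n hmn (hxM n).2
    exact (Subgroup.mem_centralizer_iff.1 (hxM m).1 (x n) h1).symm
  have hxcomm : ∀ m n, x m * x n = x n * x m := by
    intro m n
    rcases lt_trichotomy m n with hlt | rfl | hgt
    · exact hxcomm' m n hlt
    · rfl
    · exact (hxcomm' n m hgt).symm
  have hxinj : Function.Injective x := by
    have key : ∀ m n, m < n → x m ≠ x n := by
      intro m n hmn heq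
      have h1 : x n ∈ (U (m + 1)).1 := hanti (m + 1) n hmn (hxM n).2
      have h2 : x m ∈ M m ⊓ (U (m + 1)).1 := ⟨hxM m, by rw [heq]; exact h1⟩
      rw [hMU m] at h2
      exact hx1 m h2
    intro m n heq
    rcases lt_trichotomy m n with hlt | h | hgt
    · exact absurd heq (key m n hlt)
    · exact h
    · exact absurd heq.symm (key n m hgt)
  -- the closed subgroup generated
  let P₀ : Subgroup K := Subgroup.closure (range x)
  have hP₀1 : ∀ a ∈ P₀, ∀ n, a * x n = x n * a := by
    intro a ha n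
    induction ha using Subgroup.closure_induction with
    | mem y hy => obtain ⟨m, rfl⟩ := hy; exact hxcomm m n
    | one => simp
    | mul a b _ _ iha ihb => rw [mul_assoc, ihb, ← mul_assoc, iha, mul_assoc]
    | inv a _ iha =>
      calc a⁻¹ * x n = a⁻¹ * (x n * a) * a⁻¹ := by group
        _ = a⁻¹ * (a * x n) * a⁻¹ := by rw [iha]
        _ = x n * a⁻¹ := by group
  have hP₀2 : ∀ a ∈ P₀, ∀ b ∈ P₀, a * b = b * a := by
    intro a ha b hb
    induction hb using Subgroup.closure_induction with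
    | mem y hy => obtain ⟨m, rfl⟩ := hy; exact hP₀1 a ha m
    | one => simp
    | mul c d _ _ ihc ihd => rw [← mul_assoc, ihc, mul_assoc, ihd, mul_assoc]
    | inv c _ ihc =>
      calc a * c⁻¹ = c⁻¹ * (c * a) * c⁻¹ := by group
        _ = c⁻¹ * (a * c) * c⁻¹ := by rw [ihc]
        _ = c⁻¹ * a := by group
  have hP₀3 : ∀ a ∈ P₀, a * a = 1 := by
    intro a ha
    induction ha using Subgroup.closure_induction with
    | mem y hy => obtain ⟨m, rfl⟩ := hy; exact hxx m
    | one => simp
    | mul a b ha hb iha ihb =>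
      calc a * b * (a * b) = a * (b * a) * b := by group
        _ = a * (a * b) * b := by rw [hP₀2 a ha b hb]
        _ = (a * a) * (b * b) := by group
        _ = 1 := by rw [iha, ihb, one_mul]
    | inv a _ iha => rw [← mul_inv_rev, iha, inv_one]
  let P : Subgroup K := P₀.topologicalClosure
  have hPc : IsClosed (P : Set K) := P₀.isClosed_topologicalClosure
  have hPsq : ∀ a ∈ P, a * a = 1 := by
    have hcl : IsClosed {a : K | a * a = 1} := isClosed_eq (by fun_prop) (by fun_prop)
    exact fun a ha => closure_minimal (fun a ha => hP₀3 a ha) hcl ha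
  have hPtd : IsTotallyDisconnected (P : Set K) := by
    intro t htP ht a ha b hb
    by_contra hne
    have hne' : a⁻¹ * b ≠ 1 := by
      intro h1; exact hne (inv_mul_eq_one.1 h1)
    obtain ⟨V, hV, hVO⟩ := h.pw {a⁻¹ * b}ᶜ (isOpen_compl_singleton.mem_nhds hne'.symm)
    obtain ⟨A, _, _, _, ρ, hρ, hρV⟩ := hV
    have hρne : ρ (a⁻¹ * b) ≠ 1 := fun h1 => hVO ((hρV _).1 h1) rfl
    let f : K → ℝ := fun p => ‖ρ (a⁻¹ * p) - 1‖
    have hf : Continuous f := by fun_prop
    have hfa : f a = 0 := by simp only [f, inv_mul_cancel, map_one, sub_self, norm_zero]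
    have hval : ∀ p ∈ t, f p = 0 ∨ 1 / 2 < f p := by
      intro p hp
      by_contra hcon2
      push Not at hcon2
      have hsq := hPsq _ (P.mul_mem (P.inv_mem (htP ha)) (htP hp))
      have h1 := sq_sub_one_ge hcon2.2
      rw [← map_mul, hsq, map_one, sub_self, norm_zero] at h1
      have h2 : 0 ≤ f p := norm_nonneg _
      exact hcon2.1 (le_antisymm (by linarith) h2)
    have hfb : 1 / 2 < f b := by
      rcases hval b hb with h1 | h1
      · exact absurd (sub_eq_zero.1 (norm_eq_zero.1 h1)) hρne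
      · exact h1
    have himg := ht.image f hf.continuousOn
    have h14 : (1 / 4 : ℝ) ∈ f '' t := by
      apply himg.ordConnected.out (mem_image_of_mem f ha) (mem_image_of_mem f hb)
      rw [hfa]
      exact ⟨by norm_num, by linarith⟩
    obtain ⟨p, hp, hp4⟩ := h14
    rcases hval p hp with h1 | h1
    · rw [hp4] at h1; norm_num at h1
    · rw [hp4] at h1; norm_num at h1
  have hfin := h.zd P hPc hPtd
  have hinf : ((P : Set K) ∩ G).Infinite := by
    refine infinite_of_injective_forall_mem hxinj fun n => ⟨?_, hxG n⟩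
    exact P₀.le_topologicalClosure (Subgroup.subset_closure (mem_range_self n))
  exact hinf hfin

theorem Ctx.bot_isRepKernel_of_noAb (h : Ctx G) {W : Subgroup K} (hWk : IsRepKernel W)
    (hW : NoAb W) : IsRepKernel (⊥ : Subgroup K) := by
  obtain ⟨U, hU, hUW, hfin⟩ := h.exists_stable hWk hW
  have hUn := hU.normal
  haveI : CompactSpace U := isCompact_iff_compactSpace.1 hU.isClosed.isCompact
  have hclopen : ∀ a b : U, a ≠ b → ∃ C : Set U, IsClopen C ∧ a ∈ C ∧ b ∈ Cᶜ := by
    intro a b hne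
    have hne' : (a⁻¹ * b : U) ≠ 1 := by
      intro h1; exact hne (inv_mul_eq_one.1 h1)
    have hne'' : ((a⁻¹ * b : U) : K) ≠ 1 := fun h1 => hne' (Subtype.ext h1)
    obtain ⟨V, hV, hVO⟩ := h.pw {((a⁻¹ * b : U) : K)}ᶜ
      (isOpen_compl_singleton.mem_nhds hne''.symm)
    have hidx := hfin (V ⊓ U) (hV.inf hU) inf_le_right
    let V' : Subgroup U := (V ⊓ U).subgroupOf U
    have hV'cl : IsClosed (V' : Set U) :=
      (hV.isClosed.inter hU.isClosed).preimage continuous_subtype_val
    haveI : V'.FiniteIndex := ⟨hidx⟩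
    have hV'op : IsOpen (V' : Set U) := V'.isOpen_of_isClosed_of_finiteIndex hV'cl
    refine ⟨(fun u : U => a⁻¹ * u) ⁻¹' (V' : Set U), ⟨hV'cl.preimage (by fun_prop),
      hV'op.preimage (by fun_prop)⟩, ?_, ?_⟩
    · simp
    · intro hb
      have h1 : (((a⁻¹ * b : U) : K)) ∈ V := (Subgroup.mem_subgroupOf.1 hb).1
      exact hVO h1 rfl
  have htd : IsTotallyDisconnected (U : Set K) := by
    rw [← totallyDisconnectedSpace_subtype_iff]
    have hsep : TotallySeparatedSpace U := by
      rw [totallySeparatedSpace_iff_exists_isClopen]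
      intro a b hne
      exact hclopen a b hne
    infer_instance
  haveI : Finite U := h.finite_of_td hU.isClosed hUn htd
  obtain ⟨V, hV, hVU⟩ := h.exists_kernel_avoiding (F := (U : Set K)) (Set.toFinite _)
  have : U ⊓ V = ⊥ := by
    rw [eq_bot_iff]
    rintro x ⟨hxU, hxV⟩
    exact hVU x hxV hxU
  rw [← this]
  exact hU.inf hV

/-- The final reduction: it suffices to show that closed abelian normal subgroups are met
trivially by some representation kernel. -/
theorem Ctx.bot_isRepKernel (h : Ctx G)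
    (hB : ∀ B : Subgroup K, B.Normal → IsClosed (B : Set K) →
      (∀ a ∈ B, ∀ b ∈ B, a * b = b * a) → ∃ W : Subgroup K, IsRepKernel W ∧ W ⊓ B = ⊥) :
    IsRepKernel (⊥ : Subgroup K) := by
  -- a maximal closed abelian normal subgroup
  let S : Set (Subgroup K) := {B | B.Normal ∧ IsClosed (B : Set K) ∧
    ∀ a ∈ B, ∀ b ∈ B, a * b = b * a}
  have hzorn : ∃ A, Maximal (fun B => B ∈ S) A := by
    apply zorn_le₀
    intro c hcS hc
    rcases c.eq_empty_or_nonempty with rfl | hne
    · exact ⟨⊥, ⟨inferInstance, by simp, by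
        intro a ha b hb
        rw [Subgroup.mem_bot] at ha hb
        rw [ha, hb]⟩, by simp⟩
    · have hdir : DirectedOn (· ≤ ·) c := hc.directedOn
      have hmem : ∀ x, x ∈ sSup c ↔ ∃ B ∈ c, x ∈ B :=
        fun x => Subgroup.mem_sSup_of_directedOn hne hdir
      have hcomm : ∀ a ∈ sSup c, ∀ b ∈ sSup c, a * b = b * a := by
        intro a ha b hb
        obtain ⟨B, hB, haB⟩ := (hmem a).1 ha
        obtain ⟨B', hB', hbB'⟩ := (hmem b).1 hb
        obtain ⟨B'', hB'', h1, h2⟩ := hdir B hB B' hB'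
        exact (hcS hB'').2.2 a (h1 haB) b (h2 hbB')
      have hnormal : (sSup c).Normal := by
        refine ⟨fun n hn g => ?_⟩
        obtain ⟨B, hB, hnB⟩ := (hmem n).1 hn
        exact (hmem _).2 ⟨B, hB, (hcS hB).1.conj_mem n hnB g⟩
      refine ⟨(sSup c).topologicalClosure, ⟨?_, ?_, ?_⟩, ?_⟩
      · exact Subgroup.is_normal_topologicalClosure _
      · exact Subgroup.isClosed_topologicalClosure _
      · exact comm_topologicalClosure hcomm
      · intro B hB
        exact (le_sSup hB).trans (Subgroup.le_topologicalClosure _)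
  obtain ⟨A, ⟨hAn, hAc, hAab⟩, hAmax⟩ := hzorn
  obtain ⟨W, hW, hWA⟩ := hB A hAn hAc hAab
  have hWn := hW.normal
  apply h.bot_isRepKernel_of_noAb hW
  intro B hBn hBc hBab hBW
  have hBA : B ⊓ A = ⊥ := by
    rw [eq_bot_iff, ← hWA]
    exact inf_le_inf_right _ hBW
  have hcommAB : ∀ a ∈ A, ∀ b ∈ B, a * b = b * a := by
    intro a ha b hb
    have h1 : a * b * a⁻¹ * b⁻¹ ∈ B ⊓ A := by
      refine ⟨B.mul_mem (hBn.conj_mem b hb a) (B.inv_mem hb), ?_⟩
      have : a * b * a⁻¹ * b⁻¹ = a * (b * a⁻¹ * b⁻¹) := by group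
      rw [this]
      exact A.mul_mem ha (hAn.conj_mem _ (A.inv_mem ha) b)
    rw [hBA] at h1
    have h2 : a * b * a⁻¹ * b⁻¹ = 1 := h1
    exact mul_inv_eq_iff_eq_mul.1 (mul_inv_eq_one.1 h2)
  have hsup : A ⊔ B ∈ S := by
    refine ⟨inferInstance, ?_, ?_⟩
    · rw [Subgroup.normal_mul]
      exact (hAc.isCompact.mul hBc.isCompact).isClosed
    · intro x hx y hy
      have hx' : x ∈ ((A ⊔ B : Subgroup K) : Set K) := hx
      have hy' : y ∈ ((A ⊔ B : Subgroup K) : Set K) := hy
      rw [Subgroup.normal_mul] at hx' hy'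
      obtain ⟨a, ha, b, hb, rfl⟩ := hx'
      obtain ⟨a', ha', b', hb', rfl⟩ := hy'
      simp only
      calc a * b * (a' * b') = a * (b * a') * b' := by group
        _ = a * (a' * b) * b' := by rw [← hcommAB a' ha' b hb]
        _ = (a * a') * (b * b') := by group
        _ = (a' * a) * (b' * b) := by rw [hAab a ha a' ha', hBab b hb b' hb']
        _ = a' * (a * b') * b := by group
        _ = a' * (b' * a) * b := by rw [hcommAB a ha b' hb']
        _ = a' * b' * (a * b) := by group
  have hle : A ⊔ B ≤ A := hAmax hsup le_sup_left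
  have hBle : B ≤ A := le_sup_right.trans hle
  rw [eq_bot_iff, ← hBA]
  exact le_inf le_rfl hBle

end Pool.Agent.Work.MP_87c52b_gt
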