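import Pool.Agent.Work.MP_87c52b_gt.Precompact

/-!
The Weil completion of a pseudocompact group is a compact group.
-/

open scoped Topology Pointwise Uniformity
open Filter Set Topology

universe u v

set_option linter.unusedSectionVars false
set_option linter.unusedSimpArgs false
set_option linter.style.haveILetI false

namespace Pool.Agent.Work.MP_87c52b_gt

/-- The completion of a pseudocompact group. -/
theorem exists_compact_completion (G : Type u) [Group G] [TopologicalSpace G]
    [IsTopologicalGroup G] [T2Space G] (hG : Pseudocompact G) :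
    ∃ (K : Type u) (_ : Group K) (_ : TopologicalSpace K) (_ : IsTopologicalGroup K)
      (_ : CompactSpace K) (_ : T2Space K) (ι : G →* K), IsEmbedding ι ∧ DenseRange ι := by
  have hcov : ∀ V ∈ 𝓝 (1 : G), ∃ F : Set G, F.Finite ∧ ∀ x : G, ∃ g ∈ F, g⁻¹ * x ∈ V :=
    fun V hV => finite_cover_of_pseudocompact hG hV
  letI us : UniformSpace G := IsTopologicalGroup.rightUniformSpace G
  haveI : IsRightUniformGroup G := ⟨rfl⟩
  haveI : IsLeftUniformGroup G := by
    refine ⟨?_⟩
    change comap (fun p : G × G => p.2 * p.1⁻¹) (𝓝 1) = _
    apply le_antisymm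
    · rintro S ⟨V, hV, hVS⟩
      obtain ⟨W, hW, hWV⟩ := sin_of_cover hcov hV
      refine ⟨W, hW, ?_⟩
      rintro ⟨x, y⟩ hxy
      apply hVS
      have := hWV x⁻¹ _ hxy
      show x⁻¹ * y ∈ V
      convert this using 1
      group
    · rintro S ⟨V, hV, hVS⟩
      obtain ⟨W, hW, hWV⟩ := sin_of_cover hcov hV
      refine ⟨W, hW, ?_⟩
      rintro ⟨x, y⟩ hxy
      apply hVS
      have := hWV x _ hxy
      show y * x⁻¹ ∈ V
      convert this using 1
      group
  haveI : IsUniformGroup G := IsUniformGroup.of_left_right
  have htb : TotallyBounded (univ : Set G) := by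
    rw [totallyBounded_iff_subset_finite_iUnion_nhds_one]
    intro U hU
    obtain ⟨F, hF, hFc⟩ := hcov U hU
    refine ⟨F, hF, fun x _ => ?_⟩
    obtain ⟨g, hg, hx⟩ := hFc x
    exact mem_iUnion₂.2 ⟨g, hg, mem_smul_set_iff_inv_smul_mem.2 hx⟩
  have htb' : TotallyBounded (univ : Set (Additive G)) := htb
  haveI hua : IsUniformAddGroup (Additive G) := ⟨uniformContinuous_div (α := G)⟩
  haveI ht0 : T0Space (Additive G) := (inferInstance : T0Space G)
  have hcomp : CompactSpace (UniformSpace.Completion (Additive G)) := by
    rw [← isCompact_univ_iff, isCompact_iff_totallyBounded_isComplete]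
    refine ⟨?_, completeSpace_iff_isComplete_univ.1 inferInstance⟩
    have h1 := htb'.image (UniformSpace.Completion.uniformContinuous_coe (Additive G))
    have h2 := h1.closure
    rw [image_univ, UniformSpace.Completion.denseRange_coe.closure_range] at h2
    exact h2
  let ι : G →* Multiplicative (UniformSpace.Completion (Additive G)) :=
    AddMonoidHom.toMultiplicativeRight (UniformSpace.Completion.toCompl (α := Additive G))
  refine ⟨Multiplicative (UniformSpace.Completion (Additive G)), inferInstance, inferInstance,
    inferInstance, ?_, ?_, ι, ?_, ?_⟩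
  · exact hcomp
  · exact (inferInstance : T2Space (UniformSpace.Completion (Additive G)))
  · exact UniformSpace.Completion.isUniformEmbedding_coe (Additive G) |>.isEmbedding
  · exact UniformSpace.Completion.denseRange_coe (α := Additive G)

end Pool.Agent.Work.MP_87c52b_gt
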