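import Pool.Agent.Work.MP_87c52b_gt.NormalPart

/-!
The abstract situation: a dense subgroup `G` of a compact group `K`, essential, surjecting on the
Lie quotients, and meeting each closed totally disconnected subgroup in a finite set.
-/

open scoped Topology
open Filter Set NormedSpace

universe u v w

set_option linter.unusedSectionVars false
set_option linter.unusedSimpArgs false
set_option linter.style.haveILetI false

namespace Pool.Agent.Work.MP_87c52b_gt

variable {K : Type u} [Group K] [TopologicalSpace K] [IsTopologicalGroup K] [CompactSpace K]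
  [T2Space K] {G : Subgroup K}

/-- The abstract situation. -/
structure Ctx (G : Subgroup K) : Prop where
  dense : Dense (G : Set K)
  ess : ∀ N : Subgroup K, N.Normal → IsClosed (N : Set K) → N ≠ ⊥ → ∃ x ∈ N, x ∈ G ∧ x ≠ 1
  surj : ∀ U : Subgroup K, IsRepKernel U → ∀ k : K, ∃ g ∈ G, g⁻¹ * k ∈ U
  zd : ∀ P : Subgroup K, IsClosed (P : Set K) → IsTotallyDisconnected (P : Set K) →
    ((P : Set K) ∩ G).Finite
  pw : ∀ O ∈ 𝓝 (1 : K), ∃ U : Subgroup K, IsRepKernel U ∧ (U : Set K) ⊆ O

theorem normal_of_dense (hD : Dense (G : Set K)) {C : Subgroup K} (hC : IsClosed (C : Set K))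
    (h : ∀ g ∈ G, ∀ c ∈ C, g * c * g⁻¹ ∈ C) : C.Normal := by
  refine ⟨fun c hc k => ?_⟩
  have hcl : IsClosed {k : K | k * c * k⁻¹ ∈ C} := hC.preimage (by fun_prop)
  have : closure (G : Set K) ⊆ {k : K | k * c * k⁻¹ ∈ C} :=
    closure_minimal (fun g hg => h g hg c hc) hcl
  exact this (hD k)

theorem isClosed_subgroup_centralizer (H : Set K) :
    IsClosed (Subgroup.centralizer H : Set K) := by
  have : (Subgroup.centralizer H : Set K) = Set.centralizer H := rfl
  rw [this]; exact Set.isClosed_centralizer _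

theorem comm_topologicalClosure {H : Subgroup K} (h : ∀ a ∈ H, ∀ b ∈ H, a * b = b * a) :
    ∀ a ∈ H.topologicalClosure, ∀ b ∈ H.topologicalClosure, a * b = b * a := by
  have h1 : ∀ a ∈ H, ∀ b ∈ H.topologicalClosure, a * b = b * a := by
    intro a ha
    have hcl : IsClosed {b : K | a * b = b * a} := isClosed_eq (by fun_prop) (by fun_prop)
    exact fun b hb => closure_minimal (fun b hb => h a ha b hb) hcl hb
  intro a ha b hb
  have hcl : IsClosed {a : K | a * b = b * a} := isClosed_eq (by fun_prop) (by fun_prop)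
  exact closure_minimal (fun a ha => h1 a ha b hb) hcl ha

theorem Ctx.exists_involution_in (h : Ctx G) {M U : Subgroup K} (hM : IsClosed (M : Set K))
    (hMn : M.Normal) (hU : IsRepKernel U) (hMU : M ⊓ U = ⊥) (hinf : Infinite M)
    (hab : ∀ B : Subgroup K, B.Normal → IsClosed (B : Set K) →
      (∀ a ∈ B, ∀ b ∈ B, a * b = b * a) → B ≤ M → B = ⊥) :
    ∃ x ∈ M, x ∈ G ∧ x ≠ 1 ∧ x * x = 1 := by
  obtain ⟨A, _, _, _, ρ, hρ, hρU⟩ := id hU
  have hUn := hU.normal
  have hinj : ∀ m ∈ M, ρ m = 1 → m = 1 := by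
    intro m hm hm1
    have : m ∈ M ⊓ U := ⟨hm, (hρU m).1 hm1⟩
    rw [hMU] at this
    exact this
  let H : Subgroup K := G ⊓ M
  have hcommUM : ∀ u ∈ U, ∀ m ∈ M, u * m = m * u := by
    intro u hu m hm
    have h1 : u * m * u⁻¹ * m⁻¹ ∈ M ⊓ U := by
      refine ⟨M.mul_mem (hMn.conj_mem m hm u) (M.inv_mem hm), ?_⟩
      have : u * m * u⁻¹ * m⁻¹ = u * (m * u⁻¹ * m⁻¹) := by group
      rw [this]
      exact U.mul_mem hu (hUn.conj_mem _ (U.inv_mem hu) m)
    rw [hMU] at h1
    have h2 : u * m * u⁻¹ * m⁻¹ = 1 := h1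
    exact mul_inv_eq_iff_eq_mul.1 (mul_inv_eq_one.1 h2)
  have hnorm : ∀ m ∈ M, ∀ x ∈ H, m * x * m⁻¹ ∈ H := by
    rintro m hm x ⟨hxG, hxM⟩
    obtain ⟨g, hg, hu⟩ := h.surj U hU m
    refine ⟨?_, hMn.conj_mem x hxM m⟩
    have h1 : m * x * m⁻¹ = g * x * g⁻¹ := by
      set u := g⁻¹ * m with hudef
      have hm' : m = g * u := by rw [hudef]; group
      have h2 := hcommUM u hu x hxM
      rw [hm']
      calc g * u * x * (g * u)⁻¹ = g * (u * x) * u⁻¹ * g⁻¹ := by group
        _ = g * (x * u) * u⁻¹ * g⁻¹ := by rw [h2]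
        _ = g * x * g⁻¹ := by group
    rw [h1]
    exact G.mul_mem (G.mul_mem hg hxG) (G.inv_mem hg)
  have hHG : ∀ g ∈ G, ∀ x ∈ H, g * x * g⁻¹ ∈ H := by
    rintro g hg x ⟨hxG, hxM⟩
    exact ⟨G.mul_mem (G.mul_mem hg hxG) (G.inv_mem hg), hMn.conj_mem x hxM g⟩
  -- conjugation by G preserves the centralizer of H
  have hcG : ∀ g ∈ G, ∀ c ∈ Subgroup.centralizer (H : Set K),
      g * c * g⁻¹ ∈ Subgroup.centralizer (H : Set K) := by
    intro g hg c hc
    rw [Subgroup.mem_centralizer_iff] at hc ⊢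
    intro x hx
    have h1 : g⁻¹ * x * g ∈ H := by
      have := hHG g⁻¹ (G.inv_mem hg) x hx
      rwa [inv_inv] at this
    have h2 := hc _ h1
    calc x * (g * c * g⁻¹) = g * ((g⁻¹ * x * g) * c) * g⁻¹ := by group
      _ = g * (c * (g⁻¹ * x * g)) * g⁻¹ := by rw [h2]
      _ = g * c * g⁻¹ * x := by group
  have hcent : ∀ c ∈ M, (∀ x ∈ H, c * x = x * c) → c = 1 := by
    let C : Subgroup K := Subgroup.centralizer (H : Set K) ⊓ M
    have hCcl : IsClosed (C : Set K) := (isClosed_subgroup_centralizer _).inter hM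
    have hCn : C.Normal := by
      refine normal_of_dense h.dense hCcl ?_
      rintro g hg c ⟨hc1, hc2⟩
      exact ⟨hcG g hg c hc1, hMn.conj_mem c hc2 g⟩
    have hC : C = ⊥ := by
      by_contra hne
      obtain ⟨y, ⟨hyc, hyM⟩, hyG, hy1⟩ := h.ess C hCn hCcl hne
      let Z : Subgroup K := H ⊓ Subgroup.centralizer (H : Set K)
      have hZcomm : ∀ a ∈ Z, ∀ b ∈ Z, a * b = b * a := by
        rintro a ⟨ha, _⟩ b ⟨_, hb⟩
        exact (Subgroup.mem_centralizer_iff.1 hb) a ha
      have hBn : Z.topologicalClosure.Normal := by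
        refine normal_of_dense h.dense Z.isClosed_topologicalClosure ?_
        intro g hg c hc
        have hcont : Continuous fun c : K => g * c * g⁻¹ := by fun_prop
        have hmaps : MapsTo (fun c : K => g * c * g⁻¹) (Z : Set K) (Z : Set K) := by
          rintro c ⟨hc1, hc2⟩
          exact ⟨hHG g hg c hc1, hcG g hg c hc2⟩
        exact hmaps.closure hcont hc
      have hBM : Z.topologicalClosure ≤ M :=
        Z.topologicalClosure_minimal (fun z hz => hz.1.2) hM
      have hB := hab _ hBn Z.isClosed_topologicalClosure (comm_topologicalClosure hZcomm) hBM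
      have hyZ : y ∈ Z.topologicalClosure := Z.le_topologicalClosure ⟨⟨hyG, hyM⟩, hyc⟩
      rw [hB] at hyZ
      exact hy1 hyZ
    intro c hcM hc
    have : c ∈ C := by
      refine ⟨?_, hcM⟩
      show c ∈ Subgroup.centralizer (H : Set K)
      rw [Subgroup.mem_centralizer_iff]
      exact fun x hx => (hc x hx).symm
    rw [hC] at this
    exact this
  obtain ⟨O, hO, hOH⟩ := open_of_centralizer_trivial hρ hM hMn hinj inf_le_right hnorm hcent
  -- pass to the compact group M
  haveI : CompactSpace M := isCompact_iff_compactSpace.1 hM.isCompact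
  let ρ' : M →* A := ρ.comp M.subtype
  have hρ' : Continuous ρ' := hρ.comp continuous_subtype_val
  have hinj' : Function.Injective ρ' := by
    rw [injective_iff_map_eq_one]
    intro a ha
    exact Subtype.ext (hinj a a.2 ha)
  have hopen : IsOpen ((H.subgroupOf M : Subgroup M) : Set M) := by
    apply Subgroup.isOpen_of_mem_nhds (g := 1)
    have h1 : (fun m : M => (m : K)) ⁻¹' O ∈ 𝓝 (1 : M) :=
      continuous_subtype_val.continuousAt.preimage_mem_nhds (by simpa using hO)
    refine mem_of_superset h1 ?_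
    intro m hm
    exact hOH m m.2 hm
  obtain ⟨x, hxH, hx1, hxx⟩ := exists_involution hρ' hinj' hopen
  refine ⟨x, x.2, ?_, ?_, ?_⟩
  · exact (Subgroup.mem_subgroupOf.1 hxH).1
  · intro hx; exact hx1 (Subtype.ext hx)
  · exact congrArg Subtype.val hxx

/-- Separation of finitely many points from `1` by a representation kernel. -/
theorem Ctx.exists_kernel_avoiding (h : Ctx G) {F : Set K} (hF : F.Finite) :
    ∃ V : Subgroup K, IsRepKernel V ∧ ∀ x ∈ V, x ∈ F → x = 1 := by
  have hF' : (F \ {1}).Finite := hF.subset sdiff_subset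
  have hO : (F \ {1})ᶜ ∈ 𝓝 (1 : K) := hF'.isClosed.isOpen_compl.mem_nhds (by simp)
  obtain ⟨V, hV, hVO⟩ := h.pw _ hO
  refine ⟨V, hV, fun x hx hxF => ?_⟩
  by_contra hne
  exact hVO hx ⟨hxF, hne⟩

theorem Ctx.finite_of_td (h : Ctx G) {N : Subgroup K} (hN : IsClosed (N : Set K))
    (hNn : N.Normal) (htd : IsTotallyDisconnected (N : Set K)) : Finite N := by
  obtain ⟨V, hV, hVN⟩ := h.exists_kernel_avoiding (h.zd N hN htd)
  have hVn := hV.normal
  have hVN' : V ⊓ N = ⊥ := by
    by_contra hne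
    have hcl : IsClosed ((V ⊓ N : Subgroup K) : Set K) := hV.isClosed.inter hN
    obtain ⟨x, ⟨hxV, hxN⟩, hxG, hx1⟩ := h.ess (V ⊓ N) inferInstance hcl hne
    exact hx1 (hVN x hxV ⟨hxN, hxG⟩)
  obtain ⟨O, hO, hOV⟩ := hV.exists_nss_nhds
  haveI : CompactSpace N := isCompact_iff_compactSpace.1 hN.isCompact
  haveI : TotallyDisconnectedSpace N := totallyDisconnectedSpace_subtype_iff.2 htd
  obtain ⟨O', hO'O, hO'open, h1O'⟩ := mem_nhds_iff.1 hO
  have hopen : IsOpen ((fun n : N => (n : K)) ⁻¹' O') := hO'open.preimage continuous_subtype_val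
  obtain ⟨H, hH⟩ := ProfiniteGrp.exist_openNormalSubgroup_sub_open_nhds_of_one hopen
    (by simpa using h1O')
  have hHbot : (H.toSubgroup : Subgroup N) = ⊥ := by
    rw [eq_bot_iff]
    intro x hx
    have h1 : (H.toSubgroup.map N.subtype : Subgroup K) ≤ V := by
      apply hOV
      rintro _ ⟨y, hy, rfl⟩
      exact hO'O (hH hy)
    have h2 : (x : K) ∈ V ⊓ N := ⟨h1 ⟨x, hx, rfl⟩, x.2⟩
    rw [hVN'] at h2
    exact Subtype.ext h2
  have hdisc : DiscreteTopology N := by
    apply discreteTopology_of_isOpen_singleton_one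
    have h3 : IsOpen (H.toSubgroup : Set N) := H.isOpen
    rw [hHbot] at h3
    simpa using h3
  exact finite_of_compact_of_discrete

end Pool.Agent.Work.MP_87c52b_gt
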