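import Mathlib

/-!
Definitions for MP_87c52b_gt (pseudocompact minimal groups with property Z are Lie groups).
-/

open scoped Manifold ContDiff Topology
open Filter Set

universe u

namespace Pool.Agent.Work.MP_87c52b_gt

/-- A space is pseudocompact if every continuous real-valued function on it is bounded. -/
def Pseudocompact (X : Type u) [TopologicalSpace X] : Prop :=
  ∀ f : X → ℝ, Continuous f → ∃ C : ℝ, ∀ x, |f x| ≤ C

/-- A space is zero-dimensional if it has a base of clopen sets. -/
def ZeroDimensional (X : Type u) [TopologicalSpace X] : Prop :=
  TopologicalSpace.IsTopologicalBasis {s : Set X | IsClopen s}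

/-- A Hausdorff topological group is minimal if every continuous isomorphism onto a Hausdorff
topological group is a topological isomorphism. -/
def MinimalGroup (G : Type u) [Group G] [TopologicalSpace G] : Prop :=
  ∀ (H : Type u) [Group H] [TopologicalSpace H] [IsTopologicalGroup H] [T2Space H]
    (f : G ≃* H), Continuous f → Continuous f.symm

/-- Property Z: every closed zero-dimensional subgroup is discrete. -/
def PropertyZ (G : Type u) [Group G] [TopologicalSpace G] : Prop :=
  ∀ S : Subgroup G, IsClosed (S : Set G) → ZeroDimensional S → DiscreteTopology S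

/-- A topological group is a Lie group if it admits a compatible real analytic manifold
structure (with analytic multiplication and inversion). -/
def IsLie (G : Type u) [Group G] [TopologicalSpace G] : Prop :=
  ∃ (n : ℕ) (_ : ChartedSpace (EuclideanSpace ℝ (Fin n)) G), LieGroup (𝓡 n) ω G

/-- `U` is the kernel of a continuous homomorphism into (the units of) a finite-dimensional real
normed algebra. -/
def IsRepKernel {K : Type u} [Group K] [TopologicalSpace K] (U : Subgroup K) : Prop :=
  ∃ (𝒜 : Type u) (_ : NormedRing 𝒜) (_ : NormedAlgebra ℝ 𝒜) (_ : FiniteDimensional ℝ 𝒜)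
    (ρ : K →* 𝒜), Continuous ρ ∧ ∀ g, ρ g = 1 ↔ g ∈ U

end Pool.Agent.Work.MP_87c52b_gt
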