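import Pool.Agent.Work.MP_87c52b_gt.LocalSurj

/-!
Invariant inner product on a finite-dimensional algebra for the conjugation action of a compact
group.
-/

open scoped Topology
open Filter Set NormedSpace MeasureTheory

universe u v

set_option linter.unusedSectionVars false
set_option linter.unusedSimpArgs false
set_option linter.style.haveILetI false

namespace Pool.Agent.Work.MP_87c52b_gt

variable {A : Type u} [NormedRing A] [NormedAlgebra ℝ A] [FiniteDimensional ℝ A]

theorem exists_invariant_form {L : Type v} [Group L] [TopologicalSpace L] [IsTopologicalGroup L]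
    [CompactSpace L] (ρ : L →* A) (hρ : Continuous ρ) :
    ∃ B : A →ₗ[ℝ] A →ₗ[ℝ] ℝ, (∀ X Y, B X Y = B Y X) ∧ (∀ X, X ≠ 0 → 0 < B X X) ∧
      ∀ (g : L) (X Y : A), B (ρ g * X * ρ g⁻¹) (ρ g * Y * ρ g⁻¹) = B X Y := by
  letI : MeasurableSpace L := borel L
  haveI : BorelSpace L := ⟨rfl⟩
  let μ : Measure L := Measure.haar
  let e : A ≃L[ℝ] EuclideanSpace ℝ (Fin (Module.finrank ℝ A)) := toEuclidean
  let F : A → A → L → ℝ := fun X Y g =>
    inner ℝ (e (ρ g⁻¹ * X * ρ g)) (e (ρ g⁻¹ * Y * ρ g))
  have hcont : ∀ X Y, Continuous (F X Y) := by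
    intro X Y
    have h1 : Continuous fun g : L => ρ g⁻¹ := hρ.comp continuous_inv
    have h2 : ∀ Z : A, Continuous fun g : L => e (ρ g⁻¹ * Z * ρ g) := fun Z =>
      e.continuous.comp ((h1.mul continuous_const).mul hρ)
    exact (h2 X).inner (h2 Y)
  have hint : ∀ X Y, Integrable (F X Y) μ := by
    intro X Y
    exact (hcont X Y).integrable_of_hasCompactSupport (HasCompactSupport.of_compactSpace _)
  let B : A →ₗ[ℝ] A →ₗ[ℝ] ℝ := LinearMap.mk₂ ℝ (fun X Y => ∫ g, F X Y g ∂μ)
    (by
      intro X X' Y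
      rw [← integral_add (hint X Y) (hint X' Y)]
      congr 1; ext g
      simp only [F, mul_add, add_mul, map_add, inner_add_left])
    (by
      intro c X Y
      rw [smul_eq_mul, ← integral_const_mul]
      congr 1; ext g
      simp only [F, mul_smul_comm, smul_mul_assoc, map_smul, inner_smul_left]
      simp)
    (by
      intro X Y Y'
      rw [← integral_add (hint X Y) (hint X Y')]
      congr 1; ext g
      simp only [F, mul_add, add_mul, map_add, inner_add_right])
    (by
      intro c X Y
      rw [smul_eq_mul, ← integral_const_mul]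
      congr 1; ext g
      simp only [F, mul_smul_comm, smul_mul_assoc, map_smul, inner_smul_right])
  have hB : ∀ X Y, B X Y = ∫ g, F X Y g ∂μ := fun X Y => rfl
  refine ⟨B, ?_, ?_, ?_⟩
  · intro X Y
    rw [hB, hB]
    congr 1; ext g
    exact real_inner_comm _ _
  · intro X hX
    rw [hB]
    have hpos : ∀ g, 0 < F X X g := by
      intro g
      have hne : e (ρ g⁻¹ * X * ρ g) ≠ 0 := by
        intro h0
        have h1 : ρ g⁻¹ * X * ρ g = 0 := by simpa using h0
        apply hX
        have h2 : ρ g * ρ g⁻¹ = 1 := by rw [← map_mul, mul_inv_cancel, map_one]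
        calc X = (ρ g * ρ g⁻¹) * X * (ρ g * ρ g⁻¹) := by rw [h2]; simp
          _ = ρ g * (ρ g⁻¹ * X * ρ g) * ρ g⁻¹ := by noncomm_ring
          _ = 0 := by rw [h1]; simp
      have := real_inner_self_pos.2 hne
      exact this
    have hsupp : 0 < ∫ g, F X X g ∂μ := by
      rw [integral_pos_iff_support_of_nonneg (fun g => (hpos g).le) (hint X X)]
      have : Function.support (F X X) = univ := by
        ext g; simp [(hpos g).ne']
      rw [this]
      exact isOpen_univ.measure_pos μ univ_nonempty
    exact hsupp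
  · intro g X Y
    rw [hB, hB]
    have : ∀ h : L, F (ρ g * X * ρ g⁻¹) (ρ g * Y * ρ g⁻¹) h = F X Y (g⁻¹ * h) := by
      intro h
      simp only [F]
      have key : ∀ Z : A, ρ h⁻¹ * (ρ g * Z * ρ g⁻¹) * ρ h
          = ρ (g⁻¹ * h)⁻¹ * Z * ρ (g⁻¹ * h) := by
        intro Z
        have h1 : ρ (g⁻¹ * h)⁻¹ = ρ h⁻¹ * ρ g := by
          rw [← map_mul]; congr 1; group
        rw [h1, map_mul]
        noncomm_ring
      rw [key X, key Y]
    simp_rw [this]
    exact integral_mul_left_eq_self (μ := μ) (F X Y) g⁻¹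

end Pool.Agent.Work.MP_87c52b_gt
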