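import Pool.Agent.Work.MP_87c52b_gt.Kernel

/-!
An open subgroup of an infinite compact linear group contains an involution.
-/

open scoped Topology
open Filter Set NormedSpace

universe u v

set_option linter.unusedSectionVars false
set_option linter.unusedSimpArgs false
set_option linter.style.haveILetI false

namespace Pool.Agent.Work.MP_87c52b_gt

variable {A : Type u} [NormedRing A] [NormedAlgebra ℝ A] [FiniteDimensional ℝ A]
variable {M : Type v} [Group M] [TopologicalSpace M] [IsTopologicalGroup M] [CompactSpace M]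
  [T2Space M]

theorem sq_sub_one_ge {x : A} (h : ‖x - 1‖ ≤ 1 / 2) : 3 / 2 * ‖x - 1‖ ≤ ‖x * x - 1‖ := by
  have h1 : x * x - 1 = (2 : ℝ) • (x - 1) + (x - 1) * (x - 1) := by
    rw [two_smul]; noncomm_ring
  have h3 : ‖(2 : ℝ) • (x - 1)‖ = 2 * ‖x - 1‖ := by rw [norm_smul]; norm_num
  have h4 : ‖(x - 1) * (x - 1)‖ ≤ 1 / 2 * ‖x - 1‖ :=
    (norm_mul_le _ _).trans (mul_le_mul_of_nonneg_right h (norm_nonneg _))
  have h5 : ‖(2 : ℝ) • (x - 1)‖ - ‖(x - 1) * (x - 1)‖ ≤ ‖x * x - 1‖ := by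
    rw [h1]
    have := norm_sub_le ((2 : ℝ) • (x - 1) + (x - 1) * (x - 1)) ((x - 1) * (x - 1))
    rw [add_sub_cancel_right] at this
    linarith
  linarith

/-- An infinite compact linear group has a nonzero Lie algebra. -/
theorem exists_lie_ne_zero {ρ : M →* A} (hρ : Continuous ρ) (hinj : Function.Injective ρ)
    [Infinite M] : ∃ X ∈ (cg_image hρ (R := (⊤ : Subgroup M)) (by simp)).lie, X ≠ 0 := by
  by_contra hcon
  push Not at hcon
  have hS := cg_image hρ (R := (⊤ : Subgroup M)) (by simp)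
  obtain ⟨O, hO, hOS⟩ := hS.exp_surj univ_mem
  have h1 : ∀ m ∈ ρ ⁻¹' O, m = 1 := by
    intro m hm
    obtain ⟨X, -, hX⟩ := hOS (ρ m) hm ⟨m, by simp, rfl⟩
    rw [hcon X X.2, exp_zero, ← map_one ρ] at hX
    exact (hinj hX).symm
  have h2 : ρ ⁻¹' O ∈ 𝓝 (1 : M) := hρ.continuousAt.preimage_mem_nhds (by rwa [map_one])
  have h3 : ({1} : Set M) ∈ 𝓝 (1 : M) := mem_of_superset h2 (fun m hm => h1 m hm)
  have hdisc : DiscreteTopology M := discreteTopology_of_isOpen_singleton_one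
    (isOpen_iff_mem_nhds.2 (by intro x hx; rw [mem_singleton_iff] at hx; rw [hx]; exact h3))
  have : Finite M := finite_of_compact_of_discrete
  exact not_finite M

theorem exists_involution {ρ : M →* A} (hρ : Continuous ρ) (hinj : Function.Injective ρ)
    [Infinite M] {H : Subgroup M} (hH : IsOpen (H : Set M)) : ∃ x ∈ H, x ≠ 1 ∧ x * x = 1 := by
  obtain ⟨X, hX, hX0⟩ := exists_lie_ne_zero hρ hinj
  have hS := cg_image hρ (R := (⊤ : Subgroup M)) (by simp)
  -- the one-parameter group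
  let B₀ : Subgroup M :=
    { carrier := {m | ∃ t : ℝ, ρ m = exp (t • X)}
      one_mem' := ⟨0, by simp⟩
      mul_mem' := by
        rintro a b ⟨s, hs⟩ ⟨t, ht⟩
        refine ⟨s + t, ?_⟩
        rw [map_mul, hs, ht, add_smul, exp_add_comm']
        exact (Commute.refl X).smul_left s |>.smul_right t
      inv_mem' := by
        rintro a ⟨s, hs⟩
        refine ⟨-s, ?_⟩
        have h1 : ρ a * exp ((-s) • X) = 1 := by rw [hs, neg_smul]; exact exp_mul_exp_neg _
        calc ρ a⁻¹ = ρ a⁻¹ * (ρ a * exp ((-s) • X)) := by rw [h1, mul_one]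
          _ = exp ((-s) • X) := by rw [← mul_assoc, map_inv_mul_map, one_mul] }
  have hroot : ∀ t : ℝ, ∃ m ∈ B₀, ρ m = exp (t • X) := by
    intro t
    obtain ⟨m, -, hm⟩ := hX t
    exact ⟨m, ⟨t, hm⟩, hm⟩
  have hexpn : ∀ (n : ℕ) (t : ℝ), 0 < n → exp ((t / n) • X) ^ n = exp (t • X) := by
    intro n t hn
    rw [← exp_nsmul']
    congr 1
    rw [← Nat.cast_smul_eq_nsmul ℝ, smul_smul]
    congr 1
    field_simp
  -- B₀ ≤ H
  have hB₀H : B₀ ≤ H := by
    rintro m ⟨t, ht⟩
    have hfin : Finite (M ⧸ H) := H.quotient_finite_of_isOpen hH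
    have hfi : H.FiniteIndex := Subgroup.finiteIndex_of_finite_quotient
    have hidx : H.index ≠ 0 := hfi.index_ne_zero
    set N : ℕ := Nat.factorial H.index with hN
    have hNpos : 0 < N := Nat.factorial_pos _
    obtain ⟨k, -, hk⟩ := hroot (t / N)
    obtain ⟨m', hm0, hmle, hm'⟩ := Subgroup.exists_pow_mem_of_index_ne_zero hidx k
    have hkN : k ^ N ∈ H := by
      obtain ⟨c, hc⟩ := Nat.dvd_factorial hm0 hmle
      rw [hN, hc, pow_mul]
      exact H.pow_mem hm' c
    have : k ^ N = m := by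
      apply hinj
      rw [map_pow, hk, hexpn N t hNpos, ht]
    rwa [← this]
  let B : Subgroup M := B₀.topologicalClosure
  have hBcl : IsClosed (B : Set M) := B₀.isClosed_topologicalClosure
  have hBH : B ≤ H := B₀.topologicalClosure_minimal hB₀H (H.isClosed_of_isOpen hH)
  have hB₀B : B₀ ≤ B := B₀.le_topologicalClosure
  -- commutativity
  have hcomm₀ : ∀ a ∈ B₀, ∀ b ∈ B₀, a * b = b * a := by
    rintro a ⟨s, hs⟩ b ⟨t, ht⟩
    apply hinj
    rw [map_mul, map_mul, hs, ht]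
    have : Commute (s • X) (t • X) := (Commute.refl X).smul_left s |>.smul_right t
    exact (this.exp).eq
  have hcomm : ∀ a ∈ B, ∀ b ∈ B, a * b = b * a := by
    have h1 : ∀ a ∈ B₀, ∀ b ∈ B, a * b = b * a := by
      intro a ha
      have hcl : IsClosed {b : M | a * b = b * a} := isClosed_eq (by fun_prop) (by fun_prop)
      exact fun b hb => closure_minimal (fun b hb => hcomm₀ a ha b hb) hcl hb
    intro a ha b hb
    have hcl : IsClosed {a : M | a * b = b * a} := isClosed_eq (by fun_prop) (by fun_prop)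
    exact closure_minimal (fun a ha => h1 a ha b hb) hcl ha
  by_contra hcon
  push Not at hcon
  have hnoinv : ∀ x ∈ B, x * x = 1 → x = 1 := by
    intro x hx hxx
    by_contra hne
    exact hcon x (hBH hx) hne hxx
  -- injectivity of squaring and of 2^n powers
  have hsq : ∀ a ∈ B, ∀ b ∈ B, a * a = b * b → a = b := by
    intro a ha b hb h
    have h1 : (a * b⁻¹) * (a * b⁻¹) = 1 := by
      have hc : b⁻¹ * a = a * b⁻¹ := by
        have := hcomm a ha b⁻¹ (B.inv_mem hb)
        exact this.symm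
      calc (a * b⁻¹) * (a * b⁻¹) = a * (b⁻¹ * a) * b⁻¹ := by group
        _ = a * (a * b⁻¹) * b⁻¹ := by rw [hc]
        _ = (a * a) * (b * b)⁻¹ := by group
        _ = 1 := by rw [h, mul_inv_cancel]
    have h2 := hnoinv _ (B.mul_mem ha (B.inv_mem hb)) h1
    exact mul_inv_eq_one.1 h2
  have hpow : ∀ n : ℕ, ∀ a ∈ B, ∀ b ∈ B, a ^ (2 ^ n) = b ^ (2 ^ n) → a = b := by
    intro n
    induction n with
    | zero => intro a _ b _ h; simpa using h
    | succ n ih =>
      intro a ha b hb h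
      rw [pow_succ, pow_mul, pow_mul, pow_two, pow_two] at h
      exact ih a ha b hb (hsq _ (B.pow_mem ha _) _ (B.pow_mem hb _) h)
  -- surjectivity of squaring
  have hsurj : ∀ b ∈ B, ∃ c ∈ B, c * c = b := by
    have hcpt : IsCompact ((fun c : M => c * c) '' (B : Set M)) :=
      hBcl.isCompact.image (by fun_prop)
    have hsub : (B₀ : Set M) ⊆ (fun c : M => c * c) '' (B : Set M) := by
      rintro m ⟨t, ht⟩
      obtain ⟨k, hk, hk'⟩ := hroot (t / 2)
      refine ⟨k, hB₀B hk, ?_⟩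
      apply hinj
      rw [map_mul, hk', ht, ← pow_two]
      exact_mod_cast hexpn 2 t (by norm_num)
    intro b hb
    obtain ⟨c, hc, hc'⟩ := closure_minimal hsub hcpt.isClosed hb
    exact ⟨c, hc, hc'⟩
  -- the radius
  have hr : ∃ r > 0, ∀ c ∈ B, ‖ρ (c * c) - 1‖ < r → ‖ρ c - 1‖ ≤ 1 / 2 := by
    have hcont : Continuous fun c : M => ‖ρ (c * c) - 1‖ := by fun_prop
    have hcont2 : Continuous fun c : M => ‖ρ c - 1‖ := by fun_prop
    have hK : IsCompact ((B : Set M) ∩ {c | 1 / 2 ≤ ‖ρ c - 1‖}) :=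
      (hBcl.inter (isClosed_le continuous_const hcont2)).isCompact
    rcases ((B : Set M) ∩ {c | 1 / 2 ≤ ‖ρ c - 1‖}).eq_empty_or_nonempty with he | hne
    · refine ⟨1, one_pos, fun c hc _ => ?_⟩
      by_contra hlt
      push Not at hlt
      have : c ∈ (B : Set M) ∩ {c | 1 / 2 ≤ ‖ρ c - 1‖} := ⟨hc, hlt.le⟩
      rw [he] at this
      exact this
    · obtain ⟨c₀, ⟨hc₀B, hc₀⟩, hmin⟩ := hK.exists_isMinOn hne hcont.continuousOn
      have hpos : 0 < ‖ρ (c₀ * c₀) - 1‖ := by
        rw [norm_pos_iff, sub_ne_zero]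
        intro h
        rw [← map_one ρ] at h
        have h2 := hnoinv c₀ hc₀B (hinj h)
        rw [h2] at hc₀
        simp only [mem_ofPred_eq, map_one, sub_self, norm_zero] at hc₀
        norm_num at hc₀
      refine ⟨_, hpos, fun c hc hlt => ?_⟩
      by_contra hlt'
      push Not at hlt'
      have := hmin ⟨hc, hlt'.le⟩
      simp only [mem_ofPred_eq] at this
      linarith
  obtain ⟨r, hr0, hr⟩ := hr
  -- roots of small elements
  have hsmall : ∀ n : ℕ, ∀ e ∈ B, ‖ρ e - 1‖ < r →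
      ∃ e' ∈ B, e' ^ (2 ^ n) = e ∧ ‖ρ e' - 1‖ ≤ (2 / 3) ^ n * ‖ρ e - 1‖ := by
    intro n
    induction n with
    | zero => intro e he _; exact ⟨e, he, by simp, by simp⟩
    | succ n ih =>
      intro e he her
      obtain ⟨e', he', hpow', hle⟩ := ih e he her
      obtain ⟨c, hc, hcc⟩ := hsurj e' he'
      refine ⟨c, hc, ?_, ?_⟩
      · rw [pow_succ, mul_comm, pow_mul, pow_two, hcc, hpow']
      · have h1 : ‖ρ e' - 1‖ < r := by
          refine lt_of_le_of_lt (hle.trans ?_) her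
          exact mul_le_of_le_one_left (norm_nonneg _) (pow_le_one₀ (by norm_num) (by norm_num))
        rw [← hcc] at h1
        have h2 := hr c hc h1
        have h3 := sq_sub_one_ge h2
        rw [← map_mul, hcc] at h3
        rw [pow_succ]
        have : ‖ρ c - 1‖ ≤ 2 / 3 * ‖ρ e' - 1‖ := by linarith
        calc ‖ρ c - 1‖ ≤ 2 / 3 * ‖ρ e' - 1‖ := this
          _ ≤ 2 / 3 * ((2 / 3) ^ n * ‖ρ e - 1‖) := by gcongr
          _ = (2 / 3) ^ n * (2 / 3) * ‖ρ e - 1‖ := by ring
  -- compactness covering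
  have hcover : ∃ T : ℝ, ∀ c ∈ B, ∃ t : ℝ, |t| ≤ T ∧ ∃ b ∈ B₀, ρ b = exp (t • X) ∧
      ‖ρ (b⁻¹ * c) - 1‖ < r := by
    let E : ℝ → Set M := fun T => {c | ∃ t : ℝ, |t| < T ∧ ∃ b ∈ B₀, ρ b = exp (t • X) ∧
      ‖ρ (b⁻¹ * c) - 1‖ < r}
    have hEopen : ∀ T, IsOpen (E T) := by
      intro T
      have : E T = ⋃ (t : ℝ) (_ : |t| < T) (b : M) (_ : b ∈ B₀ ∧ ρ b = exp (t • X)),
          {c | ‖ρ (b⁻¹ * c) - 1‖ < r} := by
        ext c
        simp only [E, mem_ofPred_eq, mem_iUnion, exists_prop]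
        constructor
        · rintro ⟨t, ht, b, hb, hbt, hc⟩; exact ⟨t, ht, b, ⟨hb, hbt⟩, hc⟩
        · rintro ⟨t, ht, b, ⟨hb, hbt⟩, hc⟩; exact ⟨t, ht, b, hb, hbt, hc⟩
      rw [this]
      refine isOpen_iUnion fun t => isOpen_iUnion fun _ => isOpen_iUnion fun b =>
        isOpen_iUnion fun _ => ?_
      exact isOpen_lt (by fun_prop) continuous_const
    have hEmono : Monotone E := by
      rintro s t hst c ⟨x, hx, h⟩
      exact ⟨x, hx.trans_le hst, h⟩
    have hEcover : (B : Set M) ⊆ ⋃ n : ℕ, E n := by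
      intro c hc
      have hopen : IsOpen {b : M | ‖ρ (b⁻¹ * c) - 1‖ < r} :=
        isOpen_lt (by fun_prop) continuous_const
      have hcmem : c ∈ {b : M | ‖ρ (b⁻¹ * c) - 1‖ < r} := by
        rw [mem_ofPred_eq, inv_mul_cancel, map_one, sub_self, norm_zero]; exact hr0
      obtain ⟨b, hb1, hb2⟩ := mem_closure_iff.1 hc _ hopen hcmem
      obtain ⟨t, ht⟩ := hb2
      obtain ⟨n, hn⟩ := exists_nat_gt |t|
      exact mem_iUnion.2 ⟨n, t, hn, b, ⟨t, ht⟩, ht, hb1⟩
    obtain ⟨s, hs⟩ := hBcl.isCompact.elim_finite_subcover _ (fun n : ℕ => hEopen n) hEcover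
    obtain ⟨N, hN⟩ := s.exists_le
    refine ⟨N, fun c hc => ?_⟩
    obtain ⟨n, hn, hcn⟩ := mem_iUnion₂.1 (hs hc)
    obtain ⟨t, ht, h⟩ := hEmono (Nat.cast_le.2 (hN n hn)) hcn
    exact ⟨t, ht.le, h⟩
  obtain ⟨T, hT⟩ := hcover
  -- conclusion: B is trivial
  have htriv : ∀ c ∈ B, c = 1 := by
    intro c hc
    have hseq : ∀ n : ℕ, ∃ (s : ℝ) (e : A), |s| ≤ T * (1 / 2) ^ n ∧ ‖e - 1‖ ≤ (2 / 3) ^ n * r ∧
        ρ c = exp (s • X) * e := by
      intro n
      obtain ⟨t, ht, b, hb, hbt, hlt⟩ := hT (c ^ (2 ^ n)) (B.pow_mem hc _)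
      have heB : b⁻¹ * c ^ (2 ^ n) ∈ B := B.mul_mem (B.inv_mem (hB₀B hb)) (B.pow_mem hc _)
      obtain ⟨e', he', hpow', hle⟩ := hsmall n _ heB hlt
      obtain ⟨b', hb', hb't⟩ := hroot (t / (2 ^ n : ℕ))
      have hb'pow : b' ^ (2 ^ n) = b := by
        apply hinj
        rw [map_pow, hb't, hexpn _ _ (by positivity), hbt]
      have hce : c = b' * e' := by
        apply hpow n c hc _ (B.mul_mem (hB₀B hb') he')
        have hcm : Commute b' e' := hcomm b' (hB₀B hb') e' he'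
        rw [hcm.mul_pow, hb'pow, hpow']
        group
      refine ⟨t / (2 ^ n : ℕ), ρ e', ?_, hle.trans ?_, ?_⟩
      · rw [abs_div, Nat.cast_pow, Nat.cast_ofNat, abs_of_pos (by positivity : (0 : ℝ) < 2 ^ n)]
        rw [one_div, inv_pow, ← div_eq_mul_inv]
        gcongr
      · gcongr
      · rw [hce, map_mul, hb't]
    choose s e hs he hce using hseq
    have hs0 : Tendsto s atTop (𝓝 0) := by
      have h1 : Tendsto (fun n : ℕ => T * (1 / 2 : ℝ) ^ n) atTop (𝓝 0) := by
        simpa using (tendsto_pow_atTop_nhds_zero_of_lt_one (by norm_num)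
          (by norm_num : (1 / 2 : ℝ) < 1)).const_mul T
      exact squeeze_zero_norm hs h1
    have he0 : Tendsto e atTop (𝓝 1) := by
      rw [tendsto_iff_norm_sub_tendsto_zero]
      have h1 : Tendsto (fun n : ℕ => (2 / 3 : ℝ) ^ n * r) atTop (𝓝 0) := by
        simpa using (tendsto_pow_atTop_nhds_zero_of_lt_one (by norm_num)
          (by norm_num : (2 / 3 : ℝ) < 1)).mul_const r
      exact squeeze_zero (fun _ => norm_nonneg _) he h1
    have hlim : Tendsto (fun n => exp (s n • X) * e n) atTop (𝓝 (exp ((0 : ℝ) • X) * 1)) := by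
      refine Tendsto.mul ?_ he0
      exact (exp_cont'.tendsto _).comp (hs0.smul_const X)
    have hconst : Tendsto (fun n => exp (s n • X) * e n) atTop (𝓝 (ρ c)) := by
      simp_rw [← hce]; exact tendsto_const_nhds
    have := tendsto_nhds_unique hconst hlim
    rw [zero_smul, exp_zero, mul_one, ← map_one ρ] at this
    exact hinj this
  apply hX0
  have hconst : ∀ t : ℝ, exp (t • X) = 1 := by
    intro t
    obtain ⟨m, hm, hmt⟩ := hroot t
    rw [← hmt, htriv m (hB₀B hm), map_one]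
  have h1 := hasDerivAt_exp_smul_zero X
  have h2 : HasDerivAt (fun t : ℝ => exp (t • X)) 0 0 := by
    simp_rw [hconst]; exact hasDerivAt_const _ _
  exact h1.unique h2

end Pool.Agent.Work.MP_87c52b_gt
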