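import Pool.Agent.Work.MP_87c52b_gt.OpenProd

/-!
Kernels of finite-dimensional representations of a compact group.
-/

open scoped Topology
open Filter Set NormedSpace

universe u v

set_option linter.unusedSectionVars false
set_option linter.unusedSimpArgs false
set_option linter.style.haveILetI false

namespace Pool.Agent.Work.MP_87c52b_gt

/-- No small subgroups, power version. -/
theorem nss {A : Type u} [NormedRing A] [NormedAlgebra ℝ A] {a : A}
    (h : ∀ n : ℕ, ‖a ^ n - 1‖ ≤ 1 / 2) : a = 1 := by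
  by_contra hne
  have hpos : 0 < ‖a - 1‖ := norm_pos_iff.2 (sub_ne_zero.2 hne)
  have hgrow : ∀ n : ℕ, (3 / 2 : ℝ) ^ n * ‖a - 1‖ ≤ ‖a ^ (2 ^ n) - 1‖ := by
    intro n
    induction n with
    | zero => simp
    | succ n ih =>
      set x := a ^ (2 ^ n) with hx
      have hx2 : a ^ (2 ^ (n + 1)) = x * x := by
        rw [hx, ← pow_add, pow_succ]; congr 1; ring
      have h1 : x * x - 1 = (2 : ℝ) • (x - 1) + (x - 1) * (x - 1) := by
        rw [two_smul]; noncomm_ring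
      have h2 : ‖x - 1‖ ≤ 1 / 2 := h _
      have h3 : ‖(2 : ℝ) • (x - 1)‖ = 2 * ‖x - 1‖ := by rw [norm_smul]; norm_num
      have h4 : ‖(x - 1) * (x - 1)‖ ≤ 1 / 2 * ‖x - 1‖ :=
        (norm_mul_le _ _).trans (mul_le_mul_of_nonneg_right h2 (norm_nonneg _))
      have h5 : ‖(2 : ℝ) • (x - 1)‖ - ‖(x - 1) * (x - 1)‖ ≤ ‖x * x - 1‖ := by
        rw [h1]
        have := norm_sub_le ((2 : ℝ) • (x - 1) + (x - 1) * (x - 1)) ((x - 1) * (x - 1))
        rw [add_sub_cancel_right] at this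
        linarith
      rw [hx2, pow_succ]
      calc (3 / 2 : ℝ) ^ n * (3 / 2) * ‖a - 1‖ = (3 / 2) * ((3 / 2 : ℝ) ^ n * ‖a - 1‖) := by ring
        _ ≤ (3 / 2) * ‖x - 1‖ := by gcongr
        _ ≤ ‖x * x - 1‖ := by linarith
  obtain ⟨n, hn⟩ := pow_unbounded_of_one_lt (1 / ‖a - 1‖) (show (1 : ℝ) < 3 / 2 by norm_num)
  have h1 := hgrow n
  have h2 := h (2 ^ n)
  rw [div_lt_iff₀ hpos] at hn
  linarith

namespace IsRepKernel

variable {K : Type u} [Group K] [TopologicalSpace K]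

theorem normal {U : Subgroup K} (h : IsRepKernel U) : U.Normal := by
  obtain ⟨A, _, _, _, ρ, hρ, hU⟩ := h
  refine ⟨fun n hn g => ?_⟩
  rw [← hU] at hn ⊢
  rw [map_mul, map_mul, hn, mul_one, map_mul_map_inv]

theorem isClosed {U : Subgroup K} (h : IsRepKernel U) : IsClosed (U : Set K) := by
  obtain ⟨A, _, _, _, ρ, hρ, hU⟩ := h
  have : (U : Set K) = ρ ⁻¹' {1} := by
    ext g; simp [← hU]
  rw [this]
  exact isClosed_singleton.preimage hρ

theorem inf {U V : Subgroup K} (hU : IsRepKernel U) (hV : IsRepKernel V) :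
    IsRepKernel (U ⊓ V) := by
  obtain ⟨A, _, _, _, ρ, hρ, hU⟩ := hU
  obtain ⟨B, _, _, _, σ, hσ, hV⟩ := hV
  refine ⟨A × B, inferInstance, inferInstance, inferInstance, ρ.prod σ, hρ.prodMk hσ, ?_⟩
  intro g
  rw [Subgroup.mem_inf, ← hU, ← hV]
  simp [MonoidHom.prod_apply, Prod.ext_iff]

/-- Some neighbourhood of `1` contains no subgroups beyond the kernel. -/
theorem exists_nss_nhds {U : Subgroup K} (h : IsRepKernel U) :
    ∃ O ∈ 𝓝 (1 : K), ∀ H : Subgroup K, (H : Set K) ⊆ O → H ≤ U := by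
  obtain ⟨A, _, _, _, ρ, hρ, hU⟩ := h
  refine ⟨ρ ⁻¹' Metric.closedBall 1 (1 / 2), ?_, ?_⟩
  · apply hρ.continuousAt.preimage_mem_nhds
    rw [map_one]
    exact Metric.closedBall_mem_nhds _ (by norm_num)
  · intro H hH g hg
    rw [← hU]
    apply nss
    intro n
    have := hH (H.pow_mem hg n)
    rw [mem_preimage, mem_closedBall_iff_norm, map_pow] at this
    exact this

end IsRepKernel

section Compact

variable {K : Type u} [Group K] [TopologicalSpace K] [IsTopologicalGroup K] [CompactSpace K]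

/-- All open subgroups containing the kernel of `ρ` contain a fixed neighbourhood of `1`. -/
theorem exists_nhds_subset_open {U : Subgroup K} (hU : IsRepKernel U) :
    ∃ O ∈ 𝓝 (1 : K), ∀ J : Subgroup K, IsOpen (J : Set K) → U ≤ J → O ⊆ J := by
  obtain ⟨A, _, _, _, ρ, hρ, hU⟩ := hU
  have hS : CG (ρ '' ((⊤ : Subgroup K) : Set K)) := cg_image hρ (by simp)
  obtain ⟨O, hO, hOS⟩ := hS.exp_surj (univ_mem)
  refine ⟨ρ ⁻¹' O, hρ.continuousAt.preimage_mem_nhds (by rwa [map_one]), ?_⟩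
  intro J hJ hUJ k hk
  obtain ⟨X, -, hX⟩ := hOS (ρ k) hk ⟨k, by simp, rfl⟩
  have hfin : Finite (K ⧸ J) := J.quotient_finite_of_isOpen hJ
  have hfi : J.FiniteIndex := Subgroup.finiteIndex_of_finite_quotient
  have hidx : J.index ≠ 0 := hfi.index_ne_zero
  set N : ℕ := Nat.factorial J.index with hN
  have hNpos : 0 < N := Nat.factorial_pos _
  obtain ⟨k', -, hk'⟩ := X.2 ((N : ℝ)⁻¹)
  obtain ⟨m, hm0, hmle, hm⟩ := Subgroup.exists_pow_mem_of_index_ne_zero hidx k'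
  have hkN : k' ^ N ∈ J := by
    obtain ⟨c, hc⟩ := Nat.dvd_factorial hm0 hmle
    rw [hN, hc, pow_mul]
    exact J.pow_mem hm c
  have hρN : ρ (k' ^ N) = ρ k := by
    rw [map_pow, hk', ← exp_nsmul', ← hX]
    congr 1
    rw [← Nat.cast_smul_eq_nsmul ℝ, smul_smul, mul_inv_cancel₀ (by exact_mod_cast hNpos.ne'),
      one_smul]
  have hker : (k' ^ N)⁻¹ * k ∈ U := by
    rw [← hU, map_mul, ← hρN, map_inv_mul_map]
  have : k = k' ^ N * ((k' ^ N)⁻¹ * k) := by group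
  rw [this]
  exact J.mul_mem hkN (hUJ hker)

/-- elements commuting with `U` modulo `V` -/
def commMod (U V : Subgroup K) : Set K := {d | ∀ u ∈ U, d * u * d⁻¹ * u⁻¹ ∈ V}

theorem isClosed_commMod {U V : Subgroup K} (hV : IsClosed (V : Set K)) :
    IsClosed (commMod U V) := by
  have : commMod U V = ⋂ u ∈ U, (fun d : K => d * u * d⁻¹ * u⁻¹) ⁻¹' (V : Set K) := by
    ext d; simp [commMod]
  rw [this]
  refine isClosed_biInter fun u _ => hV.preimage ?_
  fun_prop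

theorem exists_centralizer_prod
    (hPW : ∀ O ∈ 𝓝 (1 : K), ∃ U : Subgroup K, IsRepKernel U ∧ (U : Set K) ⊆ O) [T2Space K]
    {U : Subgroup K} (hU : IsRepKernel U) :
    ∃ O ∈ 𝓝 (1 : K), ∀ k ∈ O, ∃ u ∈ U, ∃ c ∈ Subgroup.centralizer (U : Set K), k = u * c := by
  obtain ⟨O, hO, hOJ⟩ := exists_nhds_subset_open hU
  refine ⟨O, hO, fun k hk => ?_⟩
  have hUn := hU.normal
  -- each level
  have hlevel : ∀ V : {V : Subgroup K // IsRepKernel V},
      (U : Set K) ∩ {u | u⁻¹ * k ∈ commMod U V.1} ≠ ∅ := by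
    rintro ⟨V, hV⟩
    obtain ⟨A, _, _, _, ρ, hρ, hVρ⟩ := id hV
    have hVn := hV.normal
    -- the subgroup commuting mod V
    let D : Subgroup K :=
      { carrier := {d | ∀ u ∈ U, ρ d * ρ u = ρ u * ρ d}
        one_mem' := by intro u _; simp
        mul_mem' := by
          intro a b ha hb u hu
          rw [map_mul, mul_assoc, hb u hu, ← mul_assoc, ha u hu, mul_assoc]
        inv_mem' := by
          intro a ha u hu
          calc ρ a⁻¹ * ρ u = ρ a⁻¹ * (ρ u * ρ a) * ρ a⁻¹ := by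
                rw [mul_assoc, mul_assoc, map_mul_map_inv, mul_one]
            _ = ρ a⁻¹ * (ρ a * ρ u) * ρ a⁻¹ := by rw [ha u hu]
            _ = ρ u * ρ a⁻¹ := by rw [← mul_assoc, map_inv_mul_map, one_mul] }
    have hDmem : ∀ d ∈ D, d ∈ commMod U V := by
      intro d hd u hu
      rw [← hVρ, map_mul, map_mul, map_mul, hd u hu, mul_assoc (ρ u), map_mul_map_inv, mul_one,
        map_mul_map_inv]
    obtain ⟨O', hO', hprod⟩ := exists_open_prod hρ hU.isClosed hUn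
    have hJopen : IsOpen ((U ⊔ D : Subgroup K) : Set K) := by
      apply Subgroup.isOpen_of_mem_nhds (g := 1)
      refine mem_of_superset hO' ?_
      intro x hx
      obtain ⟨r, hr, d, hd, rfl⟩ := hprod x hx
      exact Subgroup.mul_mem_sup hr hd
    have hkJ : k ∈ (U ⊔ D : Subgroup K) := hOJ _ hJopen le_sup_left hk
    have hk2 : k ∈ ((U ⊔ D : Subgroup K) : Set K) := hkJ
    rw [Subgroup.normal_mul] at hk2
    obtain ⟨u, hu, d, hd, rfl⟩ := hk2
    refine Set.Nonempty.ne_empty ⟨u, hu, ?_⟩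
    simp only [mem_ofPred_eq, inv_mul_cancel_left]
    exact hDmem d hd
  -- compactness
  haveI : Nonempty {V : Subgroup K // IsRepKernel V} := ⟨⟨U, hU⟩⟩
  have hne : (⋂ V : {V : Subgroup K // IsRepKernel V},
      (U : Set K) ∩ {u | u⁻¹ * k ∈ commMod U V.1}).Nonempty := by
    have hcl : ∀ V : {V : Subgroup K // IsRepKernel V},
        IsClosed ((U : Set K) ∩ {u | u⁻¹ * k ∈ commMod U V.1}) := by
      rintro ⟨V, hV⟩
      refine hU.isClosed.inter ((isClosed_commMod hV.isClosed).preimage ?_)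
      fun_prop
    apply IsCompact.nonempty_iInter_of_directed_nonempty_isCompact_isClosed
    · rintro ⟨V₁, hV₁⟩ ⟨V₂, hV₂⟩
      refine ⟨⟨V₁ ⊓ V₂, hV₁.inf hV₂⟩, ?_, ?_⟩
      · rintro x ⟨hx1, hx2⟩
        exact ⟨hx1, fun u hu => (hx2 u hu).1⟩
      · rintro x ⟨hx1, hx2⟩
        exact ⟨hx1, fun u hu => (hx2 u hu).2⟩
    · intro V; exact nonempty_iff_ne_empty.2 (hlevel V)
    · intro V; exact (hcl V).isCompact
    · exact hcl
  obtain ⟨u, hu⟩ := hne
  rw [mem_iInter] at hu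
  refine ⟨u, (hu ⟨U, hU⟩).1, u⁻¹ * k, ?_, by group⟩
  rw [Subgroup.mem_centralizer_iff]
  intro v hv
  by_contra hne
  have hne' : (u⁻¹ * k) * v * (u⁻¹ * k)⁻¹ * v⁻¹ ≠ 1 := by
    intro h
    apply hne
    have h2 : (u⁻¹ * k) * v * (u⁻¹ * k)⁻¹ = v := by
      rw [mul_inv_eq_one] at h; exact h
    exact (mul_inv_eq_iff_eq_mul.1 h2).symm
  obtain ⟨V, hV, hVO⟩ := hPW {(u⁻¹ * k) * v * (u⁻¹ * k)⁻¹ * v⁻¹}ᶜ
    (isOpen_compl_singleton.mem_nhds (by simpa using hne'.symm))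
  have h3 := (hu ⟨V, hV⟩).2 v hv
  exact hVO h3 rfl

end Compact

end Pool.Agent.Work.MP_87c52b_gt
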