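import Pool.Agent.Work.MP_87c52b_gt.Toolkit

/-!
Local surjectivity for compact groups in a finite-dimensional algebra.
-/

open scoped Topology
open Filter Set NormedSpace

universe u

set_option linter.unusedSectionVars false
set_option linter.unusedSimpArgs false
set_option linter.style.haveILetI false

namespace Pool.Agent.Work.MP_87c52b_gt

namespace CG

variable {A : Type u} [NormedRing A] [NormedAlgebra ℝ A] [FiniteDimensional ℝ A] {S : Set A}

theorem local_surj (hS : CG S) {Φ : hS.lie → A} (h0 : Φ 0 = 1)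
    (hΦ : HasStrictFDerivAt Φ hS.lie.subtypeL 0) (hmem : ∀ X, Φ X ∈ S)
    {N : Set hS.lie} (hN : N ∈ 𝓝 (0 : hS.lie)) :
    ∃ O ∈ 𝓝 (1 : A), ∀ g ∈ O, g ∈ S → ∃ X ∈ N, Φ X = g := by
  obtain ⟨Q, hQ⟩ := Submodule.exists_isCompl hS.lie
  obtain ⟨δ, hδ, hsmall⟩ := hS.compl_small Q hQ.disjoint
  let Ψ : hS.lie × Q → A := fun p => Φ p.1 * exp (p.2 : A)
  let e : (hS.lie × Q) ≃L[ℝ] A := (Submodule.prodEquivOfIsCompl _ _ hQ).toContinuousLinearEquiv
  have hΨ : HasStrictFDerivAt Ψ (e : (hS.lie × Q) →L[ℝ] A) (0, 0) := by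
    have h1 : HasStrictFDerivAt (fun p : hS.lie × Q => Φ p.1)
        (hS.lie.subtypeL ∘L ContinuousLinearMap.fst ℝ hS.lie Q) (0, 0) :=
      HasStrictFDerivAt.comp (0, 0) (g := Φ) hΦ hasStrictFDerivAt_fst
    have h2 : HasStrictFDerivAt (fun p : hS.lie × Q => exp (p.2 : A))
        (Q.subtypeL ∘L ContinuousLinearMap.snd ℝ hS.lie Q) (0, 0) := by
      have h3 : HasStrictFDerivAt (exp : A → A) (1 : A →L[ℝ] A)
          ((fun p : hS.lie × Q => (p.2 : A)) (0, 0)) := by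
        simpa using (hasStrictFDerivAt_exp_zero (𝕂 := ℝ) (𝔸 := A))
      have h4 : HasStrictFDerivAt (fun p : hS.lie × Q => (p.2 : A))
          (Q.subtypeL ∘L ContinuousLinearMap.snd ℝ hS.lie Q) (0, 0) :=
        (Q.subtypeL ∘L ContinuousLinearMap.snd ℝ hS.lie Q).hasStrictFDerivAt
      exact HasStrictFDerivAt.comp (0, 0) h3 h4
    have h5 := h1.mul' h2
    refine h5.congr_fderiv ?_
    ext p
    · simp [e, h0]
    · simp [e, h0]
  have hmap := hΨ.map_nhds_eq_of_equiv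
  have hΨ0 : Ψ (0, 0) = 1 := by simp [Ψ, h0]
  rw [hΨ0] at hmap
  have hball : {q : Q | ‖(q : A)‖ < δ} ∈ 𝓝 (0 : Q) := by
    have : Continuous fun q : Q => ‖(q : A)‖ := by fun_prop
    exact this.continuousAt.eventually_lt continuousAt_const (by simpa using hδ)
  have hprod : N ×ˢ {q : Q | ‖(q : A)‖ < δ} ∈ 𝓝 ((0, 0) : hS.lie × Q) := prod_mem_nhds hN hball
  refine ⟨Ψ '' (N ×ˢ {q : Q | ‖(q : A)‖ < δ}), ?_, ?_⟩
  · rw [← hmap]; exact image_mem_map hprod
  · rintro g ⟨⟨X, q⟩, ⟨hX, hq⟩, rfl⟩ hg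
    refine ⟨X, hX, ?_⟩
    have hq0 : (q : A) = 0 := by
      refine hsmall q q.2 hq ?_
      obtain ⟨b, hb, hb1, hb2⟩ := hS.inv_mem (hmem X)
      have : exp (q : A) = b * (Φ X * exp (q : A)) := by
        rw [← mul_assoc, hb2, one_mul]
      rw [this]
      exact hS.mul_mem hb hg
    simp [Ψ, hq0]

/-- The standard exponential chart covers a neighbourhood of `1`. -/
theorem exp_surj (hS : CG S) {N : Set hS.lie} (hN : N ∈ 𝓝 (0 : hS.lie)) :
    ∃ O ∈ 𝓝 (1 : A), ∀ g ∈ O, g ∈ S → ∃ X ∈ N, exp (X : A) = g := by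
  refine hS.local_surj (Φ := fun X => exp (X : A)) (by simp) ?_
    (fun X => hS.exp_mem_of_mem_lie X.2) hN
  have h3 : HasStrictFDerivAt (exp : A → A) (1 : A →L[ℝ] A)
      ((fun p : hS.lie => (p : A)) 0) := by
    simpa using (hasStrictFDerivAt_exp_zero (𝕂 := ℝ) (𝔸 := A))
  exact HasStrictFDerivAt.comp (0 : hS.lie) h3 hS.lie.subtypeL.hasStrictFDerivAt

end CG

end Pool.Agent.Work.MP_87c52b_gt
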