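import Mathlib

/-!
The convolution operator with a continuous symmetric kernel on `L²` of a compact group:
it is compact, symmetric and commutes with left translations.
-/

open MeasureTheory Filter Set
open scoped Topology InnerProductSpace ENNReal

universe u

set_option linter.unusedSectionVars false
set_option linter.overlappingInstances false

noncomputable section

namespace Pool.Agent.Work.MP_87c52b_gt.PW

variable {K : Type u} [Group K] [TopologicalSpace K] [IsTopologicalGroup K] [CompactSpace K]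
  [T2Space K] [MeasurableSpace K] [BorelSpace K]
  (μ : Measure K) [μ.IsHaarMeasure] [μ.Regular]

/-- the Hilbert space `L²(K)` -/
abbrev H (μ : Measure K) : Type u := Lp ℂ 2 μ

instance factTwoNeTop : Fact ((2 : ℝ≥0∞) ≠ ∞) := ⟨by norm_num⟩

/-- left translation on `L²(K)` -/
def tr (g : K) (f : H μ) : H μ := DomMulAct.mk g⁻¹ • f

variable {μ}

theorem tr_one (f : H μ) : tr μ 1 f = f := by
  unfold tr; rw [inv_one, DomMulAct.mk_one, one_smul]

theorem tr_mul (g h : K) (f : H μ) : tr μ (g * h) f = tr μ g (tr μ h f) := by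
  unfold tr; rw [mul_inv_rev, DomMulAct.mk_mul, mul_smul]

theorem tr_add (g : K) (f f' : H μ) : tr μ g (f + f') = tr μ g f + tr μ g f' := smul_add _ _ _

theorem tr_smul (g : K) (c : ℂ) (f : H μ) : tr μ g (c • f) = c • tr μ g f := smul_comm _ _ _

theorem norm_tr (g : K) (f : H μ) : ‖tr μ g f‖ = ‖f‖ := DomMulAct.norm_smul_Lp _ _

theorem continuous_tr (f : H μ) : Continuous fun g : K => tr μ g f := by
  have h1 : Continuous fun g : K => DomMulAct.mk g⁻¹ :=
    DomMulAct.continuous_mk.comp continuous_inv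
  exact h1.smul continuous_const

/-- `tr g` as a linear isometry -/
def trL (μ : Measure K) [μ.IsHaarMeasure] [μ.Regular] (g : K) : H μ →ₗᵢ[ℂ] H μ where
  toFun := tr μ g
  map_add' := tr_add g
  map_smul' := tr_smul g
  norm_map' := norm_tr g

@[simp] theorem trL_apply (g : K) (f : H μ) : trL μ g f = tr μ g f := rfl

/-- the embedding of continuous functions -/
abbrev ι (μ : Measure K) [μ.IsHaarMeasure] [μ.Regular] : C(K, ℂ) →L[ℂ] H μ :=
  ContinuousMap.toLp 2 μ ℂ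

/-- translate of a continuous function -/
def ctr (g : K) (a : C(K, ℂ)) : C(K, ℂ) := a.comp ⟨fun x => g⁻¹ * x, by fun_prop⟩

@[simp] theorem ctr_apply (g : K) (a : C(K, ℂ)) (x : K) : ctr g a x = a (g⁻¹ * x) := rfl

theorem tr_ι (g : K) (a : C(K, ℂ)) : tr μ g (ι μ a) = ι μ (ctr g a) := by
  apply Lp.ext
  have h1 : (tr μ g (ι μ a) : K → ℂ) =ᵐ[μ] fun x => (ι μ a : K → ℂ) (g⁻¹ * x) := by
    have := DomMulAct.smul_Lp_ae_eq (μ := μ) (p := 2) (DomMulAct.mk g⁻¹) (ι μ a)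
    simpa [tr] using this
  have h2 : (fun x => (ι μ a : K → ℂ) (g⁻¹ * x)) =ᵐ[μ] fun x => a (g⁻¹ * x) := by
    have h3 := ContinuousMap.coeFn_toLp (p := 2) (𝕜 := ℂ) μ a
    exact (measurePreserving_mul_left μ g⁻¹).quasiMeasurePreserving.ae_eq_comp h3
  have h4 := ContinuousMap.coeFn_toLp (p := 2) (𝕜 := ℂ) μ (ctr g a)
  exact h1.trans (h2.trans h4.symm)

/-- the kernel functions `κ x = φ (x⁻¹ ·)` -/
def κ (φ : C(K, ℝ)) : C(K, C(K, ℂ)) :=
  ContinuousMap.curry ⟨fun p : K × K => (φ (p.1⁻¹ * p.2) : ℂ), by fun_prop⟩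

@[simp] theorem κ_apply (φ : C(K, ℝ)) (x y : K) : κ φ x y = (φ (x⁻¹ * y) : ℂ) := rfl

theorem ctr_κ (φ : C(K, ℝ)) (g x : K) : ctr g (κ φ (g⁻¹ * x)) = κ φ x := by
  ext y
  simp only [ctr_apply, κ_apply]
  congr 2
  group

/-- the integral operator into continuous functions -/
def Afun (μ : Measure K) [μ.IsHaarMeasure] [μ.Regular] (φ : C(K, ℝ)) (f : H μ) : C(K, ℂ) :=
  ⟨fun x => ⟪ι μ (κ φ x), f⟫_ℂ, by
    have : Continuous fun x => ι μ (κ φ x) := (ι μ).continuous.comp (κ φ).continuous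
    exact this.inner continuous_const⟩

@[simp] theorem Afun_apply (φ : C(K, ℝ)) (f : H μ) (x : K) :
    Afun μ φ f x = ⟪ι μ (κ φ x), f⟫_ℂ := rfl

theorem norm_Afun_sub_le (φ : C(K, ℝ)) (f : H μ) (x y : K) :
    ‖Afun μ φ f x - Afun μ φ f y‖ ≤ ‖ι μ‖ * ‖κ φ x - κ φ y‖ * ‖f‖ := by
  rw [Afun_apply, Afun_apply, ← inner_sub_left, ← map_sub]
  refine (norm_inner_le_norm _ _).trans ?_
  gcongr
  exact (ι μ).le_opNorm _

theorem norm_Afun_apply_le (φ : C(K, ℝ)) (f : H μ) (x : K) :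
    ‖Afun μ φ f x‖ ≤ ‖ι μ‖ * ‖κ φ‖ * ‖f‖ := by
  rw [Afun_apply]
  refine (norm_inner_le_norm _ _).trans ?_
  gcongr
  exact ((ι μ).le_opNorm _).trans (by gcongr; exact (κ φ).norm_coe_le_norm x)

/-- the integral operator into bounded continuous functions, as a continuous linear map -/
def A (μ : Measure K) [μ.IsHaarMeasure] [μ.Regular] (φ : C(K, ℝ)) : H μ →L[ℂ] C(K, ℂ) :=
  LinearMap.mkContinuous
    { toFun := Afun μ φ
      map_add' := by intro f f'; ext x; simp [inner_add_right]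
      map_smul' := by intro c f; ext x; simp [inner_smul_right] }
    (‖ι μ‖ * ‖κ φ‖) (by
      intro f
      refine (ContinuousMap.norm_le _ (by positivity)).2 fun x => ?_
      exact norm_Afun_apply_le φ f x)

@[simp] theorem A_apply (φ : C(K, ℝ)) (f : H μ) (x : K) :
    A μ φ f x = ⟪ι μ (κ φ x), f⟫_ℂ := rfl

theorem isCompactOperator_A (φ : C(K, ℝ)) : IsCompactOperator (A μ φ) := by
  let E := (ContinuousMap.linearIsometryBoundedOfCompact K ℂ ℂ)
  have key : IsCompactOperator ((E.toLinearIsometry.toContinuousLinearMap).comp (A μ φ)) := by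
    refine (isCompactOperator_iff_isCompact_closure_image_closedBall (𝕜₁ := ℂ) (𝕜₂ := ℂ)
      (σ₁₂ := RingHom.id ℂ)
      (E.toLinearIsometry.toContinuousLinearMap.comp (A μ φ)).toLinearMap zero_lt_one).2 ?_
    apply BoundedContinuousFunction.arzela_ascoli
      (Metric.closedBall (0 : ℂ) (‖ι μ‖ * ‖κ φ‖)) (isCompact_closedBall _ _)
    · rintro F x ⟨f, hf, rfl⟩
      rw [mem_closedBall_zero_iff] at hf ⊢
      calc ‖A μ φ f x‖ ≤ ‖ι μ‖ * ‖κ φ‖ * ‖f‖ := norm_Afun_apply_le φ f x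
        _ ≤ ‖ι μ‖ * ‖κ φ‖ * 1 := by gcongr
        _ = _ := mul_one _
    · intro x
      rw [Metric.equicontinuousAt_iff_right]
      intro ε hε
      have hcont : ContinuousAt (fun y => ‖ι μ‖ * ‖κ φ x - κ φ y‖) x := by fun_prop
      have h0 : (fun y => ‖ι μ‖ * ‖κ φ x - κ φ y‖) x < ε := by simpa using hε
      filter_upwards [hcont.eventually (gt_mem_nhds h0)] with y hy
      rintro ⟨F, f, hf, rfl⟩
      rw [mem_closedBall_zero_iff] at hf
      rw [dist_eq_norm]
      calc ‖A μ φ f x - A μ φ f y‖ ≤ ‖ι μ‖ * ‖κ φ x - κ φ y‖ * ‖f‖ := norm_Afun_sub_le φ f x y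
        _ ≤ ‖ι μ‖ * ‖κ φ x - κ φ y‖ * 1 := by gcongr
        _ < ε := by rw [mul_one]; exact hy
  have h2 := key.clm_comp (E.symm.toLinearIsometry.toContinuousLinearMap)
  have h3 : (A μ φ : H μ → C(K, ℂ)) = (E.symm.toLinearIsometry.toContinuousLinearMap) ∘
      ((E.toLinearIsometry.toContinuousLinearMap).comp (A μ φ)) := by
    funext f
    simp
  rw [h3]
  exact h2

/-- the operator on `L²` -/
def T (μ : Measure K) [μ.IsHaarMeasure] [μ.Regular] (φ : C(K, ℝ)) : H μ →L[ℂ] H μ :=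
  (ι μ).comp (A μ φ)

theorem T_apply (φ : C(K, ℝ)) (f : H μ) : T μ φ f = ι μ (A μ φ f) := rfl

theorem isCompactOperator_T (φ : C(K, ℝ)) : IsCompactOperator (T μ φ) :=
  (isCompactOperator_A φ).clm_comp (ι μ)

theorem A_tr (φ : C(K, ℝ)) (g : K) (f : H μ) : A μ φ (tr μ g f) = ctr g (A μ φ f) := by
  ext x
  rw [A_apply, ctr_apply, A_apply, ← ctr_κ φ g x, ← tr_ι]
  exact (trL μ g).inner_map_map _ _

theorem T_tr (φ : C(K, ℝ)) (g : K) (f : H μ) : T μ φ (tr μ g f) = tr μ g (T μ φ f) := by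
  rw [T_apply, T_apply, A_tr, tr_ι]

theorem inner_ι (a b : C(K, ℂ)) : ⟪ι μ a, ι μ b⟫_ℂ = ∫ x, b x * (starRingEnd ℂ) (a x) ∂μ :=
  ContinuousMap.inner_toLp μ a b

theorem isSymmetric_T (φ : C(K, ℝ)) (hφ : ∀ x, φ x⁻¹ = φ x) : (T μ φ).IsSymmetric := by
  intro f g
  have hd : DenseRange (ι μ) := ContinuousMap.toLp_denseRange ℂ μ ℂ (by norm_num)
  simp only [ContinuousLinearMap.coe_coe]
  refine hd.induction_on₂ (p := fun f g => ⟪T μ φ f, g⟫_ℂ = ⟪f, T μ φ g⟫_ℂ) ?_ ?_ f g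
  · exact isClosed_eq (by fun_prop) (by fun_prop)
  · intro a b
    rw [T_apply, T_apply, inner_ι, inner_ι]
    have h1 : ∀ x, A μ φ (ι μ a) x = ∫ y, a y * (φ (x⁻¹ * y) : ℂ) ∂μ := by
      intro x
      rw [A_apply, inner_ι]
      simp
    have h2 : ∀ x, A μ φ (ι μ b) x = ∫ y, b y * (φ (x⁻¹ * y) : ℂ) ∂μ := by
      intro x
      rw [A_apply, inner_ι]
      simp
    calc ∫ x, b x * (starRingEnd ℂ) (A μ φ (ι μ a) x) ∂μ
        = ∫ x, ∫ y, b x * ((starRingEnd ℂ) (a y) * (φ (x⁻¹ * y) : ℂ)) ∂μ ∂μ := by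
          congr 1 with x
          rw [h1, ← integral_conj, ← integral_const_mul]
          congr 1 with y
          simp
      _ = ∫ y, ∫ x, b x * ((starRingEnd ℂ) (a y) * (φ (x⁻¹ * y) : ℂ)) ∂μ ∂μ := by
          apply integral_integral_swap_of_hasCompactSupport
          · change Continuous fun p : K × K => b p.1 *
              ((starRingEnd ℂ) (a p.2) * (φ (p.1⁻¹ * p.2) : ℂ))
            fun_prop
          · exact HasCompactSupport.of_compactSpace _
      _ = ∫ y, A μ φ (ι μ b) y * (starRingEnd ℂ) (a y) ∂μ := by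
          congr 1 with y
          rw [h2, ← integral_mul_const]
          congr 1 with x
          rw [show φ (x⁻¹ * y) = φ (y⁻¹ * x) by rw [← hφ, mul_inv_rev, inv_inv]]
          ring

end Pool.Agent.Work.MP_87c52b_gt.PW
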