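import Pool.Agent.Work.MP_87c52b_gt.Defs
import Pool.Agent.Work.MP_87c52b_gt.PWOp

/-!
Peter-Weyl theorem (existence of enough finite-dimensional representations) and existence of
enough characters for compact abelian groups.
-/

open MeasureTheory Filter Set
open scoped Topology InnerProductSpace ENNReal

universe u

set_option linter.unusedSectionVars false
set_option linter.overlappingInstances false
set_option linter.style.haveILetI false

noncomputable section

namespace Pool.Agent.Work.MP_87c52b_gt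

namespace PW

variable {K : Type u} [Group K] [TopologicalSpace K] [IsTopologicalGroup K] [CompactSpace K]
  [T2Space K] [MeasurableSpace K] [BorelSpace K]
  {μ : Measure K} [μ.IsHaarMeasure] [μ.Regular]

/-- the eigenspace of the operator `T μ φ` -/
def V (μ : Measure K) [μ.IsHaarMeasure] [μ.Regular] (φ : C(K, ℝ)) (ν : ℂ) :
    Submodule ℂ (H μ) :=
  Module.End.eigenspace (T μ φ).toLinearMap ν

theorem mem_V {φ : C(K, ℝ)} {ν : ℂ} {v : H μ} : v ∈ V μ φ ν ↔ T μ φ v = ν • v :=
  Module.End.mem_eigenspace_iff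

theorem tr_mem_V {φ : C(K, ℝ)} {ν : ℂ} {v : H μ} (hv : v ∈ V μ φ ν) (g : K) :
    tr μ g v ∈ V μ φ ν := by
  rw [mem_V] at hv ⊢
  rw [T_tr, hv, tr_smul]

theorem finiteDimensional_V (φ : C(K, ℝ)) {ν : ℂ} (hν : ν ≠ 0) :
    FiniteDimensional ℂ (V μ φ ν) :=
  ContinuousLinearMap.finite_dimensional_eigenspace (isCompactOperator_T φ) ν hν

/-- some finite-dimensional eigenspace is moved by `g ≠ 1` -/
theorem exists_moved (μ : Measure K) [μ.IsHaarMeasure] [μ.Regular] {g : K} (hg : g ≠ 1) :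
    ∃ (φ : C(K, ℝ)) (ν : ℂ), ν ≠ 0 ∧ ∃ v ∈ V μ φ ν, tr μ g v ≠ v := by
  obtain ⟨f, hf0, hf1, -⟩ := exists_continuous_zero_one_of_isClosed
    (isClosed_singleton (x := g)) (isClosed_singleton (x := (1 : K))) (by simpa using hg)
  let φ : C(K, ℝ) := ⟨fun x => f x * f x⁻¹, by fun_prop⟩
  have hφs : ∀ x, φ x⁻¹ = φ x := by
    intro x
    change f x⁻¹ * f x⁻¹⁻¹ = f x * f x⁻¹
    rw [inv_inv, mul_comm]
  have hφg : φ g = 0 := by
    change f g * f g⁻¹ = 0
    rw [hf0 (mem_singleton g)]; simp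
  have hφ1 : φ 1 = 1 := by
    change f 1 * f 1⁻¹ = 1
    rw [inv_one, hf1 (mem_singleton 1)]; simp
  by_contra hcon
  push Not at hcon
  have hcon' := hcon φ
  let S : Submodule ℂ (H μ) :=
    (((trL μ g).toContinuousLinearMap.comp (T μ φ)) - T μ φ).ker
  have hSmem : ∀ v, v ∈ S ↔ tr μ g (T μ φ v) = T μ φ v := by
    intro v
    simp [S, LinearMap.mem_ker, sub_eq_zero]
  have hScl : IsClosed (S : Set (H μ)) := ContinuousLinearMap.isClosed_ker _
  have hle : (⨆ ν, Module.End.eigenspace (T μ φ : Module.End ℂ (H μ)) ν) ≤ S := by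
    refine iSup_le fun ν v hv => ?_
    have hv' : T μ φ v = ν • v := Module.End.mem_eigenspace_iff.1 hv
    rw [hSmem, hv', tr_smul]
    by_cases hν : ν = 0
    · simp [hν]
    · rw [hcon' ν hν v (mem_V.2 hv')]
  have htop : (⨆ ν, Module.End.eigenspace (T μ φ : Module.End ℂ (H μ)) ν).topologicalClosure
      = ⊤ := by
    rw [Submodule.topologicalClosure_eq_top_iff]
    exact ContinuousLinearMap.orthogonalComplement_iSup_eigenspaces_eq_bot
      (isCompactOperator_T φ) (isSymmetric_T φ hφs)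
  have hSt : S = ⊤ := by
    rw [eq_top_iff, ← htop]
    exact Submodule.topologicalClosure_minimal _ hle hScl
  have hall : ∀ v, tr μ g (T μ φ v) = T μ φ v := fun v => (hSmem v).1 (by rw [hSt]; trivial)
  have hA : ∀ v, ctr g (A μ φ v) = A μ φ v := by
    intro v
    have h1 := hall v
    rw [T_apply, tr_ι] at h1
    exact ContinuousMap.toLp_injective (p := 2) (𝕜 := ℂ) μ h1
  have hκ : ι μ (κ φ g⁻¹) = ι μ (κ φ 1) := by
    refine ext_inner_right ℂ fun v => ?_
    have h1 := congrArg (fun F : C(K, ℂ) => F 1) (hA v)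
    simpa using h1
  have hκ2 : κ φ g⁻¹ = κ φ 1 := ContinuousMap.toLp_injective (p := 2) (𝕜 := ℂ) μ hκ
  have h2 := congrArg (fun F : C(K, ℂ) => F 1) hκ2
  simp only [κ_apply, inv_inv, inv_one, mul_one, hφg, hφ1] at h2
  norm_num at h2

/-- the representation on an eigenspace -/
def rep (μ : Measure K) [μ.IsHaarMeasure] [μ.Regular] (φ : C(K, ℝ)) (ν : ℂ) :
    K →* (V μ φ ν →L[ℂ] V μ φ ν) where
  toFun g := ((trL μ g).toContinuousLinearMap.comp (V μ φ ν).subtypeL).codRestrict (V μ φ ν)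
    fun v => tr_mem_V v.2 g
  map_one' := by
    ext v
    simp [tr_one]
  map_mul' g h := by
    ext v
    simp [tr_mul]

@[simp] theorem rep_apply (φ : C(K, ℝ)) (ν : ℂ) (g : K) (v : V μ φ ν) :
    ((rep μ φ ν g v : V μ φ ν) : H μ) = tr μ g v := rfl

theorem continuous_rep (φ : C(K, ℝ)) {ν : ℂ} (hν : ν ≠ 0) : Continuous (rep μ φ ν) := by
  haveI := finiteDimensional_V (μ := μ) φ hν
  rw [continuous_clm_apply]
  intro v
  exact continuous_induced_rng.2 (continuous_tr (v : H μ))

theorem isRepKernel_rep (φ : C(K, ℝ)) {ν : ℂ} (hν : ν ≠ 0) :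
    IsRepKernel (rep μ φ ν).ker := by
  haveI := finiteDimensional_V (μ := μ) φ hν
  refine ⟨V μ φ ν →L[ℂ] V μ φ ν, inferInstance, inferInstance, ?_, rep μ φ ν,
    continuous_rep φ hν, fun g => MonoidHom.mem_ker.symm⟩
  exact FiniteDimensional.complexToReal _

end PW

section

variable {K : Type u} [Group K] [TopologicalSpace K] [IsTopologicalGroup K] [CompactSpace K]
  [T2Space K]

theorem exists_repKernel_not_mem {g : K} (hg : g ≠ 1) :
    ∃ U : Subgroup K, IsRepKernel U ∧ g ∉ U := by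
  letI : MeasurableSpace K := borel K
  haveI : BorelSpace K := ⟨rfl⟩
  obtain ⟨φ, ν, hν, v, hv, hgv⟩ := PW.exists_moved (Measure.haar : Measure K) hg
  refine ⟨(PW.rep (Measure.haar : Measure K) φ ν).ker, PW.isRepKernel_rep φ hν,
    fun h => hgv ?_⟩
  have h1 := MonoidHom.mem_ker.1 h
  have h2 := congrArg (fun F => ((F ⟨v, hv⟩ : PW.V (Measure.haar : Measure K) φ ν) :
    PW.H (Measure.haar : Measure K))) h1
  simpa using h2

theorem PW.isRepKernel_top : IsRepKernel (⊤ : Subgroup K) :=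
  ⟨ULift.{u} ℝ, inferInstance, inferInstance, inferInstance, 1, continuous_const, fun g => by simp⟩

theorem PW.isRepKernel_inf {U W : Subgroup K} (hU : IsRepKernel U) (hW : IsRepKernel W) :
    IsRepKernel (U ⊓ W) := by
  obtain ⟨A, _, _, _, ρ, hρ, hU⟩ := hU
  obtain ⟨B, _, _, _, σ, hσ, hW⟩ := hW
  refine ⟨A × B, inferInstance, inferInstance, inferInstance, ρ.prod σ, hρ.prodMk hσ, ?_⟩
  intro g
  rw [Subgroup.mem_inf, ← hU, ← hW]
  simp [MonoidHom.prod_apply, Prod.ext_iff]

theorem PW.isClosed_repKernel {U : Subgroup K} (h : IsRepKernel U) :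
    IsClosed (U : Set K) := by
  obtain ⟨A, _, _, _, ρ, hρ, hU⟩ := h
  have : (U : Set K) = ρ ⁻¹' {1} := by
    ext g; simp [← hU]
  rw [this]
  exact isClosed_singleton.preimage hρ

end

/-- **Peter-Weyl theorem**: kernels of finite-dimensional representations of a compact group
form a base of neighbourhoods of `1` in the sense that every neighbourhood of `1` contains one. -/
theorem peter_weyl (K : Type u) [Group K] [TopologicalSpace K] [IsTopologicalGroup K]
    [CompactSpace K] [T2Space K] (O : Set K) (hO : O ∈ 𝓝 (1 : K)) :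
    ∃ U : Subgroup K, IsRepKernel U ∧ (U : Set K) ⊆ O := by
  classical
  have hC : IsCompact ((interior O)ᶜ) := isOpen_interior.isClosed_compl.isCompact
  have h1 : ∀ g ∈ (interior O)ᶜ, ∃ U : Subgroup K, IsRepKernel U ∧ g ∉ U := by
    intro g hg
    apply exists_repKernel_not_mem
    rintro rfl
    exact hg (mem_interior_iff_mem_nhds.2 hO)
  choose! U hU hgU using h1
  obtain ⟨t, ht, hcov⟩ := hC.elim_nhds_subcover (fun g => (U g : Set K)ᶜ) (fun g hg =>
    (PW.isClosed_repKernel (hU g hg)).isOpen_compl.mem_nhds (hgU g hg))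
  have hfin : ∀ s : Finset K, (∀ g ∈ s, g ∈ (interior O)ᶜ) →
      ∃ W : Subgroup K, IsRepKernel W ∧ ∀ g ∈ s, W ≤ U g := by
    intro s
    induction s using Finset.induction_on with
    | empty => intro _; exact ⟨⊤, PW.isRepKernel_top, by simp⟩
    | insert g s hgs ih =>
      intro hs
      obtain ⟨W, hW, hWs⟩ := ih fun x hx => hs x (Finset.mem_insert_of_mem hx)
      refine ⟨U g ⊓ W, PW.isRepKernel_inf (hU g (hs g (Finset.mem_insert_self g s))) hW, ?_⟩
      intro x hx
      rcases Finset.mem_insert.1 hx with rfl | hx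
      · exact inf_le_left
      · exact inf_le_right.trans (hWs x hx)
  obtain ⟨W, hW, hWt⟩ := hfin t ht
  refine ⟨W, hW, fun x hx => ?_⟩
  by_contra hxO
  have hx2 : x ∈ (interior O)ᶜ := fun h => hxO (interior_subset h)
  obtain ⟨g, hgt, hgx⟩ := mem_iUnion₂.1 (hcov hx2)
  exact hgx (hWt g hgt hx)

section Character

variable {A : Type u} [CommGroup A] [TopologicalSpace A] [IsTopologicalGroup A] [CompactSpace A]
  [T2Space A] [MeasurableSpace A] [BorelSpace A]
  {μ : Measure A} [μ.IsHaarMeasure] [μ.Regular]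

/-- a nonzero finite-dimensional translation invariant subspace contains a common eigenvector -/
theorem PW.exists_common_eigenvector (n : ℕ) : ∀ (R : Submodule ℂ (PW.H μ)),
    FiniteDimensional ℂ R → Module.finrank ℂ R = n → R ≠ ⊥ →
    (∀ b : A, ∀ w ∈ R, PW.tr μ b w ∈ R) →
    ∃ w ∈ R, w ≠ 0 ∧ ∀ b : A, ∃ c : ℂ, PW.tr μ b w = c • w := by
  induction n using Nat.strong_induction_on with
  | _ n ih =>
  intro R hfd hn hR hinv
  by_cases hall : ∀ b : A, ∃ c : ℂ, ∀ w ∈ R, PW.tr μ b w = c • w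
  · obtain ⟨w, hw, hw0⟩ := Submodule.exists_mem_ne_zero_of_ne_bot hR
    exact ⟨w, hw, hw0, fun b => (hall b).imp fun c hc => hc w hw⟩
  · push Not at hall
    obtain ⟨b, hb⟩ := hall
    haveI : Nontrivial R := Submodule.nontrivial_iff_ne_bot.2 hR
    let f : Module.End ℂ R := ((PW.trL μ b).toLinearMap.restrict (hinv b))
    have hf : ∀ w : R, ((f w : R) : PW.H μ) = PW.tr μ b w := fun w => rfl
    obtain ⟨c, hc⟩ := Module.End.exists_eigenvalue f
    let R' : Submodule ℂ (PW.H μ) :=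
      { carrier := {w | w ∈ R ∧ PW.tr μ b w = c • w}
        add_mem' := by
          rintro x y ⟨hx, hx'⟩ ⟨hy, hy'⟩
          exact ⟨R.add_mem hx hy, by rw [PW.tr_add, hx', hy', smul_add]⟩
        zero_mem' := ⟨R.zero_mem, by
          have := PW.tr_smul (μ := μ) b 0 0
          rw [zero_smul, zero_smul] at this
          rw [this, smul_zero]⟩
        smul_mem' := by
          rintro d x ⟨hx, hx'⟩
          exact ⟨R.smul_mem d hx, by rw [PW.tr_smul, hx', smul_comm]⟩ }
    have hR'R : R' ≤ R := fun w hw => hw.1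
    have hne : R' ≠ ⊥ := by
      obtain ⟨w, hw⟩ := hc.exists_hasEigenvector
      have hw1 : f w = c • w := hw.apply_eq_smul
      intro hbot
      have : (w : PW.H μ) ∈ R' := ⟨w.2, by rw [← hf, hw1]; rfl⟩
      rw [hbot, Submodule.mem_bot] at this
      exact hw.2 (Subtype.ext this)
    have hlt : R' < R := by
      refine lt_of_le_of_ne hR'R fun h => ?_
      obtain ⟨w, hw, hwc⟩ := hb c
      rw [← h] at hw
      exact hwc hw.2
    have hfd' : FiniteDimensional ℂ R' := Submodule.finiteDimensional_of_le hR'R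
    have hrank : Module.finrank ℂ R' < n := hn ▸ Submodule.finrank_lt_finrank_of_lt hlt
    have hinv' : ∀ b' : A, ∀ w ∈ R', PW.tr μ b' w ∈ R' := by
      rintro b' w ⟨hw, hw'⟩
      refine ⟨hinv b' w hw, ?_⟩
      rw [← PW.tr_mul, mul_comm, PW.tr_mul, hw', PW.tr_smul]
    obtain ⟨w, hw, hw0, hw2⟩ := ih _ hrank R' hfd' rfl hne hinv'
    exact ⟨w, hR'R hw, hw0, hw2⟩

theorem PW.exists_character_aux (μ : Measure A) [μ.IsHaarMeasure] [μ.Regular] {a : A}
    (ha : a ≠ 1) :
    ∃ (w : PW.H μ) (c : A → ℂ), w ≠ 0 ∧ (∀ b, PW.tr μ b w = c b • w) ∧ c a ≠ 1 := by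
  obtain ⟨φ, ν, hν, v, hv, hav⟩ := PW.exists_moved μ ha
  have hfdV := PW.finiteDimensional_V (μ := μ) φ hν
  -- the range of `tr a - 1` on `V`
  let D : PW.H μ →ₗ[ℂ] PW.H μ := (PW.trL μ a).toLinearMap - LinearMap.id
  have hD : ∀ x, D x = PW.tr μ a x - x := fun x => rfl
  let R : Submodule ℂ (PW.H μ) := (PW.V μ φ ν).map D
  have hfd : FiniteDimensional ℂ R := inferInstance
  have hR : R ≠ ⊥ := by
    intro hbot
    have : D v ∈ R := Submodule.mem_map_of_mem hv
    rw [hbot, Submodule.mem_bot, hD, sub_eq_zero] at this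
    exact hav this
  have hinv : ∀ b : A, ∀ w ∈ R, PW.tr μ b w ∈ R := by
    rintro b w ⟨x, hx, rfl⟩
    refine ⟨PW.tr μ b x, PW.tr_mem_V hx b, ?_⟩
    rw [hD, hD]
    have : PW.tr μ b (PW.tr μ a x - x) = PW.tr μ b (PW.tr μ a x) - PW.tr μ b x :=
      map_sub (PW.trL μ b) _ _
    rw [this, ← PW.tr_mul, ← PW.tr_mul, mul_comm]
  obtain ⟨w, hwR, hw0, hw⟩ := PW.exists_common_eigenvector (μ := μ) _ R hfd rfl hR hinv
  choose c hc using hw
  refine ⟨w, c, hw0, hc, fun hca => hw0 ?_⟩
  obtain ⟨x, hx, hxw⟩ := hwR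
  rw [hD] at hxw
  have hfix : PW.tr μ a w = w := by rw [hc, hca, one_smul]
  have h1 : ⟪w, w⟫_ℂ = 0 := by
    nth_rewrite 2 [← hxw]
    rw [inner_sub_right]
    have h2 : ⟪w, PW.tr μ a x⟫_ℂ = ⟪w, x⟫_ℂ := by
      nth_rewrite 1 [← hfix]
      exact (PW.trL μ a).inner_map_map _ _
    rw [h2, sub_self]
  exact inner_self_eq_zero.1 h1

end Character

/-- Characters of a compact abelian group separate points. -/
theorem exists_character (A : Type u) [CommGroup A] [TopologicalSpace A] [IsTopologicalGroup A]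
    [CompactSpace A] [T2Space A] (a : A) (ha : a ≠ 1) :
    ∃ χ : A →* Circle, Continuous χ ∧ χ a ≠ 1 := by
  letI : MeasurableSpace A := borel A
  haveI : BorelSpace A := ⟨rfl⟩
  obtain ⟨w, c, hw0, hc, hca⟩ := PW.exists_character_aux (Measure.haar : Measure A) ha
  have hinj : ∀ {z z' : ℂ}, z • w = z' • w → z = z' := fun {z z'} h => smul_left_injective ℂ hw0 h
  have hnorm : ∀ b, ‖c b‖ = 1 := by
    intro b
    have h1 := PW.norm_tr b w
    rw [hc, norm_smul] at h1
    exact mul_right_cancel₀ (norm_ne_zero_iff.2 hw0) (by rw [h1, one_mul])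
  have hone : c 1 = 1 := hinj (by rw [← hc, PW.tr_one, one_smul])
  have hmul : ∀ b b', c (b * b') = c b * c b' := by
    intro b b'
    apply hinj
    rw [← hc, PW.tr_mul, hc b', PW.tr_smul, hc b, smul_smul, mul_comm]
  have hcont : Continuous c := by
    have h1 : c = fun b => ⟪w, PW.tr (Measure.haar : Measure A) b w⟫_ℂ / ⟪w, w⟫_ℂ := by
      funext b
      rw [hc, inner_smul_right, mul_div_assoc, div_self (inner_self_ne_zero.2 hw0), mul_one]
    rw [h1]
    exact (continuous_const.inner (PW.continuous_tr w)).div_const _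
  refine ⟨{ toFun := fun b => ⟨c b, mem_sphere_zero_iff_norm.2 (hnorm b)⟩
            map_one' := Subtype.ext hone
            map_mul' := fun b b' => Subtype.ext (hmul b b') }, ?_, ?_⟩
  · exact Continuous.subtype_mk hcont _
  · intro h
    exact hca (congrArg Subtype.val h)

end Pool.Agent.Work.MP_87c52b_gt
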