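import Pool.Agent.Work.MP_87c52b_gt.Completion
import Pool.Agent.Work.MP_87c52b_gt.Chain
import Pool.Agent.Work.MP_87c52b_gt.Abelian
import Pool.Agent.Work.MP_87c52b_gt.PW

/-!
A pseudocompact minimal group with property Z is a compact group with a faithful
finite-dimensional representation.
-/

open scoped Topology Pointwise Uniformity
open Filter Set Topology

universe u v

set_option linter.unusedSectionVars false
set_option linter.unusedSimpArgs false
set_option linter.style.haveILetI false

namespace Pool.Agent.Work.MP_87c52b_gt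

variable {G : Type u} [Group G] [TopologicalSpace G] [IsTopologicalGroup G] [T2Space G]
variable {K : Type u} [Group K] [TopologicalSpace K] [IsTopologicalGroup K] [CompactSpace K]
  [T2Space K]

/-- Minimality of a dense subgroup implies that it meets every nontrivial closed normal
subgroup. -/
theorem essential_of_minimal {ι : G →* K} (hι : IsEmbedding ι) (hd : DenseRange ι)
    (hmin : MinimalGroup G) (N : Subgroup K) (hNn : N.Normal) (hNc : IsClosed (N : Set K))
    (hN : N ≠ ⊥) : ∃ x ∈ N, x ∈ ι.range ∧ x ≠ 1 := by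
  by_contra hcon
  push Not at hcon
  apply hN
  rw [eq_bot_iff]
  intro x hx
  haveI : IsClosed (N : Set K) := hNc
  let q : G →* K ⧸ N := (QuotientGroup.mk' N).comp ι
  have hq : Continuous q := continuous_quotient_mk'.comp hι.continuous
  have hinj : Function.Injective q := by
    rw [injective_iff_map_eq_one]
    intro g hg
    have h1 : ι g ∈ N := by
      have : QuotientGroup.mk' N (ι g) = 1 := hg
      rwa [QuotientGroup.mk'_apply, QuotientGroup.eq_one_iff] at this
    have h2 := hcon (ι g) h1 ⟨g, rfl⟩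
    exact hι.injective (by rw [h2, map_one])
  have hqind : IsInducing q := by
    let e : G ≃* q.range := MonoidHom.ofInjective hinj
    have he : Continuous e := Continuous.subtype_mk hq _
    have he' : Continuous e.symm := hmin q.range e he
    let E : G ≃ₜ q.range := ⟨e.toEquiv, he, he'⟩
    exact IsInducing.subtypeVal.comp E.isInducing
  have hne : (comap ι (𝓝 x)).NeBot := by
    rw [comap_neBot_iff]
    intro t ht
    obtain ⟨y, hy, ⟨g, rfl⟩⟩ := mem_closure_iff_nhds.1 (hd x) t ht
    exact ⟨g, hy⟩
  have h1 : Tendsto q (comap ι (𝓝 x)) (𝓝 (q 1)) := by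
    have h2 : Tendsto (fun k : K => (k : K ⧸ N)) (𝓝 x) (𝓝 (x : K ⧸ N)) :=
      (continuous_quotient_mk'.tendsto x)
    have h3 : (x : K ⧸ N) = q 1 := by
      rw [map_one]
      exact (QuotientGroup.eq_one_iff x).2 hx
    rw [h3] at h2
    exact h2.comp tendsto_comap
  have h2 : comap ι (𝓝 x) ≤ 𝓝 (1 : G) := by
    rw [hqind.nhds_eq_comap]
    exact h1.le_comap
  have h3 : Tendsto ι (comap ι (𝓝 x)) (𝓝 (ι 1)) := (hι.continuous.tendsto 1).mono_left h2
  have h4 : Tendsto ι (comap ι (𝓝 x)) (𝓝 x) := tendsto_comap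
  have h5 := tendsto_nhds_unique h4 h3
  rw [map_one] at h5
  exact h5

/-- A dense pseudocompact subgroup surjects onto each Lie quotient. -/
theorem surj_of_pseudocompact {ι : G →* K} (hι : IsEmbedding ι) (hd : DenseRange ι)
    (hps : Pseudocompact G) (U : Subgroup K) (hU : IsRepKernel U) (k : K) :
    ∃ g ∈ ι.range, g⁻¹ * k ∈ U := by
  obtain ⟨A, _, _, _, ρ, hρ, hρU⟩ := hU
  by_contra hcon
  push Not at hcon
  have hne : ∀ g : G, ρ (ι g) ≠ ρ k := by
    intro g hg
    apply hcon (ι g) ⟨g, rfl⟩
    rw [← hρU, map_mul, ← hg, ← map_mul, inv_mul_cancel, map_one]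
  have hcont : Continuous fun g : G => ‖ρ (ι g) - ρ k‖⁻¹ :=
    Continuous.inv₀ (((hρ.comp hι.continuous).sub continuous_const).norm)
      fun g => norm_ne_zero_iff.2 (sub_ne_zero.2 (hne g))
  obtain ⟨C, hC⟩ := hps _ hcont
  have hopen : IsOpen {x : K | ‖ρ x - ρ k‖ < (|C| + 1)⁻¹} :=
    isOpen_lt ((hρ.sub continuous_const).norm) continuous_const
  have hCpos : 0 < |C| + 1 := by positivity
  obtain ⟨g, hg⟩ := hd.exists_mem_open hopen ⟨k, by simpa using hCpos⟩
  have h1 := hC g
  have h2 : 0 < ‖ρ (ι g) - ρ k‖ := norm_pos_iff.2 (sub_ne_zero.2 (hne g))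
  rw [abs_of_nonneg (inv_nonneg.2 (norm_nonneg _))] at h1
  have h3 : |C| + 1 < ‖ρ (ι g) - ρ k‖⁻¹ := by
    rw [lt_inv_comm₀ hCpos h2]
    exact hg
  have := le_abs_self C
  linarith

/-- With property Z, a closed totally disconnected subgroup of the completion meets the group in
a finite set. -/
theorem finite_of_propertyZ {ι : G →* K} (hι : IsEmbedding ι) (hZ : PropertyZ G)
    (P : Subgroup K) (hPc : IsClosed (P : Set K)) (hPt : IsTotallyDisconnected (P : Set K)) :
    ((P : Set K) ∩ ι.range).Finite := by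
  haveI : CompactSpace P := isCompact_iff_compactSpace.1 hPc.isCompact
  haveI : TotallyDisconnectedSpace P := totallyDisconnectedSpace_subtype_iff.2 hPt
  let S : Subgroup G := P.comap ι
  have hSc : IsClosed (S : Set G) := hPc.preimage hι.continuous
  let j : S → P := fun s => ⟨ι s, s.2⟩
  have hj : IsInducing j := by
    have h1 : IsInducing (Subtype.val ∘ j) := hι.isInducing.comp IsInducing.subtypeVal
    exact IsInducing.of_comp_iff IsInducing.subtypeVal |>.1 h1
  have hzd : ZeroDimensional S := by
    have hb : TopologicalSpace.IsTopologicalBasis {s : Set P | IsClopen s} :=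
      loc_compact_Haus_tot_disc_of_zero_dim
    refine TopologicalSpace.isTopologicalBasis_of_isOpen_of_nhds (fun s hs => hs.2) ?_
    intro a s ha hs
    obtain ⟨t, ht, rfl⟩ := hj.isOpen_iff.1 hs
    obtain ⟨v, hv, hav, hvt⟩ := hb.exists_subset_of_mem_open ha ht
    exact ⟨j ⁻¹' v, hv.preimage hj.continuous, hav, preimage_mono hvt⟩
  haveI : DiscreteTopology S := hZ S hSc hzd
  have hdisc : DiscreteTopology (S.map ι) := by
    let e : S ≃* S.map ι := S.equivMapOfInjective ι hι.injective
    have he : IsInducing (fun s : S => ((e s : S.map ι) : K)) := by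
      have : (fun s : S => ((e s : S.map ι) : K)) = fun s : S => ι s := rfl
      rw [this]
      exact hι.isInducing.comp IsInducing.subtypeVal
    have he' : IsInducing e := (IsInducing.of_comp_iff IsInducing.subtypeVal).1 he
    let E : S ≃ₜ S.map ι := e.toEquiv.toHomeomorphOfIsInducing he'
    exact E.symm.isEmbedding.discreteTopology
  have hcl : IsClosed ((S.map ι : Subgroup K) : Set K) := Subgroup.isClosed_of_discrete
  haveI : CompactSpace (S.map ι) := isCompact_iff_compactSpace.1 hcl.isCompact
  haveI : Finite (S.map ι) := finite_of_compact_of_discrete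
  refine (Set.toFinite ((S.map ι : Subgroup K) : Set K)).subset ?_
  rintro _ ⟨hx, ⟨g, rfl⟩⟩
  exact ⟨g, hx, rfl⟩

theorem mkCtx {ι : G →* K} (hι : IsEmbedding ι) (hd : DenseRange ι)
    (hps : Pseudocompact G) (hmin : MinimalGroup G) (hZ : PropertyZ G) : Ctx ι.range where
  dense := by
    have : ((ι.range : Subgroup K) : Set K) = Set.range ι := MonoidHom.coe_range ι
    rw [this]
    exact hd
  ess := essential_of_minimal hι hd hmin
  surj := surj_of_pseudocompact hι hd hps
  zd := finite_of_propertyZ hι hZ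
  pw := peter_weyl K

/-- The main structural result: the group is compact and has a faithful finite-dimensional
representation. -/
theorem compact_linear (G : Type u) [Group G] [TopologicalSpace G] [IsTopologicalGroup G]
    [T2Space G] (hps : Pseudocompact G) (hmin : MinimalGroup G) (hZ : PropertyZ G) :
    CompactSpace G ∧ IsRepKernel (⊥ : Subgroup G) := by
  obtain ⟨K, _, _, _, _, _, ι, hι, hd⟩ := exists_compact_completion G hps
  have h := mkCtx hι hd hps hmin hZ
  have hsep : ∀ C : Subgroup K, IsClosed (C : Set K) → (∀ a ∈ C, ∀ b ∈ C, a * b = b * a) →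
      ∀ c : C, c ≠ 1 → ∃ χ : C →ₜ* Circle, χ c ≠ 1 := by
    intro C hCc hCab c hc
    haveI : CompactSpace C := isCompact_iff_compactSpace.1 hCc.isCompact
    letI : CommGroup C :=
      { (inferInstance : Group C) with
        mul_comm := fun a b => Subtype.ext (hCab a a.2 b b.2) }
    obtain ⟨χ, hχ, hχc⟩ := exists_character C c hc
    exact ⟨⟨χ, hχ⟩, hχc⟩
  have hbot : IsRepKernel (⊥ : Subgroup K) :=
    h.bot_isRepKernel fun B hBn hBc hBab => h.exists_kernel_abelian hsep hBn hBc hBab
  have hsurj : Function.Surjective ι := by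
    intro k
    obtain ⟨_, ⟨g, rfl⟩, hg⟩ := h.surj ⊥ hbot k
    exact ⟨g, inv_mul_eq_one.1 hg⟩
  refine ⟨?_, ?_⟩
  · let E : G ≃ₜ K := hι.toHomeomorphOfSurjective hsurj
    exact E.symm.compactSpace
  · obtain ⟨A, i1, i2, i3, ρ, hρ, hρU⟩ := hbot
    refine ⟨A, i1, i2, i3, ρ.comp ι, hρ.comp hι.continuous, fun g => ?_⟩
    rw [MonoidHom.comp_apply, hρU, Subgroup.mem_bot, Subgroup.mem_bot]
    exact ⟨fun h => hι.injective (by rw [h, map_one]), fun h => by rw [h, map_one]⟩

end Pool.Agent.Work.MP_87c52b_gt
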