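import Pool.Agent.Work.MP_87c52b_gt.Involution

/-!
A subgroup `H` of a compact linear group `M`, normalised by `M` and with trivial centraliser
in `M`, is open in `M`.
-/

open scoped Topology
open Filter Set NormedSpace

universe u v w

set_option linter.unusedSectionVars false
set_option linter.unusedSimpArgs false
set_option linter.style.haveILetI false

namespace Pool.Agent.Work.MP_87c52b_gt

section ListProd

variable {A : Type u} [NormedRing A] [NormedAlgebra ℝ A]
variable {E : Type v} [NormedAddCommGroup E] [NormedSpace ℝ E]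

theorem list_prod_deriv {ι : Type w} (f : ι → E → A) (D : ι → E →L[ℝ] A) (h0 : ∀ i, f i 0 = 1)
    (hD : ∀ i, HasStrictFDerivAt (f i) (D i) 0) (l : List ι) :
    (l.map (fun i => f i 0)).prod = 1 ∧
      HasStrictFDerivAt (fun X => (l.map (fun i => f i X)).prod) ((l.map D).sum) 0 := by
  induction l with
  | nil =>
    refine ⟨by simp, ?_⟩
    simp only [List.map_nil, List.prod_nil, List.sum_nil]
    exact hasStrictFDerivAt_const _ _
  | cons i l ih =>
    refine ⟨by rw [List.map_cons, List.prod_cons, h0, one_mul]; exact ih.1, ?_⟩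
    simp only [List.map_cons, List.prod_cons, List.sum_cons]
    have h1 := (hD i).mul' ih.2
    refine h1.congr_fderiv ?_
    ext X
    simp [h0, ih.1, add_comm]

end ListProd

variable {A : Type u} [NormedRing A] [NormedAlgebra ℝ A] [FiniteDimensional ℝ A]
variable {K : Type v} [Group K] [TopologicalSpace K] [IsTopologicalGroup K] [CompactSpace K]
  [T2Space K]

theorem open_of_centralizer_trivial {ρ : K →* A} (hρ : Continuous ρ) {M H : Subgroup K}
    (hM : IsClosed (M : Set K)) (hMn : M.Normal) (hinj : ∀ m ∈ M, ρ m = 1 → m = 1)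
    (hHM : H ≤ M) (hnorm : ∀ m ∈ M, ∀ h ∈ H, m * h * m⁻¹ ∈ H)
    (hcent : ∀ c ∈ M, (∀ h ∈ H, c * h = h * c) → c = 1) :
    ∃ O ∈ 𝓝 (1 : K), ∀ m ∈ M, m ∈ O → m ∈ H := by
  have hS : CG (ρ '' (M : Set K)) := cg_image hρ hM
  obtain ⟨β⟩ := nonempty_invForm hρ
  -- the set of generators
  let Z : Set A := {z | ∃ x ∈ H, ∃ Y ∈ hS.lie, z = ρ x * Y * ρ x⁻¹ - Y}
  have hconj : ∀ x ∈ M, ∀ Y ∈ hS.lie, ρ x * Y * ρ x⁻¹ ∈ hS.lie := by
    intro x hx Y hY
    refine hS.conj_mem_lie (map_mul_map_inv ρ x) (map_inv_mul_map ρ x) ?_ hY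
    rintro _ ⟨s, hs, rfl⟩
    exact ⟨x * s * x⁻¹, hMn.conj_mem s hs x, by simp⟩
  have hZlie : Submodule.span ℝ Z ≤ hS.lie := by
    rw [Submodule.span_le]
    rintro z ⟨x, hx, Y, hY, rfl⟩
    exact Submodule.sub_mem _ (hconj x (hHM hx) Y hY) hY
  have hlieZ : hS.lie ≤ Submodule.span ℝ Z := by
    intro W hW
    have hc := β.isCompl_orth (Submodule.span ℝ Z)
    set W₁ := (Submodule.span ℝ Z).projection _ hc W with hW₁
    have hW₁Z : W₁ ∈ Submodule.span ℝ Z := Submodule.projection_apply_mem hc W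
    have hW₂o : W - W₁ ∈ β.orth (Submodule.span ℝ Z) := by
      rw [← Submodule.projection_apply_eq_zero_iff hc, map_sub, sub_eq_zero]
      exact (Submodule.projection_apply_of_mem_left hc hW₁Z).symm
    have hW₂l : W - W₁ ∈ hS.lie := Submodule.sub_mem _ hW (hZlie hW₁Z)
    set W₂ := W - W₁ with hW₂
    have hfix : ∀ x ∈ H, ρ x⁻¹ * W₂ * ρ x = W₂ := by
      intro x hx
      have hzl : ρ x⁻¹ * W₂ * ρ x - W₂ ∈ hS.lie := by
        have := hconj x⁻¹ (M.inv_mem (hHM hx)) W₂ hW₂l
        rw [inv_inv] at this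
        exact Submodule.sub_mem _ this hW₂l
      have horth : ∀ Y ∈ hS.lie, β.B Y (ρ x⁻¹ * W₂ * ρ x - W₂) = 0 := by
        intro Y hY
        have h1 : β.B Y (ρ x⁻¹ * W₂ * ρ x) = β.B (ρ x * Y * ρ x⁻¹) W₂ := by
          have := β.inv' x⁻¹ Y W₂
          rw [inv_inv] at this
          exact this
        rw [map_sub, h1]
        have h2 : β.B (ρ x * Y * ρ x⁻¹ - Y) W₂ = 0 :=
          hW₂o _ (Submodule.subset_span ⟨x, hx, Y, hY, rfl⟩)
        rw [LinearMap.map_sub₂] at h2
        exact h2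
      by_contra hne
      have h3 := β.pos _ (sub_ne_zero.2 hne)
      rw [horth _ hzl] at h3
      exact lt_irrefl _ h3
    have hexp1 : ∀ t : ℝ, exp (t • W₂) = 1 := by
      intro t
      obtain ⟨m, hm, hmt⟩ := hW₂l t
      have : m = 1 := by
        apply hcent m hm
        intro h hh
        have hcomm : ρ h * W₂ = W₂ * ρ h := by
          calc ρ h * W₂ = ρ h * (ρ h⁻¹ * W₂ * ρ h) := by rw [hfix h hh]
            _ = (ρ h * ρ h⁻¹) * W₂ * ρ h := by noncomm_ring
            _ = W₂ * ρ h := by rw [map_mul_map_inv, one_mul]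
        have hcomm2 : Commute (ρ h) (exp (t • W₂)) := by
          apply Commute.exp_right
          show ρ h * (t • W₂) = (t • W₂) * ρ h
          rw [mul_smul_comm, smul_mul_assoc, hcomm]
        have h4 : m * h * m⁻¹ * h⁻¹ = 1 := by
          apply hinj
          · exact M.mul_mem (M.mul_mem (M.mul_mem hm (hHM hh)) (M.inv_mem hm))
              (M.inv_mem (hHM hh))
          · rw [map_mul, map_mul, map_mul, hmt, ← hcomm2.eq, ← hmt, mul_assoc (ρ h),
              map_mul_map_inv, mul_one, map_mul_map_inv]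
        have h5 : m * h * m⁻¹ = h := mul_inv_eq_one.1 h4
        exact mul_inv_eq_iff_eq_mul.1 h5
      rw [← hmt, this, map_one]
    have hW₂0 : W₂ = 0 := by
      have h1 := hasDerivAt_exp_smul_zero W₂
      have h2 : HasDerivAt (fun t : ℝ => exp (t • W₂)) 0 0 := by
        simp_rw [hexp1]; exact hasDerivAt_const _ _
      exact h1.unique h2
    have : W = W₁ := sub_eq_zero.1 hW₂0
    rw [this]; exact hW₁Z
  have hspan : Submodule.span ℝ Z = hS.lie := le_antisymm hZlie hlieZ
  -- a finite spanning family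
  obtain ⟨b, hbZ, hbspan, hbli⟩ := exists_linearIndependent ℝ Z
  have hbfin : Finite b := hbli.finite
  haveI : Fintype b := Fintype.ofFinite b
  have hx : ∀ z : b, ∃ x ∈ H, ∃ Y ∈ hS.lie, (z : A) = ρ x * Y * ρ x⁻¹ - Y := fun z => hbZ z.2
  choose x hxH Y hY hz using hx
  -- the section
  let s : (b → ℝ) →ₗ[ℝ] hS.lie :=
    { toFun := fun c => ⟨∑ i, c i • (i : A), Submodule.sum_mem _ fun i _ =>
        Submodule.smul_mem _ _ (hspan ▸ Submodule.subset_span (hbZ i.2))⟩
      map_add' := by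
        intro c d; ext; simp [add_smul, Finset.sum_add_distrib]
      map_smul' := by
        intro c d; ext; simp [Finset.smul_sum, smul_smul] }
  have hsurj : LinearMap.range s = ⊤ := by
    rw [LinearMap.range_eq_top]
    rintro ⟨X, hX⟩
    rw [← hspan, ← hbspan] at hX
    have hb' : X ∈ Submodule.span ℝ (Set.range (fun i : b => (i : A))) := by
      simpa using hX
    obtain ⟨c, hc⟩ := (Submodule.mem_span_range_iff_exists_fun ℝ).1 hb'
    exact ⟨c, Subtype.ext hc⟩
  obtain ⟨T, hT⟩ := s.exists_rightInverse_of_surjective hsurj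
  have hTX : ∀ X : hS.lie, ∑ i, T X i • (i : A) = (X : A) := by
    intro X
    have := LinearMap.congr_fun hT X
    exact congrArg Subtype.val this
  let Ti : b → hS.lie →L[ℝ] ℝ := fun i => ((LinearMap.proj i).comp T).toContinuousLinearMap
  have hTi : ∀ i X, Ti i X = T X i := fun i X => rfl
  let f : b → hS.lie → A := fun i X =>
    ρ (x i) * exp (Ti i X • Y i) * ρ (x i)⁻¹ * exp (Ti i X • (-Y i))
  have hf0 : ∀ i, f i 0 = 1 := by
    intro i; simp [f, map_mul_map_inv]
  have hexpD : ∀ (i : b) (y : A), HasStrictFDerivAt (fun X : hS.lie => exp (Ti i X • y))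
      ((Ti i).smulRight y) 0 := by
    intro i y
    have h3 : HasStrictFDerivAt (exp : A → A) (1 : A →L[ℝ] A)
        ((fun X : hS.lie => Ti i X • y) 0) := by
      simpa using (hasStrictFDerivAt_exp_zero (𝕂 := ℝ) (𝔸 := A))
    refine (HasStrictFDerivAt.comp (0 : hS.lie) h3
      ((Ti i).smulRight y).hasStrictFDerivAt).congr_fderiv ?_
    ext X; simp
  have hfD : ∀ i, HasStrictFDerivAt (f i) ((Ti i).smulRight (i : A)) 0 := by
    intro i
    have h1 := (hexpD i (Y i)).const_mul (ρ (x i))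
    have h2 := h1.mul_const' (ρ (x i)⁻¹)
    have h3 := h2.mul' (hexpD i (-Y i))
    refine h3.congr_fderiv ?_
    ext X
    simp [hz, map_mul_map_inv, smul_sub, sub_eq_add_neg, add_comm]
  have hprod := list_prod_deriv f (fun i => (Ti i).smulRight (i : A)) hf0 hfD
    (Finset.univ : Finset b).toList
  let Φ : hS.lie → A := fun X => ((Finset.univ : Finset b).toList.map (fun i => f i X)).prod
  have hΦ0 : Φ 0 = 1 := hprod.1
  have hΦD : HasStrictFDerivAt Φ hS.lie.subtypeL 0 := by
    refine hprod.2.congr_fderiv ?_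
    rw [Finset.sum_map_toList]
    ext X
    simp only [sum_apply, ContinuousLinearMap.smulRight_apply, hTi]
    exact hTX X
  have hfH : ∀ i X, ∃ h ∈ H, f i X = ρ h := by
    intro i X
    obtain ⟨m, hm, hmt⟩ := hY i (Ti i X)
    have h1 : exp (Ti i X • (-Y i)) = ρ m⁻¹ := by
      have h4 : ρ m * exp (Ti i X • (-Y i)) = 1 := by
        rw [hmt, smul_neg]; exact exp_mul_exp_neg _
      calc exp (Ti i X • (-Y i)) = (ρ m⁻¹ * ρ m) * exp (Ti i X • (-Y i)) := by
            rw [map_inv_mul_map, one_mul]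
        _ = ρ m⁻¹ := by rw [mul_assoc, h4, mul_one]
    refine ⟨x i * (m * (x i)⁻¹ * m⁻¹), H.mul_mem (hxH i)
      (hnorm m hm _ (H.inv_mem (hxH i))), ?_⟩
    simp only [f]
    rw [h1, ← hmt]
    simp only [map_mul, mul_assoc]
  have hΦH : ∀ X, ∃ h ∈ H, Φ X = ρ h := by
    intro X
    have hlist : ∀ l : List b, ∃ h ∈ H, (l.map (fun i => f i X)).prod = ρ h := by
      intro l
      induction l with
      | nil => exact ⟨1, H.one_mem, by simp⟩
      | cons i l ih =>
        obtain ⟨h, hh, hh'⟩ := ih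
        obtain ⟨k, hk, hk'⟩ := hfH i X
        exact ⟨k * h, H.mul_mem hk hh, by simp [hh', hk']⟩
    exact hlist _
  obtain ⟨O, hO, hOS⟩ := hS.local_surj hΦ0 hΦD
    (fun X => by obtain ⟨h, hh, hh'⟩ := hΦH X; exact ⟨h, hHM hh, hh'.symm⟩) univ_mem
  refine ⟨ρ ⁻¹' O, hρ.continuousAt.preimage_mem_nhds (by rwa [map_one]), ?_⟩
  intro m hm hmO
  obtain ⟨X, -, hX⟩ := hOS (ρ m) hmO ⟨m, hm, rfl⟩
  obtain ⟨h, hh, hh'⟩ := hΦH X
  have h1 : h⁻¹ * m = 1 := by
    apply hinj _ (M.mul_mem (M.inv_mem (hHM hh)) hm)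
    rw [map_mul, ← hX, hh', map_inv_mul_map]
  have h2 : m = h := by
    have := congrArg (fun y => h * y) h1
    simpa using this
  rw [h2]; exact hh

end Pool.Agent.Work.MP_87c52b_gt
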