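import Pool.Agent.Work.MP_87c52b_gt.InvForm

/-!
For a representation `ρ` of a compact group `K` and a closed normal subgroup `R`, the elements
`r * d` with `r ∈ R` and `ρ d` commuting with `ρ R` form a neighbourhood of `1`.
-/

open scoped Topology
open Filter Set NormedSpace

universe u v

set_option linter.unusedSectionVars false
set_option linter.unusedSimpArgs false
set_option linter.style.haveILetI false

namespace Pool.Agent.Work.MP_87c52b_gt

theorem map_mul_map_inv {A : Type u} [Monoid A] {K : Type v} [Group K] (ρ : K →* A) (g : K) :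
    ρ g * ρ g⁻¹ = 1 := by
  rw [← map_mul, mul_inv_cancel, map_one]

theorem map_inv_mul_map {A : Type u} [Monoid A] {K : Type v} [Group K] (ρ : K →* A) (g : K) :
    ρ g⁻¹ * ρ g = 1 := by
  rw [← map_mul, inv_mul_cancel, map_one]

variable {A : Type u} [NormedRing A] [NormedAlgebra ℝ A] [FiniteDimensional ℝ A]
variable {K : Type v} [Group K] [TopologicalSpace K] [IsTopologicalGroup K] [CompactSpace K]

theorem cg_image {ρ : K →* A} (hρ : Continuous ρ) {R : Subgroup K} (hR : IsClosed (R : Set K)) :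
    CG (ρ '' (R : Set K)) where
  compact := hR.isCompact.image hρ
  one_mem := ⟨1, R.one_mem, map_one ρ⟩
  mul_mem := by
    rintro _ _ ⟨a, ha, rfl⟩ ⟨b, hb, rfl⟩
    exact ⟨a * b, R.mul_mem ha hb, map_mul ρ a b⟩
  inv_mem := by
    rintro _ ⟨a, ha, rfl⟩
    exact ⟨ρ a⁻¹, ⟨a⁻¹, R.inv_mem ha, rfl⟩, map_mul_map_inv ρ a, map_inv_mul_map ρ a⟩

theorem lie_mono {S T : Set A} (hS : CG S) (hT : CG T) (h : T ⊆ S) : hT.lie ≤ hS.lie :=
  fun _ hX t => h (hX t)

/-- An invariant form, packaged. -/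
structure InvForm (ρ : K →* A) where
  B : A →ₗ[ℝ] A →ₗ[ℝ] ℝ
  symm : ∀ X Y, B X Y = B Y X
  pos : ∀ X, X ≠ 0 → 0 < B X X
  inv : ∀ (g : K) (X Y : A), B (ρ g * X * ρ g⁻¹) (ρ g * Y * ρ g⁻¹) = B X Y

theorem nonempty_invForm {ρ : K →* A} (hρ : Continuous ρ) : Nonempty (InvForm ρ) := by
  obtain ⟨B, h1, h2, h3⟩ := exists_invariant_form ρ hρ
  exact ⟨⟨B, h1, h2, h3⟩⟩

namespace InvForm

variable {ρ : K →* A} (β : InvForm ρ)

/-- The orthogonal complement of a subspace. -/
def orth (W : Submodule ℝ A) : Submodule ℝ A where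
  carrier := {Y | ∀ X ∈ W, β.B X Y = 0}
  zero_mem' := fun X _ => by simp
  add_mem' := by
    intro a b ha hb X hX
    rw [map_add, ha X hX, hb X hX, add_zero]
  smul_mem' := by
    intro c a ha X hX
    rw [map_smul, ha X hX, smul_zero]

theorem mem_orth {W : Submodule ℝ A} {Y : A} : Y ∈ β.orth W ↔ ∀ X ∈ W, β.B X Y = 0 := Iff.rfl

theorem isCompl_orth (W : Submodule ℝ A) : IsCompl W (β.orth W) := by
  have hrefl : LinearMap.BilinForm.IsRefl β.B := by
    intro x y h
    rw [β.symm]; exact h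
  have hd : Disjoint W (LinearMap.BilinForm.orthogonal β.B W) := by
    rw [Submodule.disjoint_def]
    intro x hx hx'
    by_contra hne
    have h1 := β.pos x hne
    have h2 := hx' x hx
    have h3 : β.B x x = 0 := h2
    linarith
  have h := (LinearMap.BilinForm.isCompl_orthogonal_iff_disjoint hrefl).2 hd
  have he : β.orth W = LinearMap.BilinForm.orthogonal β.B W := by
    ext Y; exact Iff.rfl
  rw [he]; exact h

theorem inv' (g : K) (X Y : A) : β.B X (ρ g * Y * ρ g⁻¹) = β.B (ρ g⁻¹ * X * ρ g) Y := by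
  have h := β.inv g (ρ g⁻¹ * X * ρ g) Y
  have h2 : ρ g * (ρ g⁻¹ * X * ρ g) * ρ g⁻¹ = X := by
    calc ρ g * (ρ g⁻¹ * X * ρ g) * ρ g⁻¹ = (ρ g * ρ g⁻¹) * X * (ρ g * ρ g⁻¹) := by noncomm_ring
      _ = X := by rw [map_mul_map_inv]; simp
  rw [h2] at h
  exact h

end InvForm

theorem exists_open_prod {ρ : K →* A} (hρ : Continuous ρ) {R : Subgroup K}
    (hR : IsClosed (R : Set K)) (hn : R.Normal) :
    ∃ O ∈ 𝓝 (1 : K), ∀ k ∈ O, ∃ r ∈ R, ∃ d : K, (∀ r' ∈ R, ρ d * ρ r' = ρ r' * ρ d) ∧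
      k = r * d := by
  have hS : CG (ρ '' ((⊤ : Subgroup K) : Set K)) := cg_image hρ (by simp)
  have hT : CG (ρ '' (R : Set K)) := cg_image hρ hR
  have hTS : hT.lie ≤ hS.lie := lie_mono hS hT (image_mono (by simp))
  obtain ⟨β⟩ := nonempty_invForm hρ
  have hc := β.isCompl_orth hT.lie
  let π : A →ₗ[ℝ] A := hT.lie.projection _ hc
  have hπ1 : ∀ X, π X ∈ hT.lie := fun X => Submodule.projection_apply_mem hc X
  have hπ2 : ∀ X, X - π X ∈ β.orth hT.lie := by
    intro X
    rw [← Submodule.projection_apply_eq_zero_iff hc, map_sub, sub_eq_zero]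
    exact (Submodule.projection_apply_of_mem_left hc (hπ1 X)).symm
  let πL : A →L[ℝ] A := π.toContinuousLinearMap
  have hπL : ∀ X, πL X = π X := fun X => rfl
  let Φ : hS.lie → A := fun X => exp (πL (X : A)) * exp ((X : A) - πL (X : A))
  have hΦ0 : Φ 0 = 1 := by simp [Φ]
  have hΦ : HasStrictFDerivAt Φ hS.lie.subtypeL 0 := by
    have h1 : HasStrictFDerivAt (fun X : hS.lie => exp (πL (X : A)))
        (πL ∘L hS.lie.subtypeL) 0 := by
      have h3 : HasStrictFDerivAt (exp : A → A) (1 : A →L[ℝ] A)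
          ((fun X : hS.lie => πL (X : A)) 0) := by
        simpa using (hasStrictFDerivAt_exp_zero (𝕂 := ℝ) (𝔸 := A))
      refine (HasStrictFDerivAt.comp (0 : hS.lie) h3
        (πL ∘L hS.lie.subtypeL).hasStrictFDerivAt).congr_fderiv ?_
      ext X; simp
    have h2 : HasStrictFDerivAt (fun X : hS.lie => exp ((X : A) - πL (X : A)))
        (hS.lie.subtypeL - πL ∘L hS.lie.subtypeL) 0 := by
      have h3 : HasStrictFDerivAt (exp : A → A) (1 : A →L[ℝ] A)
          ((fun X : hS.lie => (X : A) - πL (X : A)) 0) := by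
        simpa using (hasStrictFDerivAt_exp_zero (𝕂 := ℝ) (𝔸 := A))
      refine (HasStrictFDerivAt.comp (0 : hS.lie) h3
        (hS.lie.subtypeL - πL ∘L hS.lie.subtypeL).hasStrictFDerivAt).congr_fderiv ?_
      ext X; simp
    have h5 := h1.mul' h2
    refine h5.congr_fderiv ?_
    ext X
    simp
  have hΦS : ∀ X, Φ X ∈ ρ '' ((⊤ : Subgroup K) : Set K) := by
    intro X
    apply hS.mul_mem
    · exact hS.exp_mem_of_mem_lie (hTS (hπ1 X))
    · exact hS.exp_mem_of_mem_lie (Submodule.sub_mem _ X.2 (hTS (hπ1 X)))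
  obtain ⟨O, hO, hOS⟩ := hS.local_surj hΦ0 hΦ hΦS (univ_mem)
  refine ⟨ρ ⁻¹' O, ?_, ?_⟩
  · exact hρ.continuousAt.preimage_mem_nhds (by rwa [map_one])
  · intro k hk
    obtain ⟨X, -, hX⟩ := hOS (ρ k) hk ⟨k, by simp, rfl⟩
    have hX1 : exp (π X) ∈ ρ '' (R : Set K) := hT.exp_mem_of_mem_lie (hπ1 X)
    obtain ⟨r, hr, hr'⟩ := hX1
    refine ⟨r, hr, r⁻¹ * k, ?_, by group⟩
    have hd : ρ (r⁻¹ * k) = exp ((X : A) - π X) := by
      rw [map_mul, ← hX]
      simp only [Φ, hπL, ← hr']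
      rw [← mul_assoc, map_inv_mul_map, one_mul]
    rw [hd]
    intro r' hr'R
    have hcomm : ρ r' * ((X : A) - π X) = ((X : A) - π X) * ρ r' := by
      set Y : A := (X : A) - π X with hY
      have hYo : Y ∈ β.orth hT.lie := hπ2 X
      have hYl : Y ∈ hS.lie := Submodule.sub_mem _ X.2 (hTS (hπ1 X))
      have h1 : ρ r' * Y * ρ r'⁻¹ - Y ∈ β.orth hT.lie := by
        refine Submodule.sub_mem _ ?_ hYo
        intro Z hZ
        rw [β.inv']
        refine hYo _ ?_
        have := hT.conj_mem_lie (a := ρ r'⁻¹) (b := ρ r') (map_inv_mul_map ρ r')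
          (map_mul_map_inv ρ r') ?_ hZ
        · exact this
        · rintro _ ⟨s, hs, rfl⟩
          exact ⟨r'⁻¹ * s * r', R.mul_mem (R.mul_mem (R.inv_mem hr'R) hs) hr'R, by simp⟩
      have h2 : ρ r' * Y * ρ r'⁻¹ - Y ∈ hT.lie := by
        refine hT.mem_lie_of_hasDerivAt
          (γ := fun t : ℝ => ρ r' * exp (t • Y) * ρ r'⁻¹ * exp (t • (-Y))) ?_ ?_ ?_
        · simp [map_mul_map_inv]
        · have h3 := (((hasDerivAt_exp_smul_zero Y).const_mul (ρ r')).mul_const (ρ r'⁻¹)).fun_mul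
            (hasDerivAt_exp_smul_zero (-Y))
          refine h3.congr_deriv ?_
          simp [map_mul_map_inv, sub_eq_add_neg]
        · refine Eventually.of_forall fun t => ?_
          obtain ⟨s, -, hs⟩ := hYl t
          have hs' : exp (t • (-Y)) = ρ s⁻¹ := by
            have h4 : ρ s * exp (t • (-Y)) = 1 := by
              rw [hs, smul_neg]; exact exp_mul_exp_neg _
            calc exp (t • (-Y)) = (ρ s⁻¹ * ρ s) * exp (t • (-Y)) := by
                  rw [map_inv_mul_map, one_mul]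
              _ = ρ s⁻¹ := by rw [mul_assoc, h4, mul_one]
          rw [hs', ← hs]
          refine ⟨r' * (s * r'⁻¹ * s⁻¹), R.mul_mem hr'R (hn.conj_mem _ (R.inv_mem hr'R) s), ?_⟩
          simp only [map_mul, mul_assoc]
      have h3 : ρ r' * Y * ρ r'⁻¹ - Y = 0 := by
        have := hc.disjoint.le_bot ⟨h2, h1⟩
        simpa using this
      have h4 : ρ r' * Y * ρ r'⁻¹ = Y := sub_eq_zero.1 h3
      calc ρ r' * Y = ρ r' * Y * (ρ r'⁻¹ * ρ r') := by rw [map_inv_mul_map, mul_one]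
        _ = (ρ r' * Y * ρ r'⁻¹) * ρ r' := by noncomm_ring
        _ = Y * ρ r' := by rw [h4]
    have : Commute (ρ r') (exp ((X : A) - π X)) := Commute.exp_right hcomm
    exact this.eq.symm

end Pool.Agent.Work.MP_87c52b_gt
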