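import Pool.Agent.Work.MP_87c52b_gt.Defs

/-!
Pseudocompact groups are precompact.
-/

open scoped Topology Pointwise
open Filter Set

universe u v

set_option linter.unusedSectionVars false
set_option linter.unusedSimpArgs false
set_option linter.style.haveILetI false

namespace Pool.Agent.Work.MP_87c52b_gt

variable {G : Type u} [Group G] [TopologicalSpace G] [IsTopologicalGroup G]

/-- A pseudocompact group is covered by finitely many left translates of a neighbourhood of `1`. -/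
theorem finite_cover_of_pseudocompact (hG : Pseudocompact G) {V : Set G} (hV : V ∈ 𝓝 (1 : G)) :
    ∃ F : Set G, F.Finite ∧ ∀ x : G, ∃ g ∈ F, g⁻¹ * x ∈ V := by
  by_contra hcon
  push Not at hcon
  -- a small symmetric neighbourhood
  obtain ⟨W, hW, hWsub⟩ : ∃ W : Set G, IsOpen W ∧ (1 : G) ∈ W ∧
      ∀ a ∈ W, ∀ b ∈ W, ∀ c ∈ W, ∀ d ∈ W, a * b⁻¹ * c * d⁻¹ ∈ V := by
    have hcont : Continuous fun p : G × G × G × G => p.1 * p.2.1⁻¹ * p.2.2.1 * p.2.2.2⁻¹ := by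
      fun_prop
    have h1 : (fun p : G × G × G × G => p.1 * p.2.1⁻¹ * p.2.2.1 * p.2.2.2⁻¹) ⁻¹' V ∈
        𝓝 ((1 : G), (1 : G), (1 : G), (1 : G)) :=
      hcont.continuousAt.preimage_mem_nhds (by simpa using hV)
    rw [nhds_prod_eq, nhds_prod_eq, nhds_prod_eq] at h1
    obtain ⟨W₁, hW₁, t₁, ht₁, hsub₁⟩ := mem_prod_iff.1 h1
    obtain ⟨W₂, hW₂, t₂, ht₂, hsub₂⟩ := mem_prod_iff.1 ht₁
    obtain ⟨W₃, hW₃, W₄, hW₄, hsub₃⟩ := mem_prod_iff.1 ht₂
    refine ⟨interior (W₁ ∩ W₂ ∩ W₃ ∩ W₄), isOpen_interior, ?_, ?_⟩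
    · exact mem_interior_iff_mem_nhds.2 (inter_mem (inter_mem (inter_mem hW₁ hW₂) hW₃) hW₄)
    · intro a ha b hb c hc d hd
      have ha' := interior_subset ha
      have hb' := interior_subset hb
      have hc' := interior_subset hc
      have hd' := interior_subset hd
      exact hsub₁ (show (a, b, c, d) ∈ W₁ ×ˢ t₁ from
        ⟨ha'.1.1.1, hsub₂ (show (b, c, d) ∈ W₂ ×ˢ t₂ from
          ⟨hb'.1.1.2, hsub₃ (show (c, d) ∈ W₃ ×ˢ W₄ from ⟨hc'.1.2, hd'.2⟩)⟩)⟩)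
  obtain ⟨h1W, hWV⟩ := hWsub
  -- the bump function
  letI := IsTopologicalGroup.rightUniformSpace G
  obtain ⟨h, hcont, h1, hout⟩ :=
    CompletelyRegularSpace.completely_regular_isOpen (1 : G) W hW h1W
  let φ : G → ℝ := fun x => 1 - (h x : ℝ)
  have hφcont : Continuous φ := continuous_const.sub (continuous_subtype_val.comp hcont)
  have hφ1 : φ 1 = 1 := by simp [φ, h1]
  have hφout : ∀ x, x ∉ W → φ x = 0 := by
    intro x hx
    have := hout hx
    simp [φ, this]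
  have hφnn : ∀ x, 0 ≤ φ x := fun x => sub_nonneg.2 (h x).2.2
  -- the separated sequence
  have hseq : ∃ g : ℕ → G, ∀ m n, m < n → (g m)⁻¹ * g n ∉ V := by
    have hstep : ∀ l : List G, ∃ x : G, ∀ y ∈ l, y⁻¹ * x ∉ V := by
      intro l
      obtain ⟨x, hx⟩ := hcon {y | y ∈ l} (List.finite_toSet l)
      exact ⟨x, hx⟩
    choose nxt hnxt using hstep
    let L : ℕ → List G := fun n => Nat.rec [] (fun _ l => nxt l :: l) n
    have hL : ∀ n, L (n + 1) = nxt (L n) :: L n := fun n => rfl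
    refine ⟨fun n => nxt (L n), fun m n hmn => hnxt (L n) _ ?_⟩
    have hmem : ∀ k, nxt (L m) ∈ L (m + 1 + k) := by
      intro k
      induction k with
      | zero => rw [Nat.add_zero, hL]; simp
      | succ k ih => rw [← Nat.add_assoc, hL]; exact List.mem_cons_of_mem _ ih
    obtain ⟨k, rfl⟩ := Nat.exists_eq_add_of_lt hmn
    have := hmem k
    have he : m + 1 + k = m + k + 1 := by ring
    rwa [he] at this
  obtain ⟨g, hg⟩ := hseq
  have huniq : ∀ x : G, ∀ m n, (∃ w ∈ W, (g m)⁻¹ * (x * w) ∈ W) →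
      (∃ w ∈ W, (g n)⁻¹ * (x * w) ∈ W) → m = n := by
    have key : ∀ x : G, ∀ m n, m < n → (∃ w ∈ W, (g m)⁻¹ * (x * w) ∈ W) →
        (∃ w ∈ W, (g n)⁻¹ * (x * w) ∈ W) → False := by
      rintro x m n hmn ⟨w, hw, hmw⟩ ⟨w', hw', hnw'⟩
      apply hg m n hmn
      have : (g m)⁻¹ * g n = ((g m)⁻¹ * (x * w)) * w⁻¹ * w' * ((g n)⁻¹ * (x * w'))⁻¹ := by group
      rw [this]
      exact hWV _ hmw _ hw _ hw' _ hnw'
    intro x m n hm hn
    rcases lt_trichotomy m n with hlt | heq | hgt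
    · exact (key x m n hlt hm hn).elim
    · exact heq
    · exact (key x n m hgt hn hm).elim
  let f : ℕ → G → ℝ := fun n x => n * φ ((g n)⁻¹ * x)
  have hfcont : ∀ n, Continuous (f n) := fun n =>
    continuous_const.mul (hφcont.comp (continuous_const.mul continuous_id))
  have hlf : LocallyFinite fun n => Function.support (f n) := by
    intro x
    refine ⟨(fun w => x * w) '' W, ?_, ?_⟩
    · have : (fun w => x * w) '' W = (Homeomorph.mulLeft x) '' W := rfl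
      rw [this]
      have h2 := (Homeomorph.mulLeft x).isOpenMap W hW
      refine h2.mem_nhds ⟨1, h1W, by simp⟩
    · apply Set.Subsingleton.finite
      rintro m ⟨y, hy1, w, hw, rfl⟩ n ⟨y', hy1', w', hw', rfl⟩
      apply huniq x m n
      · refine ⟨w, hw, ?_⟩
        by_contra hnot
        exact hy1 (by simp only [f]; rw [hφout _ hnot, mul_zero])
      · refine ⟨w', hw', ?_⟩
        by_contra hnot
        exact hy1' (by simp only [f]; rw [hφout _ hnot, mul_zero])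
  have hFcont : Continuous fun x => ∑ᶠ n, f n x := continuous_finsum hfcont hlf
  obtain ⟨C, hC⟩ := hG _ hFcont
  obtain ⟨n, hn⟩ := exists_nat_gt C
  have h2 := hC (g n)
  have h3 : ∑ᶠ m, f m (g n) = f n (g n) := by
    apply finsum_eq_single
    intro m hm
    by_contra hne
    apply hm
    apply huniq (g n) m n
    · refine ⟨1, h1W, ?_⟩
      by_contra hnot
      apply hne
      simp only [f]
      rw [mul_one] at hnot
      rw [hφout _ hnot, mul_zero]
    · exact ⟨1, h1W, by simpa using h1W⟩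
  rw [h3] at h2
  have h4 : f n (g n) = n := by simp [f, hφ1]
  rw [h4, abs_of_nonneg (Nat.cast_nonneg n)] at h2
  linarith

/-- In a group covered by finitely many translates of each neighbourhood of `1`, conjugation is
equicontinuous. -/
theorem sin_of_cover
    (hcov : ∀ V ∈ 𝓝 (1 : G), ∃ F : Set G, F.Finite ∧ ∀ x : G, ∃ g ∈ F, g⁻¹ * x ∈ V)
    {V : Set G} (hV : V ∈ 𝓝 (1 : G)) : ∃ W ∈ 𝓝 (1 : G), ∀ g : G, ∀ w ∈ W, g * w * g⁻¹ ∈ V := by
  obtain ⟨V', hV', hsub⟩ : ∃ V' ∈ 𝓝 (1 : G), ∀ a ∈ V', ∀ b ∈ V', ∀ c ∈ V', a⁻¹ * b * c ∈ V := by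
    have hcont : Continuous fun p : G × G × G => p.1⁻¹ * p.2.1 * p.2.2 := by fun_prop
    have h1 : (fun p : G × G × G => p.1⁻¹ * p.2.1 * p.2.2) ⁻¹' V ∈
        𝓝 ((1 : G), (1 : G), (1 : G)) :=
      hcont.continuousAt.preimage_mem_nhds (by simpa using hV)
    rw [nhds_prod_eq, nhds_prod_eq] at h1
    obtain ⟨W₁, hW₁, t₁, ht₁, hsub₁⟩ := mem_prod_iff.1 h1
    obtain ⟨W₂, hW₂, W₃, hW₃, hsub₂⟩ := mem_prod_iff.1 ht₁
    refine ⟨W₁ ∩ W₂ ∩ W₃, inter_mem (inter_mem hW₁ hW₂) hW₃, ?_⟩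
    intro a ha b hb c hc
    exact hsub₁ (show (a, b, c) ∈ W₁ ×ˢ t₁ from
      ⟨ha.1.1, hsub₂ (show (b, c) ∈ W₂ ×ˢ W₃ from ⟨hb.1.2, hc.2⟩)⟩)
  obtain ⟨F, hF, hFcov⟩ := hcov V' hV'
  -- for x = g⁻¹ : x = f v, g = v⁻¹ f⁻¹
  refine ⟨⋂ f ∈ F, {w | f⁻¹ * w * f ∈ V'}, ?_, ?_⟩
  · rw [biInter_mem hF]
    intro f _
    have hcont : Continuous fun w : G => f⁻¹ * w * f := by fun_prop
    exact hcont.continuousAt.preimage_mem_nhds (by simpa using hV')
  · intro g w hw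
    obtain ⟨f, hf, hv⟩ := hFcov g⁻¹
    have h1 : f⁻¹ * w * f ∈ V' := by
      rw [mem_iInter₂] at hw
      exact hw f hf
    have h2 : g * w * g⁻¹ = (f⁻¹ * g⁻¹)⁻¹ * (f⁻¹ * w * f) * (f⁻¹ * g⁻¹) := by group
    rw [h2]
    exact hsub _ hv _ h1 _ hv

end Pool.Agent.Work.MP_87c52b_gt
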