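import Pool.Agent.Work.MP_87c52b_gt.Defs

/-!
Cartan toolkit: compact groups inside a finite-dimensional real normed algebra.
-/

open scoped Topology
open Filter Set NormedSpace

universe u

set_option linter.unusedSectionVars false
set_option linter.unusedSimpArgs false
set_option linter.style.haveILetI false

namespace Pool.Agent.Work.MP_87c52b_gt

section Algebra

variable {A : Type u} [NormedRing A] [NormedAlgebra ℝ A] [FiniteDimensional ℝ A]

/-! ### wrappers for the exponential in real algebras -/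

theorem exp_add_comm' {x y : A} (h : Commute x y) : exp (x + y) = exp x * exp y := by
  letI : NormedAlgebra ℚ A := NormedAlgebra.restrictScalars ℚ ℝ A
  exact exp_add_of_commute h

theorem exp_cont' : Continuous (exp : A → A) := by
  letI : NormedAlgebra ℚ A := NormedAlgebra.restrictScalars ℚ ℝ A
  exact exp_continuous

theorem exp_nsmul' (n : ℕ) (x : A) : exp (n • x) = exp x ^ n := by
  letI : NormedAlgebra ℚ A := NormedAlgebra.restrictScalars ℚ ℝ A
  exact exp_nsmul n x

theorem exp_mul_exp_neg (x : A) : exp x * exp (-x) = 1 := by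
  rw [← exp_add_comm' (Commute.neg_right (Commute.refl x)), add_neg_cancel, exp_zero]

theorem exp_neg_mul_exp (x : A) : exp (-x) * exp x = 1 := by
  rw [← exp_add_comm' (Commute.neg_left (Commute.refl x)), neg_add_cancel, exp_zero]

theorem exp_conj_of_inv {a b : A} (x : A) (h1 : a * b = 1) (h2 : b * a = 1) :
    exp (a * x * b) = a * exp x * b := by
  letI : NormedAlgebra ℚ A := NormedAlgebra.restrictScalars ℚ ℝ A
  exact exp_units_conj (⟨a, b, h1, h2⟩ : Aˣ) x

theorem hexp0 : HasStrictFDerivAt (exp : A → A)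
    ((ContinuousLinearEquiv.refl ℝ A : A ≃L[ℝ] A) : A →L[ℝ] A) 0 :=
  hasStrictFDerivAt_exp_zero (𝕂 := ℝ) (𝔸 := A)

/-- The local inverse of the exponential at `1`. -/
noncomputable def logA : A → A :=
  HasStrictFDerivAt.localInverse (exp : A → A) (ContinuousLinearEquiv.refl ℝ A) 0 hexp0

theorem logA_one : logA (1 : A) = 0 := by
  have h := (hexp0 (A := A)).localInverse_apply_image
  rw [exp_zero] at h
  exact h

theorem exp_logA : ∀ᶠ y in 𝓝 (1 : A), exp (logA y) = y := by
  have h := (hexp0 (A := A)).eventually_right_inverse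
  rw [exp_zero] at h
  exact h

theorem logA_exp : ∀ᶠ x in 𝓝 (0 : A), logA (exp x) = x :=
  (hexp0 (A := A)).eventually_left_inverse

theorem hasStrictFDerivAt_logA : HasStrictFDerivAt (logA : A → A) (1 : A →L[ℝ] A) 1 := by
  have h := (hexp0 (A := A)).to_localInverse
  rw [exp_zero] at h
  exact h

theorem hasDerivAt_exp_smul_zero (X : A) : HasDerivAt (fun t : ℝ => exp (t • X)) X 0 := by
  have h := hasDerivAt_exp_smul_const (𝕂 := ℝ) X 0
  simpa using h

/-- A compact subset of the algebra that is a group under multiplication. -/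
structure CG (S : Set A) : Prop where
  compact : IsCompact S
  one_mem : (1 : A) ∈ S
  mul_mem : ∀ {a b : A}, a ∈ S → b ∈ S → a * b ∈ S
  inv_mem : ∀ {a : A}, a ∈ S → ∃ b ∈ S, a * b = 1 ∧ b * a = 1

namespace CG

variable {S : Set A}

theorem closed (hS : CG S) : IsClosed S := hS.compact.isClosed

theorem pow_mem (hS : CG S) {a : A} (ha : a ∈ S) (n : ℕ) : a ^ n ∈ S := by
  induction n with
  | zero => simpa using hS.one_mem
  | succ n ih => rw [pow_succ]; exact hS.mul_mem ih ha

theorem mem_of_mul_eq_one (hS : CG S) {a b : A} (ha : a ∈ S) (h : a * b = 1) : b ∈ S := by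
  obtain ⟨c, hc, h1, h2⟩ := hS.inv_mem ha
  have : b = c := by
    calc b = (c * a) * b := by rw [h2, one_mul]
      _ = c := by rw [mul_assoc, h, mul_one]
  rwa [this]

theorem exp_neg_mem (hS : CG S) {x : A} (hx : exp x ∈ S) : exp (-x) ∈ S :=
  hS.mem_of_mul_eq_one hx (exp_mul_exp_neg x)

theorem exp_zsmul_mem (hS : CG S) {x : A} (hx : exp x ∈ S) (n : ℤ) : exp (n • x) ∈ S := by
  obtain ⟨m, rfl | rfl⟩ := n.eq_nat_or_neg
  · rw [natCast_zsmul, exp_nsmul']; exact hS.pow_mem hx m
  · rw [neg_zsmul, natCast_zsmul]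
    apply hS.exp_neg_mem
    rw [exp_nsmul']; exact hS.pow_mem hx m

/-- Key lemma on tangent directions. -/
theorem key1 (hS : CG S) {ι : Type*} {l : Filter ι} [l.NeBot] {x : ι → A} {c : ι → ℝ} {X : A}
    (hx : Tendsto x l (𝓝 0)) (hcx : Tendsto (fun k => c k • x k) l (𝓝 X))
    (hmem : ∀ᶠ k in l, exp (x k) ∈ S) : exp X ∈ S := by
  have h1 : Tendsto (fun k => (⌊c k⌋ : ℤ) • x k) l (𝓝 X) := by
    have h2 : Tendsto (fun k => (Int.fract (c k)) • x k) l (𝓝 0) := by
      rw [tendsto_zero_iff_norm_tendsto_zero] at hx ⊢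
      refine squeeze_zero (fun k => norm_nonneg _) (fun k => ?_) hx
      rw [norm_smul, Real.norm_of_nonneg (Int.fract_nonneg _)]
      exact mul_le_of_le_one_left (norm_nonneg _) (Int.fract_lt_one _).le
    have h3 := hcx.sub h2
    rw [sub_zero] at h3
    refine h3.congr (fun k => ?_)
    rw [← sub_smul, Int.self_sub_fract, Int.cast_smul_eq_zsmul]
  have h4 : Tendsto (fun k => exp ((⌊c k⌋ : ℤ) • x k)) l (𝓝 (exp X)) :=
    (exp_cont'.tendsto X).comp h1
  exact hS.closed.mem_of_tendsto h4 (hmem.mono fun k hk => hS.exp_zsmul_mem hk _)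

theorem key2 (hS : CG S) {γ : ℝ → A} {X : A} (h0 : γ 0 = 1) (hγ : HasDerivAt γ X 0)
    (hmem : ∀ᶠ t in 𝓝 (0 : ℝ), γ t ∈ S) (t : ℝ) : exp (t • X) ∈ S := by
  have hl : HasDerivAt (fun s => logA (γ s)) X 0 := by
    have h1 := (hasStrictFDerivAt_logA (A := A)).hasFDerivAt
    rw [← h0] at h1
    have h2 := h1.comp_hasDerivAt 0 hγ
    simpa [Function.comp_def] using h2
  have hl0 : logA (γ 0) = 0 := by rw [h0, logA_one]
  have hseq : Tendsto (fun k : ℕ => (1 : ℝ) / ((k : ℝ) + 1)) atTop (𝓝 0) :=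
    tendsto_one_div_add_atTop_nhds_zero_nat
  have hseq' : Tendsto (fun k : ℕ => (1 : ℝ) / ((k : ℝ) + 1)) atTop (𝓝[≠] 0) := by
    refine tendsto_nhdsWithin_iff.2 ⟨hseq, Eventually.of_forall fun k => ?_⟩
    have : (0 : ℝ) < (k : ℝ) + 1 := by positivity
    exact (one_div_pos.2 this).ne'
  have hslope := (hasDerivAt_iff_tendsto_slope.1 hl).comp hseq'
  have hx : Tendsto (fun k : ℕ => logA (γ ((1 : ℝ) / ((k : ℝ) + 1)))) atTop (𝓝 0) := by
    have := hl.continuousAt.tendsto.comp hseq
    simpa [hl0, Function.comp_def] using this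
  refine hS.key1 (l := atTop) (c := fun k : ℕ => t * ((k : ℝ) + 1)) hx ?_ ?_
  · have h5 := hslope.const_smul t
    refine h5.congr (fun k => ?_)
    simp only [Function.comp_def, slope_def_module, hl0, sub_zero, one_div, inv_inv, smul_smul]
  · have h6 : Tendsto (fun k : ℕ => γ ((1 : ℝ) / ((k : ℝ) + 1))) atTop (𝓝 1) := by
      have := hγ.continuousAt.tendsto.comp hseq
      simpa [h0, Function.comp_def] using this
    filter_upwards [h6.eventually exp_logA, hseq.eventually hmem] with k hk1 hk2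
    rw [hk1]; exact hk2

/-- The Lie algebra of a compact group in `A`. -/
noncomputable def lie (hS : CG S) : Submodule ℝ A where
  carrier := {X | ∀ t : ℝ, exp (t • X) ∈ S}
  zero_mem' := fun t => by simpa using hS.one_mem
  add_mem' := by
    intro X Y hX hY t
    refine hS.key2 (γ := fun s : ℝ => exp (s • X) * exp (s • Y)) (by simp) ?_ ?_ t
    · have := (hasDerivAt_exp_smul_zero X).fun_mul (hasDerivAt_exp_smul_zero Y)
      simpa using this
    · exact Eventually.of_forall fun s => hS.mul_mem (hX s) (hY s)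
  smul_mem' := by
    intro c X hX t
    rw [smul_smul]
    exact hX _

theorem mem_lie (hS : CG S) {X : A} : X ∈ hS.lie ↔ ∀ t : ℝ, exp (t • X) ∈ S := Iff.rfl

theorem mem_lie_of_hasDerivAt (hS : CG S) {γ : ℝ → A} {X : A} (h0 : γ 0 = 1)
    (hγ : HasDerivAt γ X 0) (hmem : ∀ᶠ t in 𝓝 (0 : ℝ), γ t ∈ S) : X ∈ hS.lie :=
  fun t => hS.key2 h0 hγ hmem t

theorem exp_mem_of_mem_lie (hS : CG S) {X : A} (hX : X ∈ hS.lie) : exp X ∈ S := by
  simpa using hX 1

/-- The Lie algebra is invariant under conjugation by elements of a group normalising `S`. -/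
theorem conj_mem_lie (hS : CG S) {a b : A} (h1 : a * b = 1) (h2 : b * a = 1)
    (hn : ∀ s ∈ S, a * s * b ∈ S) {X : A} (hX : X ∈ hS.lie) : a * X * b ∈ hS.lie := by
  intro t
  have : t • (a * X * b) = a * (t • X) * b := by
    rw [mul_smul_comm, smul_mul_assoc]
  rw [this, exp_conj_of_inv _ h1 h2]
  exact hn _ (hX t)

/-- Elements of a complement of the Lie algebra which exponentiate into `S` are not small. -/
theorem compl_small (hS : CG S) (Q : Submodule ℝ A) (hQ : Disjoint hS.lie Q) :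
    ∃ δ > 0, ∀ q ∈ Q, ‖q‖ < δ → exp q ∈ S → q = 0 := by
  by_contra hcon
  push Not at hcon
  have h1 : ∀ k : ℕ, ∃ q ∈ Q, ‖q‖ < 1 / ((k : ℝ) + 1) ∧ exp q ∈ S ∧ q ≠ 0 := by
    intro k
    obtain ⟨q, hq1, hq2, hq3, hq4⟩ := hcon (1 / ((k : ℝ) + 1)) (by positivity)
    exact ⟨q, hq1, hq2, hq3, hq4⟩
  choose q hqQ hqn hqS hq0 using h1
  have hunit : ∀ k, ‖q k‖⁻¹ • q k ∈ Metric.sphere (0 : A) 1 := by
    intro k
    rw [mem_sphere_zero_iff_norm, norm_smul, norm_inv, norm_norm]
    exact inv_mul_cancel₀ (norm_ne_zero_iff.2 (hq0 k))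
  haveI : ProperSpace A := FiniteDimensional.proper ℝ A
  obtain ⟨X, hX, φ, hφ, hlim⟩ := (isCompact_sphere (0 : A) 1).tendsto_subseq hunit
  have hXQ : X ∈ Q := by
    have hQc : IsClosed (Q : Set A) := Q.closed_of_finiteDimensional
    exact hQc.mem_of_tendsto hlim (Eventually.of_forall fun k => Q.smul_mem _ (hqQ _))
  have hq : Tendsto (fun k => q (φ k)) atTop (𝓝 0) := by
    have h2 : Tendsto q atTop (𝓝 0) :=
      squeeze_zero_norm (fun k => (hqn k).le) tendsto_one_div_add_atTop_nhds_zero_nat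
    exact h2.comp hφ.tendsto_atTop
  have hXl : X ∈ hS.lie := by
    intro t
    refine hS.key1 (l := atTop) (x := fun k => q (φ k)) (c := fun k => t * ‖q (φ k)‖⁻¹) hq ?_
      (Eventually.of_forall fun k => hqS _)
    have := hlim.const_smul t
    refine this.congr (fun k => ?_)
    simp [Function.comp_def, smul_smul]
  have hX0 : X = 0 := by
    have := hQ.le_bot ⟨hXl, hXQ⟩
    simpa using this
  rw [hX0] at hX
  simp at hX

end CG

end Algebra

end Pool.Agent.Work.MP_87c52b_gt
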